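import Pool.Agent.S5.Fld.BOi

/-!
# Nodes with three and four half twists: runs
-/

set_option autoImplicit false

namespace Pool.Agent.S5.Fld

open Pool.Agent.S5.E Pool.Agent.S5.E.VX

set_option maxRecDepth 100000 in
theorem rx3_1 : chkW 1 60 acc3 x3_1 = true := by decide +kernel

set_option maxRecDepth 100000 in
theorem rx4_10 : chkW 1 60 acc4 x4_10 = true := by decide +kernel

set_option maxRecDepth 100000 in
theorem rx4_6 : chkW 1 60 acc4 x4_6 = true := by decide +kernel

set_option maxRecDepth 100000 in
theorem rx4_9 : chkW 1 60 acc4 x4_9 = true := by decide +kernel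

set_option maxRecDepth 100000 in
theorem rx3_7 : chkW 1 60 acc3 x3_7 = true := by decide +kernel

end Pool.Agent.S5.Fld
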