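import Pool.Agent.S5.Fld.BO4
import Pool.Agent.S5.Fld.BOr0
import Pool.Agent.S5.Fld.BOr1
import Pool.Agent.S5.Fld.BOr2
import Pool.Agent.S5.Fld.BOr3
import Pool.Agent.S5.E.T.TabF

/-!
# The fields `o3`, `o4`, `z3`, `z4` of `OpenB` for the final table
-/

set_option autoImplicit false

namespace Pool.Agent.S5.Fld

open Pool.Agent.S5.E Pool.Agent.S5.E.VX

theorem rn_x3 : Rn acc3 Lx3 := by
  intro x hx
  unfold Lx3 at hx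
  simp only [List.mem_cons, List.not_mem_nil, or_false] at hx
  rcases hx with rfl | rfl | rfl | rfl | rfl | rfl | rfl | rfl
  · exact ⟨1, 60, rx3_0⟩
  · exact ⟨1, 60, rx3_1⟩
  · exact ⟨1, 60, rx3_2⟩
  · exact ⟨1, 60, rx3_3⟩
  · exact ⟨1, 60, rx3_4⟩
  · exact ⟨1, 60, rx3_5⟩
  · exact ⟨1, 60, rx3_6⟩
  · exact ⟨1, 60, rx3_7⟩

theorem rn_x4 : Rn acc4 Lx4 := by
  intro x hx
  unfold Lx4 at hx
  simp only [List.mem_cons, List.not_mem_nil, or_false] at hx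
  rcases hx with rfl | rfl | rfl | rfl | rfl | rfl | rfl | rfl | rfl | rfl | rfl
  · exact ⟨1, 60, rx4_0⟩
  · exact ⟨1, 60, rx4_1⟩
  · exact ⟨1, 60, rx4_2⟩
  · exact ⟨1, 60, rx4_3⟩
  · exact ⟨1, 60, rx4_4⟩
  · exact ⟨1, 60, rx4_5⟩
  · exact ⟨1, 60, rx4_6⟩
  · exact ⟨1, 60, rx4_7⟩
  · exact ⟨1, 60, rx4_8⟩
  · exact ⟨1, 60, rx4_9⟩
  · exact ⟨1, 60, rx4_10⟩

theorem rn_xe : Rn acc3e Lxe := by
  intro x hx
  unfold Lxe at hx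
  simp only [List.mem_cons, List.not_mem_nil, or_false] at hx
  rcases hx with rfl | rfl | rfl
  · exact ⟨1, 60, rxe_0⟩
  · exact ⟨1, 60, rxe_1⟩
  · exact ⟨1, 60, rxe_2⟩

set_option maxRecDepth 100000 in
theorem cv_3 : cvI Tfin Lx3 3 hit3 = true := by decide +kernel

set_option maxRecDepth 100000 in
theorem cv_4 : cvI Tfin Lx4 4 hit4 = true := by decide +kernel

set_option maxRecDepth 100000 in
theorem cv_e : cvE Tfin Lxe = true := by decide +kernel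

/-- The field `o3`. -/
theorem b_o3 : ∀ (R : ℕ) (a : ℕ → ℕ) (S : ℕ → Bool) (z ql qr : ℕ → ℂ) (zF : Fin (R + 1) → ℂ),
    Pre Tfin R a S z ql qr zF → ∀ i, i ≤ R → a i = 3 →
      G.O3 (qB' (flO R a S) ql qr i) (qO' (flO R a S) ql qr i) :=
  fun _ _ _ _ _ _ _ h _ hi h3 => o3_all h rn_x3 cv_3 rn_xe cv_e hi h3

/-- The field `o4`. -/
theorem b_o4 : ∀ (R : ℕ) (a : ℕ → ℕ) (S : ℕ → Bool) (z ql qr : ℕ → ℂ) (zF : Fin (R + 1) → ℂ),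
    Pre Tfin R a S z ql qr zF → ∀ i, 0 < i → i < R → a i = 4 → G.O4 (ql i) (qr i) :=
  fun _ _ _ _ _ _ _ h _ h0 hi h4 => o4_all h rn_x4 cv_4 h0 hi h4

/-- The field `z3`. -/
theorem b_z3 : ∀ (R : ℕ) (a : ℕ → ℕ) (S : ℕ → Bool) (r : ℕ → ℤ) (z ql qr : ℕ → ℂ)
    (zF : Fin (R + 1) → ℂ), Pre Tfin R a S z ql qr zF →
    HG R a S (flO R a S) z ql qr r (KO R a S r z ql qr) → ∀ i, i ≤ R → a i = 3 →
      |(G.zz3 (qB' (flO R a S) ql qr i) (qO' (flO R a S) ql qr i) (z i)).im| ≤ 3 / 20 ∧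
      |(G.zz3 (qB' (flO R a S) ql qr i) (qO' (flO R a S) ql qr i) (z i)).re| < z1O R a S i :=
  fun _ _ _ _ _ _ _ _ h _ _ hi h3 => z3_all h rn_x3 cv_3 rn_xe cv_e hi h3

/-- The field `z4`. -/
theorem b_z4 : ∀ (R : ℕ) (a : ℕ → ℕ) (S : ℕ → Bool) (r : ℕ → ℤ) (z ql qr : ℕ → ℂ)
    (zF : Fin (R + 1) → ℂ), Pre Tfin R a S z ql qr zF →
    HG R a S (flO R a S) z ql qr r (KO R a S r z ql qr) → ∀ i, 0 < i → i < R → a i = 4 →
      |(G.zz4 (qB' (flO R a S) ql qr i) (qO' (flO R a S) ql qr i) (z i)).im| ≤ 3 / 20 ∧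
      |(G.zz4 (qB' (flO R a S) ql qr i) (qO' (flO R a S) ql qr i) (z i)).re| < z1O R a S i :=
  fun _ _ _ _ _ _ _ _ h _ _ h0 hi h4 => z4_all h rn_x4 cv_4 h0 hi h4

end Pool.Agent.S5.Fld
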