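import Pool.Agent.S5.E.VX.RunW

/-!
# Nodes with three and four half twists: the tests of the slots

The first slot is `p₁ + i r₁`, the second one `p₂ + i r₂`. The tests are evaluated in units of
`2 ^ (-30)`, the signed quantities `r` with the offset `2`.
-/

set_option autoImplicit false

namespace Pool.Agent.S5.Fld

open Real Pool.Agent.S3.NI Pool.Agent.S5.E.B2 Pool.Agent.S5.E Pool.Agent.S5.E.VX

/-! ### Signed bounds -/

/-- lower bound of `r + 2`. -/
def sLo (m : Md) (B : N) : ℕ :=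
  match m with
  | .n => Nat.sub 2147483648 B.hi
  | _ => Nat.add 2147483648 B.lo

/-- upper bound of `r + 2`. -/
def sHi (m : Md) (B : N) : ℕ :=
  match m with
  | .n => Nat.sub 2147483648 B.lo
  | _ => Nat.add 2147483648 B.hi

theorem sub_ge (a b : ℕ) : (a : ℝ) - b ≤ ((Nat.sub a b : ℕ) : ℝ) := by
  have h : a ≤ Nat.sub a b + b := by
    show a ≤ (a - b) + b
    omega
  have : (a : ℝ) ≤ ((Nat.sub a b + b : ℕ) : ℝ) := by exact_mod_cast h
  push_cast at this
  linarith

theorem sub_le' {a b : ℕ} {x : ℝ} (h : (a : ℝ) - b ≤ x) (h0 : 0 ≤ x) :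
    ((Nat.sub a b : ℕ) : ℝ) ≤ x := by
  rcases Nat.le_total b a with h1 | h1
  · have : ((Nat.sub a b : ℕ) : ℝ) = (a : ℝ) - b := by
      show ((a - b : ℕ) : ℝ) = _
      rw [Nat.cast_sub h1]
    rw [this]
    exact h
  · have : ((Nat.sub a b : ℕ) : ℝ) = 0 := by
      show ((a - b : ℕ) : ℝ) = 0
      rw [Nat.sub_eq_zero_of_le h1]
      simp
    rw [this]
    exact h0

theorem sLo_mem {m : Md} {B : N} {q : ℝ} (h : Mem q B) (h1 : q ≤ π / 2) :
    (sLo m B : ℝ) ≤ (VX.sq m q + 2) * 1073741824 := by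
  have hp := pi_ub
  have k := h.1
  have k' := h.2
  cases m with
  | n =>
    simp only [sLo, VX.sq]
    apply sub_le'
    · push_cast
      linarith
    · have : q ≤ 2 := by linarith [pi_lt_d2]
      nlinarith
  | o => simp only [sLo, VX.sq]; rw [cast_add']; push_cast; linarith
  | a => simp only [sLo, VX.sq]; rw [cast_add']; push_cast; linarith
  | s => simp only [sLo, VX.sq]; rw [cast_add']; push_cast; linarith

theorem sHi_mem {m : Md} {B : N} {q : ℝ} (h : Mem q B) :
    (VX.sq m q + 2) * 1073741824 ≤ (sHi m B : ℝ) := by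
  have k := h.1
  have k' := h.2
  cases m with
  | n =>
    simp only [sHi, VX.sq]
    refine le_trans ?_ (sub_ge _ _)
    push_cast
    linarith
  | o => simp only [sHi, VX.sq]; rw [cast_add']; push_cast; linarith
  | a => simp only [sHi, VX.sq]; rw [cast_add']; push_cast; linarith
  | s => simp only [sHi, VX.sq]; rw [cast_add']; push_cast; linarith

/-! ### The linear tests -/

/-- `4 u < π + 8 v`. -/
def t48 (u v : ℕ) : Bool := Nat.ble (Nat.add (Nat.mul 4 u) 5216675167) (Nat.mul 8 v)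

/-- The linear conditions of a node with three half twists; `a0, a1`, `b0, b1`: bounds of `r₁ + 2`,
`r₂ + 2`, `P`, `Q`: the ranges of `p₁`, `p₂`. -/
def lin3 (a0 a1 b0 b1 : ℕ) (P Q : N) : Bool :=
  ((Nat.ble 2147483649 a0 || ((Nat.ble 36507222017 (Nat.add (Nat.mul 16 a0) b0) &&
      Nat.ble 51539607553 (Nat.add (Nat.mul 24 a0) (Nat.add P.lo Q.lo))) &&
        (Nat.ble (Nat.succ Q.hi) P.lo && Nat.ble P.hi 1073741823))) &&
    (Nat.ble 2147483649 b0 && Nat.ble (Nat.add (Nat.mul 2 a1) (Nat.mul 2 b1)) 11963194017)) &&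
  ((Nat.ble (Nat.mul 4 a1) (Nat.add 7668226721 (Nat.mul 2 b0)) &&
    (t48 b1 a0 || ((Nat.ble (Nat.add (Nat.mul 12 b1) 13502541851) (Nat.mul 24 a0) &&
      Nat.ble P.hi 1073741823) && (Nat.ble 2147483649 a0 ||
        (Nat.ble (Nat.mul 5 P.hi) 4294967295 &&
          Nat.ble 73014444033 (Nat.add (Nat.mul 34 a0) (Nat.add P.lo Q.lo))))))) &&
    (t48 a1 b0 && Nat.ble (Nat.succ P.hi) (Nat.mul 6 Q.lo)))

/-- The linear conditions of an inner node with three half twists. -/
structure L3 (P a Q b : ℝ) : Prop where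
  n : 0 < a ∨ (-(16 * a) < b ∧ -(24 * a) < P + Q ∧ Q < P ∧ P < 1)
  b0 : 0 < b
  s1 : a + b < π / 2
  c1 : 2 * a - b < π / 2
  c2 : b < π / 4 + 2 * a ∨ (b < π / 4 + 1 / 6 + 2 * a ∧ P < 1 ∧
    (0 < a ∨ (P < 4 / 5 ∧ -(34 * a) < P + Q)))
  c3 : a < π / 4 + 2 * b
  c4 : P < 6 * Q

theorem pi_lo' : (3373259426 : ℝ) ≤ π * 1073741824 := by
  have := pi_lb
  unfold Lb at this
  exact_mod_cast this

theorem pi_hi' : π * 1073741824 ≤ (3373259428 : ℝ) := by
  have := pi_ub
  unfold Ub at this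
  exact_mod_cast this

theorem cble {a b : ℕ} (h : Nat.ble a b = true) : (a : ℝ) ≤ b := by
  rw [Nat.ble_eq] at h
  exact_mod_cast h

theorem cast_succ' (n : ℕ) : ((Nat.succ n : ℕ) : ℝ) = n + 1 := by push_cast; ring

theorem t48_sound {u v : ℕ} {x y : ℝ} (h : t48 u v = true) (hx : (x + 2) * 1073741824 ≤ u)
    (hy : (v : ℝ) ≤ (y + 2) * 1073741824) : x < π / 4 + 2 * y := by
  have k := cble h
  rw [cast_add', cast_mul', cast_mul'] at k
  have := pi_lo'
  push_cast at k
  linarith

theorem lin3_sound {a0 a1 b0 b1 : ℕ} {P Q : N} {p a q b : ℝ} (h : lin3 a0 a1 b0 b1 P Q = true)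
    (ha0 : (a0 : ℝ) ≤ (a + 2) * 1073741824) (ha1 : (a + 2) * 1073741824 ≤ a1)
    (hb0 : (b0 : ℝ) ≤ (b + 2) * 1073741824) (hb1 : (b + 2) * 1073741824 ≤ b1)
    (hP : Mem p P) (hQ : Mem q Q) : L3 p a q b := by
  have hpi := pi_lo'
  unfold lin3 at h
  simp only [Bool.and_eq_true, Bool.or_eq_true] at h
  obtain ⟨⟨k1, k2, k3⟩, ⟨k4, k5⟩, k6, k7⟩ := h
  have P0 := hP.1
  have P1 := hP.2
  have Q0 := hQ.1
  have Q1 := hQ.2
  have pos : ∀ {c : ℕ} {x : ℝ}, (Nat.ble 2147483649 c = true) → ((c : ℝ) ≤ (x + 2) * 1073741824) →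
      0 < x := by
    intro c x h h'
    have := cble h
    push_cast at this
    linarith
  have P1' : Nat.ble P.hi 1073741823 = true → p < 1 := by
    intro h
    have := cble h
    push_cast at this
    linarith
  refine ⟨?_, pos k2 hb0, ?_, ?_, ?_, t48_sound k6 ha1 hb0, ?_⟩
  · rcases k1 with k1 | ⟨⟨e1, e2⟩, e3, e4⟩
    · exact Or.inl (pos k1 ha0)
    · right
      have f1 := cble e1
      have f2 := cble e2
      have f3 := cble e3
      rw [cast_add', cast_mul'] at f1
      rw [cast_add', cast_mul', cast_add'] at f2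
      rw [cast_succ'] at f3
      push_cast at f1 f2
      refine ⟨by linarith, by linarith, by linarith, P1' e4⟩
  · have f := cble k3
    rw [cast_add', cast_mul', cast_mul'] at f
    push_cast at f
    linarith
  · have f := cble k4
    rw [cast_add', cast_mul', cast_mul'] at f
    push_cast at f
    linarith
  · rcases k5 with k5 | ⟨⟨e1, e2⟩, e3⟩
    · exact Or.inl (t48_sound k5 hb1 ha0)
    · right
      have f1 := cble e1
      rw [cast_add', cast_mul', cast_mul'] at f1
      push_cast at f1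
      refine ⟨by linarith, P1' e2, ?_⟩
      rcases e3 with e3 | ⟨e3, e4⟩
      · exact Or.inl (pos e3 ha0)
      · right
        have f2 := cble e3
        have f3 := cble e4
        rw [cast_mul'] at f2
        rw [cast_add', cast_mul', cast_add'] at f3
        push_cast at f2 f3
        exact ⟨by linarith, by linarith⟩
  · have f := cble k7
    rw [cast_succ', cast_mul'] at f
    push_cast at f
    linarith

/-- One half of the linear conditions of an inner node with four half twists. -/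
def lin4 (a0 a1 b0 b1 : ℕ) (P Q : N) : Bool :=
  (Nat.ble (Nat.add (Nat.mul 5 a1) b1) 16258161313 ||
    (Nat.ble (Nat.add (Nat.mul 25 a1) (Nat.mul 5 b1)) 82364548393 &&
      (Nat.ble 15032385536 (Nat.add a0 (Nat.mul 6 b0)) &&
        Nat.ble a1 (Nat.add 2147483648 (Nat.mul 2 P.lo))))) &&
  (Nat.ble 2147483648 a0 || (Nat.ble Q.hi (Nat.mul 3 P.lo) &&
    Nat.ble (Nat.mul 2 b1) (Nat.add 3373259426 (Nat.mul 2 a0))))

/-- One half of the linear conditions of an inner node with four half twists. -/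
structure L4 (P a Q b : ℝ) : Prop where
  e : 5 * a + b < π ∨ (5 * a + b < π + 1 / 5 ∧ -a ≤ 6 * b ∧ a ≤ 2 * P)
  n : a < 0 → Q ≤ 3 * P ∧ b - a ≤ π / 2

theorem lin4_sound {a0 a1 b0 b1 : ℕ} {P Q : N} {p a q b : ℝ} (h : lin4 a0 a1 b0 b1 P Q = true)
    (ha0 : (a0 : ℝ) ≤ (a + 2) * 1073741824) (ha1 : (a + 2) * 1073741824 ≤ a1)
    (hb0 : (b0 : ℝ) ≤ (b + 2) * 1073741824) (hb1 : (b + 2) * 1073741824 ≤ b1)
    (hP : Mem p P) (hQ : Mem q Q) : L4 p a q b := by
  have hpi := pi_lo'
  unfold lin4 at h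
  simp only [Bool.and_eq_true, Bool.or_eq_true] at h
  obtain ⟨k1, k2⟩ := h
  have P0 := hP.1
  have P1 := hP.2
  have Q0 := hQ.1
  have Q1 := hQ.2
  constructor
  · rcases k1 with k1 | ⟨e1, e2, e3⟩
    · left
      have f := cble k1
      rw [cast_add', cast_mul'] at f
      push_cast at f
      linarith
    · right
      have f1 := cble e1
      have f2 := cble e2
      have f3 := cble e3
      rw [cast_add', cast_mul', cast_mul'] at f1
      rw [cast_add', cast_mul'] at f2 f3
      push_cast at f1 f2 f3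
      exact ⟨by linarith, by linarith, by linarith⟩
  · intro hn
    rcases k2 with k2 | ⟨e1, e2⟩
    · exfalso
      have f := cble k2
      push_cast at f
      linarith
    · have f1 := cble e1
      have f2 := cble e2
      rw [cast_mul'] at f1
      rw [cast_mul', cast_add', cast_mul'] at f2
      push_cast at f1 f2
      exact ⟨by linarith, by linarith⟩

end Pool.Agent.S5.Fld
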