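import Pool.Agent.S5.Fld.BO0

/-!
# Nodes with three and four half twists: the tests of the own variable

`A = sinh (X + i y)` with `(j + 2) X = (j + 1) p₁ - p₂`, `(j + 2) y = π + (j + 1) r₁ - r₂`; `j + 2` is
the number of the half twists.
-/

set_option autoImplicit false

namespace Pool.Agent.S5.Fld

open Real Pool.Agent.S3.NI Pool.Agent.S5.E.B2 Pool.Agent.S5.E Pool.Agent.S5.E.VX

/-- upper bound of `X`. -/
def xP (j : ℕ) (A C : N) : ℕ :=
  Nat.succ (Nat.div (Nat.sub (Nat.mul (Nat.succ j) A.hi) C.lo) (Nat.succ (Nat.succ j)))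

/-- upper bound of `-X`. -/
def xN (j : ℕ) (A C : N) : ℕ :=
  Nat.succ (Nat.div (Nat.sub C.hi (Nat.mul (Nat.succ j) A.lo)) (Nat.succ (Nat.succ j)))

/-- lower bound of `|X|`. -/
def xL (j : ℕ) (A C : N) : ℕ :=
  Nat.add (Nat.div (Nat.sub (Nat.mul (Nat.succ j) A.lo) C.hi) (Nat.succ (Nat.succ j)))
    (Nat.div (Nat.sub C.lo (Nat.mul (Nat.succ j) A.hi)) (Nat.succ (Nat.succ j)))

/-- The maximum. -/
def mx (a b : ℕ) : ℕ := bif Nat.ble a b then b else a

/-- lower bound of `y`. -/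
def yL (j a0 b1 : ℕ) : ℕ :=
  Nat.div (Nat.sub (Nat.add (Nat.mul (Nat.succ j) a0) 3373259426)
    (Nat.add b1 (Nat.mul j 2147483648))) (Nat.succ (Nat.succ j))

/-- upper bound of `y`. -/
def yU (j a1 b0 : ℕ) : ℕ :=
  Nat.succ (Nat.div (Nat.sub (Nat.add (Nat.mul (Nat.succ j) a1) 3373259428)
    (Nat.add b0 (Nat.mul j 2147483648))) (Nat.succ (Nat.succ j)))

def sqL (x y : ℕ) : ℕ := Nat.add (mlo x x) (mlo y y)

def sqU (x y : ℕ) : ℕ := Nat.add (mhi x x) (mhi y y)

/-- lower bound of `sinh² X + sin² y`. -/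
def qL (xl yl : ℕ) : ℕ := sqL (shLo xl) (snLo yl)

/-- upper bound of `sinh² X + sin² y`. -/
def qU (xu yu : ℕ) : ℕ := sqU (shHi xu) (snHi yu)

/-- `- sinh X cos y ≤ 0.72 cosh X sin y`. -/
def zR (xn yl : ℕ) : Bool :=
  Nat.ble (Nat.mul 100 (Nat.mul (shHi xn) (csHi yl))) (Nat.mul 72 (Nat.mul (snLo yl) (chLo xn)))

/-- The admissible range. -/
def zG (xu yl yu : ℕ) : Bool :=
  (Nat.ble 1 yl && Nat.ble yu 1686629713) && Nat.ble xu 2147483648

/-- Two bounded squares are comparable. -/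
def zC (a0 a1 b0 b1 : ℕ) : Bool :=
  Nat.ble (Nat.mul 50 a1) (Nat.mul 329 b0) && Nat.ble (Nat.mul 50 b1) (Nat.mul 329 a0)

/-- `sinh² X + sin² y`. -/
noncomputable def QA (X y : ℝ) : ℝ := sinh X ^ 2 + sin y ^ 2

section

variable {j : ℕ} {A C : N} {p q a b X y : ℝ} {a0 a1 b0 b1 : ℕ}

theorem xP_mem (hX : (j + 2 : ℝ) * X = (j + 1) * p - q) (hA : Mem p A) (hC : Mem q C) :
    Ub X (xP j A C) := by
  unfold Ub xP
  refine le_trans ?_ (le_succ_div _ (Nat.succ_pos _))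
  rw [le_div_iff₀ (by positivity)]
  apply le_nsub
  rw [cast_mul']
  have h1 := hA.2
  have h2 := hC.1
  have hj : (0 : ℝ) ≤ j := j.cast_nonneg
  push_cast
  have h3 : (j + 1 : ℝ) * (p * 1073741824) ≤ (j + 1) * A.hi :=
    mul_le_mul_of_nonneg_left h1 (by positivity)
  nlinarith

theorem xN_mem (hX : (j + 2 : ℝ) * X = (j + 1) * p - q) (hA : Mem p A) (hC : Mem q C) :
    Ub (-X) (xN j A C) := by
  unfold Ub xN
  refine le_trans ?_ (le_succ_div _ (Nat.succ_pos _))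
  rw [le_div_iff₀ (by positivity)]
  apply le_nsub
  rw [cast_mul']
  have h1 := hA.1
  have h2 := hC.2
  have hj : (0 : ℝ) ≤ j := j.cast_nonneg
  push_cast
  have h3 : (j + 1 : ℝ) * A.lo ≤ (j + 1) * (p * 1073741824) :=
    mul_le_mul_of_nonneg_left h1 (by positivity)
  nlinarith

theorem xL_mem (hX : (j + 2 : ℝ) * X = (j + 1) * p - q) (hA : Mem p A) (hC : Mem q C) :
    Lb (xL j A C) |X| := by
  have h1 := hA.1
  have h2 := hC.2
  have h1' := hA.2
  have h2' := hC.1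
  have hj : (0 : ℝ) ≤ j := j.cast_nonneg
  have h3 : (j + 1 : ℝ) * A.lo ≤ (j + 1) * (p * 1073741824) :=
    mul_le_mul_of_nonneg_left h1 (by positivity)
  have h3' : (j + 1 : ℝ) * (p * 1073741824) ≤ (j + 1) * A.hi :=
    mul_le_mul_of_nonneg_left h1' (by positivity)
  have e1 := nat_div_le (Nat.sub (Nat.mul (Nat.succ j) A.lo) C.hi) (Nat.succ (Nat.succ j))
  have e2 := nat_div_le (Nat.sub C.lo (Nat.mul (Nat.succ j) A.hi)) (Nat.succ (Nat.succ j))
  have hd : (0 : ℝ) < ((Nat.succ (Nat.succ j) : ℕ) : ℝ) := by positivity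
  unfold Lb xL
  rw [cast_add']
  rw [le_div_iff₀ hd] at e1 e2
  rcases le_total 0 X with hx | hx
  · rw [abs_of_nonneg hx]
    have k1 : ((Nat.sub (Nat.mul (Nat.succ j) A.lo) C.hi : ℕ) : ℝ) ≤ (j + 2) * X * 1073741824 := by
      apply nsub_le
      · rw [cast_mul', hX]
        push_cast
        linarith
      · positivity
    have k2 : ((Nat.sub C.lo (Nat.mul (Nat.succ j) A.hi) : ℕ) : ℝ) ≤ 0 := by
      apply nsub_le
      · rw [cast_mul']
        push_cast
        have : 0 ≤ (j + 2 : ℝ) * X := by positivity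
        rw [hX] at this
        nlinarith
      · exact le_rfl
    have e3 := e1.trans k1
    have e4 := e2.trans k2
    push_cast at e3 e4 ⊢
    have e5 : (j + 1 + 1 : ℝ) * ((Nat.div (Nat.sub (Nat.mul (Nat.succ j) A.lo) C.hi)
        (Nat.succ (Nat.succ j)) : ℕ) + ((Nat.div (Nat.sub C.lo (Nat.mul (Nat.succ j) A.hi))
        (Nat.succ (Nat.succ j)) : ℕ) : ℝ)) ≤ (j + 1 + 1) * (X * 1073741824) := by
      nlinarith
    exact le_of_mul_le_mul_left e5 (by positivity)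
  · rw [abs_of_nonpos hx]
    have k1 : ((Nat.sub (Nat.mul (Nat.succ j) A.lo) C.hi : ℕ) : ℝ) ≤ 0 := by
      apply nsub_le
      · rw [cast_mul']
        push_cast
        have : (j + 2 : ℝ) * X ≤ 0 := mul_nonpos_of_nonneg_of_nonpos (by positivity) hx
        rw [hX] at this
        nlinarith
      · exact le_rfl
    have k2 : ((Nat.sub C.lo (Nat.mul (Nat.succ j) A.hi) : ℕ) : ℝ) ≤
        (j + 2) * (-X) * 1073741824 := by
      apply nsub_le
      · rw [cast_mul', mul_neg, hX]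
        push_cast
        linarith
      · have : 0 ≤ -X := by linarith
        positivity
    have e3 := e1.trans k1
    have e4 := e2.trans k2
    push_cast at e3 e4 ⊢
    have e5 : (j + 1 + 1 : ℝ) * ((Nat.div (Nat.sub (Nat.mul (Nat.succ j) A.lo) C.hi)
        (Nat.succ (Nat.succ j)) : ℕ) + ((Nat.div (Nat.sub C.lo (Nat.mul (Nat.succ j) A.hi))
        (Nat.succ (Nat.succ j)) : ℕ) : ℝ)) ≤ (j + 1 + 1) * (-X * 1073741824) := by
      nlinarith
    exact le_of_mul_le_mul_left e5 (by positivity)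

theorem yU_mem (hy : (j + 2 : ℝ) * y = π + (j + 1) * a - b)
    (ha1 : (a + 2) * 1073741824 ≤ a1) (hb0 : (b0 : ℝ) ≤ (b + 2) * 1073741824) :
    Ub y (yU j a1 b0) := by
  unfold Ub yU
  refine le_trans ?_ (le_succ_div _ (Nat.succ_pos _))
  rw [le_div_iff₀ (by positivity)]
  apply le_nsub
  rw [cast_add', cast_add', cast_mul', cast_mul']
  have hj : (0 : ℝ) ≤ j := j.cast_nonneg
  have hpi := pi_hi'
  push_cast
  have h3 : (j + 1 : ℝ) * ((a + 2) * 1073741824) ≤ (j + 1) * a1 :=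
    mul_le_mul_of_nonneg_left ha1 (by positivity)
  have h4 : y * 1073741824 * (j + 1 + 1 : ℝ) = (π + (j + 1) * a - b) * 1073741824 := by
    rw [← hy]
    ring
  rw [h4]
  nlinarith

theorem yL_mem (hy : (j + 2 : ℝ) * y = π + (j + 1) * a - b) (h1 : Nat.ble 1 (yL j a0 b1) = true)
    (ha0 : (a0 : ℝ) ≤ (a + 2) * 1073741824) (hb1 : (b + 2) * 1073741824 ≤ b1) :
    Lb (yL j a0 b1) y := by
  rw [Nat.ble_eq] at h1
  have hj : (0 : ℝ) ≤ j := j.cast_nonneg
  have hpi := pi_lo'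
  have h3 : (j + 1 : ℝ) * a0 ≤ (j + 1) * ((a + 2) * 1073741824) :=
    mul_le_mul_of_nonneg_left ha0 (by positivity)
  have h4 : y * 1073741824 * (j + 1 + 1 : ℝ) = (π + (j + 1) * a - b) * 1073741824 := by
    rw [← hy]
    ring
  unfold Lb
  unfold yL at *
  have e1 := nat_div_le (Nat.sub (Nat.add (Nat.mul (Nat.succ j) a0) 3373259426)
    (Nat.add b1 (Nat.mul j 2147483648))) (Nat.succ (Nat.succ j))
  have hd : (0 : ℝ) < ((Nat.succ (Nat.succ j) : ℕ) : ℝ) := by positivity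
  refine e1.trans ?_
  rw [div_le_iff₀ hd]
  -- the subtraction is not truncated
  have h5 : 0 < Nat.sub (Nat.add (Nat.mul (Nat.succ j) a0) 3373259426)
      (Nat.add b1 (Nat.mul j 2147483648)) := by
    by_contra hc
    push Not at hc
    have h6 : Nat.sub (Nat.add (Nat.mul (Nat.succ j) a0) 3373259426)
      (Nat.add b1 (Nat.mul j 2147483648)) = 0 := by omega
    rw [h6] at h1
    have : Nat.div 0 (Nat.succ (Nat.succ j)) = 0 := Nat.zero_div _
    omega
  have h6 : Nat.add b1 (Nat.mul j 2147483648) ≤ Nat.add (Nat.mul (Nat.succ j) a0) 3373259426 := by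
    have : 0 < (Nat.add (Nat.mul (Nat.succ j) a0) 3373259426) - (Nat.add b1 (Nat.mul j 2147483648)) :=
      h5
    omega
  rw [cast_sub' h6, cast_add', cast_add', cast_mul', cast_mul']
  push_cast
  rw [h4]
  nlinarith

theorem sinh_sq_abs (X : ℝ) : sinh X ^ 2 = sinh |X| ^ 2 := by
  rcases abs_choice X with h | h
  · rw [h]
  · rw [h, sinh_neg, neg_sq]

theorem mx_left (a b : ℕ) : a ≤ mx a b := by
  unfold mx
  rcases h : Nat.ble a b with _ | _
  · exact le_rfl
  · rw [Nat.ble_eq] at h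
    exact h

theorem mx_right (a b : ℕ) : b ≤ mx a b := by
  unfold mx
  rcases h : Nat.ble a b with _ | _
  · simp only [cond_false]
    rw [← Bool.not_eq_true, Nat.ble_eq] at h
    omega
  · exact le_rfl

theorem ub_le {x : ℝ} {m n : ℕ} (h : Ub x m) (hmn : m ≤ n) : Ub x n := by
  unfold Ub at *
  have : (m : ℝ) ≤ n := by exact_mod_cast hmn
  linarith

theorem qU_mem {xu yu : ℕ} (h1 : Ub X xu) (h2 : Ub (-X) xu) (h3 : xu ≤ 2147483648) (h4 : 0 ≤ y)
    (h5 : Ub y yu) (h6 : y ≤ π) : Ub (QA X y) (qU xu yu) := by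
  have h7 : Ub |X| xu := by
    rcases abs_choice X with h | h
    · rw [h]; exact h1
    · rw [h]; exact h2
  have e1 : Ub (sinh |X|) (shHi xu) := shHi_mem (abs_nonneg X) h7 h3
  have e2 : Ub (sin y) (snHi yu) := snHi_mem h4 h5
  unfold QA
  rw [sinh_sq_abs, pow_two, pow_two]
  exact (e1.mul e1 (sinh_nonneg_iff.2 (abs_nonneg X))).add (e2.mul e2 (sin_nonneg_of_nonneg_of_le_pi h4 h6))

theorem qL_mem {xl yl : ℕ} (h1 : Lb xl |X|) (h2 : Lb yl y) (h3 : y ≤ π / 2) :
    Lb (qL xl yl) (QA X y) := by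
  have e1 : Lb (shLo xl) (sinh |X|) := shLo_mem h1
  have e2 : Lb (snLo yl) (sin y) := snLo_mem h3 h2
  unfold QA
  rw [sinh_sq_abs, pow_two, pow_two]
  exact (e1.mul e1).add (e2.mul e2)

theorem zC_sound {x z : ℝ} (h : zC a0 a1 b0 b1 = true) (h1 : Lb a0 x) (h2 : Ub x a1) (h3 : Lb b0 z)
    (h4 : Ub z b1) : 50 * x ≤ 329 * z ∧ 50 * z ≤ 329 * x := by
  unfold zC at h
  rw [Bool.and_eq_true] at h
  have k1 := cble h.1
  have k2 := cble h.2
  rw [cast_mul', cast_mul'] at k1 k2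
  unfold Lb Ub at *
  push_cast at k1 k2
  constructor <;> linarith

theorem zR_sound {xn yl : ℕ} (h : zR xn yl = true) (h0 : 0 ≤ y) (h1 : y ≤ π / 2) (h2 : Lb yl y)
    (h3 : Ub (-X) xn) (h4 : xn ≤ 2147483648) :
    100 * (-sinh X * cos y) ≤ 72 * (cosh X * sin y) := by
  have hc : 0 ≤ cos y := cos_nonneg_of_neg_pi_div_two_le_of_le (by linarith [pi_pos]) h1
  have hs : 0 ≤ sin y := sin_nonneg_of_nonneg_of_le_pi h0 (by linarith [pi_pos])
  have k := cble h
  rw [cast_mul', cast_mul', cast_mul', cast_mul'] at k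
  -- `x = xn / 2 ^ 30`
  set x : ℝ := (xn : ℝ) / 1073741824 with hx
  have hx0 : 0 ≤ x := by positivity
  have hxX : -X ≤ x := by
    rw [hx, le_div_iff₀ (by norm_num)]
    exact h3
  have hxn : (xn : ℝ) = x * 1073741824 := by rw [hx, div_mul_cancel₀ _ (by norm_num)]
  have e1 : Ub (sinh x) (shHi xn) := shHi_mem hx0 hxn.ge h4
  have e2 : Lb (chLo xn) (cosh x) := chLo_mem hxn.le
  have e3 : Ub (cos y) (csHi yl) := csHi_mem h1 h2
  have e4 : Lb (snLo yl) (sin y) := snLo_mem h1 h2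
  have hsx : 0 ≤ sinh x := sinh_nonneg_iff.2 hx0
  have hcx := cosh_pos x
  have hcX := cosh_pos X
  -- the product
  have k1 : 100 * (sinh x * cos y) ≤ 72 * (sin y * cosh x) := by
    unfold Ub at e1 e3
    unfold Lb at e2 e4
    have m1 : (sinh x * 1073741824) * (cos y * 1073741824) ≤ (shHi xn : ℝ) * csHi yl :=
      mul_le_mul e1 e3 (by positivity) (by positivity)
    have m2 : (snLo yl : ℝ) * chLo xn ≤ (sin y * 1073741824) * (cosh x * 1073741824) :=
      mul_le_mul e4 e2 (by positivity) (by positivity)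
    push_cast at k
    nlinarith
  have k2 : 0 ≤ sinh x * cosh X + cosh x * sinh X := by
    rw [← sinh_add]
    exact sinh_nonneg_iff.2 (by linarith)
  have k3 : -sinh X * cosh x ≤ sinh x * cosh X := by linarith
  have k4 : 100 * (-sinh X * cos y) * cosh x ≤ 72 * (cosh X * sin y) * cosh x := by
    have := mul_le_mul_of_nonneg_right k3 hc
    have := mul_le_mul_of_nonneg_right k1 hcX.le
    nlinarith
  exact le_of_mul_le_mul_right k4 hcx

end

end Pool.Agent.S5.Fld
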