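import Pool.Agent.S5.Fld.BO1

/-!
# Nodes with three and four half twists: the acceptance tests
-/

set_option autoImplicit false

namespace Pool.Agent.S5.Fld

open Real Pool.Agent.S3.NI Pool.Agent.S5.E.B2 Pool.Agent.S5.E Pool.Agent.S5.E.VX

/-! ### The own variable -/

/-- `A = sinh (X + i y)` is in the upper half plane, has a size comparable with `√Q` and its argument
is less than `0.7 π`. -/
structure ZA (X y Q : ℝ) : Prop where
  y0 : 0 < y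
  y1 : y ≤ π / 2
  c : 50 * QA X y ≤ 329 * Q ∧ 50 * Q ≤ 329 * QA X y
  r : 100 * (-sinh X * cos y) ≤ 72 * (cosh X * sin y)

def z3a (xu xl xn yl yu : ℕ) (C D : N) : Bool :=
  (zG xu yl yu && Nat.ble C.hi 2147483648) &&
    (zC (qL xl yl) (qU xu yu) (qL C.lo D.lo) (qU C.hi D.hi) && zR xn yl)

def z3b (a0 a1 b0 b1 : ℕ) (A C D : N) : Bool :=
  z3a (mx (xP 1 A C) (xN 1 A C)) (xL 1 A C) (xN 1 A C) (yL 1 a0 b1) (yU 1 a1 b0) C D

theorem QA_sq (m : Md) (R q : ℝ) : QA R (VX.sq m q) = QA R q := by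
  unfold QA
  cases m with
  | n => simp only [VX.sq]; rw [sin_neg, neg_sq]
  | o => rfl
  | a => rfl
  | s => rfl

section

variable {a0 a1 b0 b1 : ℕ} {A B C D : N} {P a R b q : ℝ} {m : Md}

theorem z3b_sound (h : z3b a0 a1 b0 b1 A C D = true)
    (ha0 : (a0 : ℝ) ≤ (a + 2) * 1073741824) (ha1 : (a + 2) * 1073741824 ≤ a1)
    (hb0 : (b0 : ℝ) ≤ (b + 2) * 1073741824) (hb1 : (b + 2) * 1073741824 ≤ b1)
    (hP : Mem P A) (hR : Mem R C) (hq : Mem q D) (e : b = VX.sq m q) (R0 : 0 ≤ R) (q0 : 0 ≤ q)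
    (q1 : q ≤ π / 2) : ZA ((2 * P - R) / 3) ((π + 2 * a - b) / 3) (QA R b) := by
  unfold z3b z3a zG at h
  simp only [Bool.and_eq_true] at h
  obtain ⟨⟨⟨⟨g1, g2⟩, g3⟩, g4⟩, g5, g6⟩ := h
  have hX : ((1 : ℕ) + 2 : ℝ) * ((2 * P - R) / 3) = ((1 : ℕ) + 1) * P - R := by push_cast; ring
  have hy : ((1 : ℕ) + 2 : ℝ) * ((π + 2 * a - b) / 3) = π + ((1 : ℕ) + 1) * a - b := by
    push_cast; ring
  have l1 := yL_mem hy g1 ha0 hb1
  have l2 := yU_mem hy ha1 hb0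
  have y0 : 0 < (π + 2 * a - b) / 3 := by
    have h1 := cble g1
    unfold Lb at l1
    push_cast at h1
    linarith
  have y1 : (π + 2 * a - b) / 3 ≤ π / 2 := by
    have h1 := cble g2
    have := pi_lo'
    unfold Ub at l2
    push_cast at h1
    linarith
  have u1 := xP_mem hX hP hR
  have u2 := xN_mem hX hP hR
  have u3 := xL_mem hX hP hR
  rw [Nat.ble_eq] at g3 g4
  have k1 := qU_mem (ub_le u1 (mx_left _ _)) (ub_le u2 (mx_right _ _)) g3 y0.le l2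
    (by linarith [pi_pos])
  have k2 := qL_mem u3 l1 y1
  have k3 : Ub (QA R b) (qU C.hi D.hi) := by
    rw [e, QA_sq]
    refine qU_mem hR.2 ?_ g4 q0 hq.2 (by linarith [pi_pos])
    have h1 := hR.2
    unfold Ub
    have h2 : (0 : ℝ) ≤ C.hi := by positivity
    linarith [show (0 : ℝ) ≤ R * 1073741824 by positivity]
  have k4 : Lb (qL C.lo D.lo) (QA R b) := by
    rw [e, QA_sq]
    refine qL_mem ?_ hq.1 q1
    rw [abs_of_nonneg R0]
    exact hR.1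
  have k5 := zC_sound g5 k2 k1 k4 k3
  refine ⟨y0, y1, k5, zR_sound g6 y0.le y1 l1 u2 ((mx_right _ _).trans g3)⟩

def z4a (xu xl xn yl yu xu' xl' xn' yl' yu' : ℕ) : Bool :=
  (zG xu yl yu && zG xu' yl' yu') &&
    (zC (qL xl yl) (qU xu yu) (qL xl' yl') (qU xu' yu') && (zR xn yl && zR xn' yl'))

def z4b (a0 a1 b0 b1 : ℕ) (A C : N) : Bool :=
  z4a (mx (xP 2 A C) (xN 2 A C)) (xL 2 A C) (xN 2 A C) (yL 2 a0 b1) (yU 2 a1 b0)
    (mx (xP 2 C A) (xN 2 C A)) (xL 2 C A) (xN 2 C A) (yL 2 b0 a1) (yU 2 b1 a0)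

theorem z4b_sound (h : z4b a0 a1 b0 b1 A C = true)
    (ha0 : (a0 : ℝ) ≤ (a + 2) * 1073741824) (ha1 : (a + 2) * 1073741824 ≤ a1)
    (hb0 : (b0 : ℝ) ≤ (b + 2) * 1073741824) (hb1 : (b + 2) * 1073741824 ≤ b1)
    (hP : Mem P A) (hR : Mem R C) :
    ZA ((3 * P - R) / 4) ((π + 3 * a - b) / 4) (QA ((3 * R - P) / 4) ((π + 3 * b - a) / 4)) ∧
    ZA ((3 * R - P) / 4) ((π + 3 * b - a) / 4) (QA ((3 * P - R) / 4) ((π + 3 * a - b) / 4)) := by
  unfold z4b z4a zG at h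
  simp only [Bool.and_eq_true] at h
  obtain ⟨⟨⟨⟨g1, g2⟩, g3⟩, ⟨g1', g2'⟩, g3'⟩, g5, g6, g6'⟩ := h
  have hX : ((2 : ℕ) + 2 : ℝ) * ((3 * P - R) / 4) = ((2 : ℕ) + 1) * P - R := by push_cast; ring
  have hy : ((2 : ℕ) + 2 : ℝ) * ((π + 3 * a - b) / 4) = π + ((2 : ℕ) + 1) * a - b := by
    push_cast; ring
  have hX' : ((2 : ℕ) + 2 : ℝ) * ((3 * R - P) / 4) = ((2 : ℕ) + 1) * R - P := by push_cast; ring
  have hy' : ((2 : ℕ) + 2 : ℝ) * ((π + 3 * b - a) / 4) = π + ((2 : ℕ) + 1) * b - a := by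
    push_cast; ring
  have l1 := yL_mem hy g1 ha0 hb1
  have l2 := yU_mem hy ha1 hb0
  have l1' := yL_mem hy' g1' hb0 ha1
  have l2' := yU_mem hy' hb1 ha0
  have pos : ∀ {n : ℕ} {y : ℝ}, Nat.ble 1 n = true → Lb n y → 0 < y := by
    intro n y h1 l1
    have h1 := cble h1
    unfold Lb at l1
    push_cast at h1
    linarith
  have top : ∀ {n : ℕ} {y : ℝ}, Nat.ble n 1686629713 = true → Ub y n → y ≤ π / 2 := by
    intro n y h1 l2
    have h1 := cble h1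
    have := pi_lo'
    unfold Ub at l2
    push_cast at h1
    linarith
  have y0 := pos g1 l1
  have y0' := pos g1' l1'
  have y1 := top g2 l2
  have y1' := top g2' l2'
  rw [Nat.ble_eq] at g3 g3'
  have u1 := xP_mem hX hP hR
  have u2 := xN_mem hX hP hR
  have u3 := xL_mem hX hP hR
  have u1' := xP_mem hX' hR hP
  have u2' := xN_mem hX' hR hP
  have u3' := xL_mem hX' hR hP
  have k1 := qU_mem (ub_le u1 (mx_left _ _)) (ub_le u2 (mx_right _ _)) g3 y0.le l2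
    (by linarith [pi_pos])
  have k2 := qL_mem u3 l1 y1
  have k1' := qU_mem (ub_le u1' (mx_left _ _)) (ub_le u2' (mx_right _ _)) g3' y0'.le l2'
    (by linarith [pi_pos])
  have k2' := qL_mem u3' l1' y1'
  have k5 := zC_sound g5 k2 k1 k2' k1'
  exact ⟨⟨y0, y1, k5, zR_sound g6 y0.le y1 l1 u2 ((mx_right _ _).trans g3)⟩,
    ⟨y0', y1', k5.symm, zR_sound g6' y0'.le y1' l1' u2' ((mx_right _ _).trans g3')⟩⟩

end

/-! ### The tests -/

def acc3' (a0 a1 b0 b1 : ℕ) (A C D : N) : Bool :=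
  lin3 a0 a1 b0 b1 A C && z3b a0 a1 b0 b1 A C D

/-- An inner node with three half twists; the first slot is the one of the Bailey step. -/
def acc3 (m1 m2 : Md) (A B C D _ _ : N) : Bool :=
  acc3' (sLo m1 B) (sHi m1 B) (sLo m2 D) (sHi m2 D) A C D

/-- An end with three half twists. -/
def acc3e (m1 _ : Md) (A B _ _ _ _ : N) : Bool :=
  Nat.ble 2147483649 (sLo m1 B) &&
    z3b 2147483648 2147483648 (sLo m1 B) (sHi m1 B) ⟨0, 0⟩ A B

def acc4' (a0 a1 b0 b1 : ℕ) (A C : N) : Bool :=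
  (Nat.ble 4294967296 (Nat.add a0 b0) && (lin4 a0 a1 b0 b1 A C && lin4 b0 b1 a0 a1 C A)) &&
    z4b a0 a1 b0 b1 A C

/-- An inner node with four half twists. -/
def acc4 (m1 m2 : Md) (A B C D _ _ : N) : Bool :=
  acc4' (sLo m1 B) (sHi m1 B) (sLo m2 D) (sHi m2 D) A C

/-- The properties of an inner node with three half twists. -/
structure G3 (P a R b : ℝ) : Prop where
  l : L3 P a R b
  z : ZA ((2 * P - R) / 3) ((π + 2 * a - b) / 3) (QA R b)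

/-- The properties of an end with three half twists. -/
structure G3e (R b : ℝ) : Prop where
  b0 : 0 < b
  z : ZA (-R / 3) ((π - b) / 3) (QA R b)

/-- The properties of an inner node with four half twists. -/
structure G4 (P a R b : ℝ) : Prop where
  s0 : 0 ≤ a + b
  l : L4 P a R b
  l' : L4 R b P a
  z : ZA ((3 * P - R) / 4) ((π + 3 * a - b) / 4) (QA ((3 * R - P) / 4) ((π + 3 * b - a) / 4))
  z' : ZA ((3 * R - P) / 4) ((π + 3 * b - a) / 4) (QA ((3 * P - R) / 4) ((π + 3 * a - b) / 4))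

theorem G4.swap {P a R b : ℝ} (h : G4 P a R b) : G4 R b P a :=
  ⟨by linarith [h.s0], h.l', h.l, h.z', h.z⟩

section

variable {w n : ℕ} {x : Inst} {a R I ρ₁ φ₁ p₁ r₁ ρ₂ φ₂ p₂ r₂ : ℝ}

theorem run3 (h : chkW w n acc3 x = true)
    (hv : Vx a R I ρ₁ (sg x.s₁ * φ₁) p₁ r₁ ρ₂ (sgO x.s₂ * φ₂) p₂ r₂) (ha : HasA x.a a)
    (h1 : InP (some x.s₁) x.r₁ ρ₁ φ₁) (h2 : InP x.s₂ x.r₂ ρ₂ φ₂)
    (ho : InR x.own (cos R * cosh I) (sin R * sinh I)) : G3 p₁ r₁ p₂ r₂ := by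
  refine chkW_sound h hv ha h1 h2 ho ?_
  intro ab m1 _ m2 _ q₁ q₂ e1 e2 hV A B C D Rr Ir hk hA hB hC hD _ _ _ _
  unfold acc3 acc3' at hk
  rw [Bool.and_eq_true] at hk
  have f1 := sLo_mem (m := m1) hB hV.s1.q1
  have f2 := sHi_mem (m := m1) hB
  have f3 := sLo_mem (m := m2) hD hV.s2.q1
  have f4 := sHi_mem (m := m2) hD
  rw [← e1] at f1 f2
  rw [← e2] at f3 f4
  exact ⟨lin3_sound hk.1 f1 f2 f3 f4 hA hC,
    z3b_sound hk.2 f1 f2 f3 f4 hA hC hD e2 hV.s2.p0 hV.s2.q0 hV.s2.q1⟩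

theorem run3e (h : chkW w n acc3e x = true)
    (hv : Vx a R I ρ₁ (sg x.s₁ * φ₁) p₁ r₁ ρ₂ (sgO x.s₂ * φ₂) p₂ r₂) (ha : HasA x.a a)
    (h1 : InP (some x.s₁) x.r₁ ρ₁ φ₁) (h2 : InP x.s₂ x.r₂ ρ₂ φ₂)
    (ho : InR x.own (cos R * cosh I) (sin R * sinh I)) : G3e p₁ r₁ := by
  refine chkW_sound h hv ha h1 h2 ho ?_
  intro ab m1 _ m2 _ q₁ q₂ e1 e2 hV A B C D Rr Ir hk hA hB hC hD _ _ _ _
  unfold acc3e at hk
  rw [Bool.and_eq_true] at hk
  have f1 := sLo_mem (m := m1) hB hV.s1.q1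
  have f2 := sHi_mem (m := m1) hB
  rw [← e1] at f1 f2
  have hk1 := cble hk.1
  have m0 : Mem (0 : ℝ) (⟨0, 0⟩ : N) := by constructor <;> simp
  have hz := z3b_sound (P := 0) (a := 0) hk.2 (by norm_num) (by norm_num) f1 f2 m0 hA hB e1
    hV.s1.p0 hV.s1.q0 hV.s1.q1
  refine ⟨?_, ?_⟩
  · push_cast at hk1
    linarith
  · have e3 : (2 * 0 - p₁) / 3 = -p₁ / 3 := by ring
    have e4 : (π + 2 * 0 - r₁) / 3 = (π - r₁) / 3 := by ring
    rw [e3, e4] at hz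
    exact hz

theorem run4 (h : chkW w n acc4 x = true)
    (hv : Vx a R I ρ₁ (sg x.s₁ * φ₁) p₁ r₁ ρ₂ (sgO x.s₂ * φ₂) p₂ r₂) (ha : HasA x.a a)
    (h1 : InP (some x.s₁) x.r₁ ρ₁ φ₁) (h2 : InP x.s₂ x.r₂ ρ₂ φ₂)
    (ho : InR x.own (cos R * cosh I) (sin R * sinh I)) : G4 p₁ r₁ p₂ r₂ := by
  refine chkW_sound h hv ha h1 h2 ho ?_
  intro ab m1 _ m2 _ q₁ q₂ e1 e2 hV A B C D Rr Ir hk hA hB hC hD _ _ _ _
  unfold acc4 acc4' at hk
  rw [Bool.and_eq_true, Bool.and_eq_true, Bool.and_eq_true] at hk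
  obtain ⟨⟨k1, k2, k3⟩, k4⟩ := hk
  have f1 := sLo_mem (m := m1) hB hV.s1.q1
  have f2 := sHi_mem (m := m1) hB
  have f3 := sLo_mem (m := m2) hD hV.s2.q1
  have f4 := sHi_mem (m := m2) hD
  rw [← e1] at f1 f2
  rw [← e2] at f3 f4
  have hz := z4b_sound k4 f1 f2 f3 f4 hA hC
  have g := cble k1
  rw [cast_add'] at g
  push_cast at g
  exact ⟨by linarith, lin4_sound k2 f1 f2 f3 f4 hA hC, lin4_sound k3 f3 f4 f1 f2 hC hA, hz.1, hz.2⟩

end

end Pool.Agent.S5.Fld
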