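import Pool.Agent.S5.Fld.BO2
import Pool.Agent.S5.Ctx

/-!
# Nodes with three and four half twists: the cover by the instances
-/

set_option autoImplicit false

namespace Pool.Agent.S5.Fld

open Real Pool.Agent.S3.NI Pool.Agent.S5.E.B2 Pool.Agent.S5.E Pool.Agent.S5.E.VX

/-! ### Instances at a vertex -/

/-- The data of a vertex with the slots `q`, `q'` for an instance. -/
def Dt (x : Inst) (q q' : ℂ) : Prop :=
  ∃ a R I ρ₁ φ₁ ρ₂ φ₂ : ℝ,
    Vx a R I ρ₁ (E.sg x.s₁ * φ₁) q.re q.im ρ₂ (sgO x.s₂ * φ₂) q'.re q'.im ∧ HasA x.a a ∧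
    InP (some x.s₁) x.r₁ ρ₁ φ₁ ∧ InP x.s₂ x.r₂ ρ₂ φ₂ ∧
    InR x.own (cos R * cosh I) (sin R * sinh I)

section

variable {T : Vt → Vt → E.B2.Rg} {R : ℕ} {a : ℕ → ℕ} {S : ℕ → Bool} {z ql qr : ℕ → ℂ}
  {zF : Fin (R + 1) → ℂ}

theorem fitR (h : Pre T R a S z ql qr zF) {i : ℕ} (hi : i < R) {x : Inst}
    (ha : HasA x.a (a i)) (h1 : x.s₁ = S i)
    (h2 : x.s₂ = E.kd (nlF R S (⟨i, by omega⟩ : Fin (R + 1))))
    (own : InR x.own (Complex.cos (z i)).re (-(Complex.cos (z i)).im))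
    (r1 : InR x.r₁ (Complex.cos (z (i + 1))).re (-(Complex.cos (z (i + 1))).im))
    (r2 : InN x.r₂ zF (nlF R S (⟨i, by omega⟩ : Fin (R + 1)))) : Dt x (qr i) (ql i) := by
  have ez : z i = zF ⟨i, by omega⟩ := h.sol.ez ⟨i, by omega⟩
  have ez' : z (i + 1) = zF ⟨i + 1, by omega⟩ := h.sol.ez ⟨i + 1, by omega⟩
  have hf : Fit (aF R a) (nlF R S) (nrF R S) zF x (⟨i, by omega⟩ : Fin (R + 1))
      ⟨i + 1, by omega⟩ (nlF R S (⟨i, by omega⟩ : Fin (R + 1))) :=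
    ⟨ha, by rw [h1]; exact Pre.at_l hi, h2, by rw [← ez]; exact own, by rw [← ez']; exact r1, r2⟩
  obtain ⟨φ₁, φ₂, k1, k2, k3, k4⟩ := hf.vx h.sol.zr
  have e1 : qr i = E.as (bo true 1 zF (nrF R S (⟨i, by omega⟩ : Fin (R + 1))) *
      Complex.tan (zF ⟨i, by omega⟩)) := h.sol.er ⟨i, by omega⟩
  have e2 : ql i = E.as (bo true 1 zF (nlF R S (⟨i, by omega⟩ : Fin (R + 1))) *
      Complex.tan (zF ⟨i, by omega⟩)) := h.sol.el ⟨i, by omega⟩
  have e3 : nrF R S (⟨i, by omega⟩ : Fin (R + 1)) = some ((⟨i + 1, by omega⟩ : Fin (R + 1)), S i) :=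
    nrF_iff.2 ⟨rfl, rfl⟩
  rw [e3, ← h1] at e1
  refine ⟨_, _, _, _, φ₁, _, φ₂, ?_, ha, k2, k3, k4⟩
  rw [e1, e2, as_re, as_im, as_re, as_im]
  exact k1

theorem fitL (h : Pre T R a S z ql qr zF) {i : ℕ} (hi : i < R) {x : Inst}
    (ha : HasA x.a (a (i + 1))) (h1 : x.s₁ = S i)
    (h2 : x.s₂ = E.kd (nrF R S (⟨i + 1, by omega⟩ : Fin (R + 1))))
    (own : InR x.own (Complex.cos (z (i + 1))).re (-(Complex.cos (z (i + 1))).im))
    (r1 : InR x.r₁ (Complex.cos (z i)).re (-(Complex.cos (z i)).im))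
    (r2 : InN x.r₂ zF (nrF R S (⟨i + 1, by omega⟩ : Fin (R + 1)))) :
    Dt x (ql (i + 1)) (qr (i + 1)) := by
  have ez : z i = zF ⟨i, by omega⟩ := h.sol.ez ⟨i, by omega⟩
  have ez' : z (i + 1) = zF ⟨i + 1, by omega⟩ := h.sol.ez ⟨i + 1, by omega⟩
  have hf : Fit (aF R a) (nlF R S) (nrF R S) zF x (⟨i + 1, by omega⟩ : Fin (R + 1))
      ⟨i, by omega⟩ (nrF R S (⟨i + 1, by omega⟩ : Fin (R + 1))) :=
    ⟨ha, by rw [h1]; exact Pre.at_r hi, h2, by rw [← ez']; exact own, by rw [← ez]; exact r1, r2⟩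
  obtain ⟨φ₁, φ₂, k1, k2, k3, k4⟩ := hf.vx h.sol.zr
  have e1 : ql (i + 1) = E.as (bo true 1 zF (nlF R S (⟨i + 1, by omega⟩ : Fin (R + 1))) *
      Complex.tan (zF ⟨i + 1, by omega⟩)) := h.sol.el ⟨i + 1, by omega⟩
  have e2 : qr (i + 1) = E.as (bo true 1 zF (nrF R S (⟨i + 1, by omega⟩ : Fin (R + 1))) *
      Complex.tan (zF ⟨i + 1, by omega⟩)) := h.sol.er ⟨i + 1, by omega⟩
  have e3 : nlF R S (⟨i + 1, by omega⟩ : Fin (R + 1)) = some ((⟨i, by omega⟩ : Fin (R + 1)), S i) :=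
    nlF_iff.2 ⟨rfl, rfl⟩
  rw [e3, ← h1] at e1
  refine ⟨_, _, _, _, φ₁, _, φ₂, ?_, ha, k2, k3, k4⟩
  rw [e1, e2, as_re, as_im, as_re, as_im]
  exact k1

end

/-! ### The cover -/

/-- The instance covers a node between `J` (first slot) and `K`. -/
def hitO (x : Inst) (n : ℕ) (J K : Vt) (rJ rK own : E.B2.Rg) : Bool :=
  Nat.beq x.a n && ((x.s₁ == J.s && x.s₂ == some K.s) && (Sb rJ x.r₁ && (Sb rK x.r₂ &&
    Sb own x.own)))

/-- The type of a node. -/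
def ntV (J : Vt) : Nt := ⟨min J.a 6, J.o == none⟩

/-- The orientation of a node with three half twists between `J` (left) and `K` (right). -/
def flV (J K : Vt) : Bool :=
  bif J.s then (bif K.s then decide (rkS (ntV K) < rkS (ntV J)) else false)
  else (bif K.s then true else decide (rkA (ntV J) < rkA (ntV K)))

def ty2 : List Vt := types false ++ types true

def hit3 (L : List Inst) (J K : Vt) (rJ rK own : E.B2.Rg) : Bool :=
  bif flV J K then L.any fun x => hitO x 3 K J rK rJ own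
  else L.any fun x => hitO x 3 J K rJ rK own

def hit4 (L : List Inst) (J K : Vt) (rJ rK own : E.B2.Rg) : Bool :=
  L.any fun x => hitO x 4 J K rJ rK own || hitO x 4 K J rK rJ own

/-- The check of one pair of neighbours. -/
def cvP (T : Vt → Vt → E.B2.Rg) (L : List Inst) (n : ℕ) (f : List Inst → Vt → Vt → E.B2.Rg → E.B2.Rg → E.B2.Rg → Bool)
    (J K : Vt) : Bool :=
  !(J.ok && (K.ok && adm ⟨n, J.s, some K.s⟩ J K)) ||
    f L J K (T J ⟨n, J.s, some K.s⟩) (T K ⟨n, K.s, some J.s⟩)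
      (capR (T ⟨n, J.s, some K.s⟩ J) (T ⟨n, K.s, some J.s⟩ K))

def cvI (T : Vt → Vt → E.B2.Rg) (L : List Inst) (n : ℕ)
    (f : List Inst → Vt → Vt → E.B2.Rg → E.B2.Rg → E.B2.Rg → Bool) : Bool :=
  ty2.all fun J => ty2.all fun K => cvP T L n f J K

/-- The check of the ends. -/
def cvE (T : Vt → Vt → E.B2.Rg) (L : List Inst) : Bool :=
  ty2.all fun J => !J.ok || L.any fun x => (Nat.beq x.a 3 && (x.s₁ == J.s && x.s₂ == none)) &&
    (Sb (T J ⟨3, J.s, none⟩) x.r₁ && Sb (T ⟨3, J.s, none⟩ J) x.own)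

theorem mem_ty2 {J : Vt} (h : J.ok = true) : J ∈ ty2 := by
  unfold ty2
  rw [List.mem_append]
  have := mem_types h
  rcases hs : J.s with _ | _
  · rw [hs] at this; exact Or.inl this
  · rw [hs] at this; exact Or.inr this

section

variable {T : Vt → Vt → E.B2.Rg} {R : ℕ} {a : ℕ → ℕ} {S : ℕ → Bool} {z ql qr : ℕ → ℂ}
  {zF : Fin (R + 1) → ℂ} {L : List Inst}

theorem hitO_of {x : Inst} {n : ℕ} {J K : Vt} {rJ rK own : E.B2.Rg} (h : hitO x n J K rJ rK own = true) :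
    x.a = n ∧ x.s₁ = J.s ∧ x.s₂ = some K.s ∧ Sb rJ x.r₁ = true ∧ Sb rK x.r₂ = true ∧
      Sb own x.own = true := by
  unfold hitO at h
  simp only [Bool.and_eq_true, Nat.beq_eq, beq_iff_eq] at h
  obtain ⟨h1, ⟨h2, h3⟩, h4, h5, h6⟩ := h
  exact ⟨h1, h2, h3, h4, h5, h6⟩

/-- The left slot first. -/
theorem dt_l (h : Pre T R a S z ql qr zF) {i n : ℕ} (hi : i + 1 < R) (hn : a (i + 1) = n)
    (h8 : n < 8) {x : Inst} (hx : hitO x n (E.vR a S i) (E.vL R a S (i + 2))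
      (T (E.vR a S i) ⟨n, (E.vR a S i).s, some (E.vL R a S (i + 2)).s⟩)
      (T (E.vL R a S (i + 2)) ⟨n, (E.vL R a S (i + 2)).s, some (E.vR a S i).s⟩)
      (capR (T ⟨n, (E.vR a S i).s, some (E.vL R a S (i + 2)).s⟩ (E.vR a S i))
        (T ⟨n, (E.vL R a S (i + 2)).s, some (E.vR a S i).s⟩ (E.vL R a S (i + 2)))) = true) :
    Dt x (ql (i + 1)) (qr (i + 1)) := by
  obtain ⟨e1, e2, e3, b1, b2, b3⟩ := hitO_of hx
  have v1 : E.vL R a S (i + 1) = ⟨n, (E.vR a S i).s, some (E.vL R a S (i + 2)).s⟩ := by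
    rw [Pre.vL_inner hi, hn, min_eq_left h8.le]
    rfl
  have v2 : E.vR a S (i + 1) = ⟨n, (E.vL R a S (i + 2)).s, some (E.vR a S i).s⟩ := by
    rw [Pre.vR_inner, hn, min_eq_left h8.le]
    rfl
  rw [← v1, ← v2] at b3
  rw [← v1] at b1
  rw [← v2] at b2
  refine fitL h (by omega) ?_ e2 ?_ ?_ ?_ ?_
  · rw [e1, hn]
    unfold HasA
    rw [if_neg (by omega)]
  · rw [e3]
    have : nrF R S (⟨i + 1, by omega⟩ : Fin (R + 1)) =
      some ((⟨i + 2, by omega⟩ : Fin (R + 1)), S (i + 1)) := nrF_iff.2 ⟨rfl, rfl⟩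
    rw [this]
    rfl
  · exact (InR.capR (h.rr (by omega : i < R)) (h.rl hi)).sub b3
  · exact (h.rl (by omega : i < R)).sub b1
  · intro j s e
    obtain ⟨f1, f2⟩ := nrF_iff.1 e
    have hj : j = (⟨i + 2, by omega⟩ : Fin (R + 1)) := by
      apply Fin.ext
      have : (i + 1) + 1 = (j : ℕ) := f1
      show (j : ℕ) = i + 2
      omega
    rw [hj]
    have ez' : z (i + 2) = zF ⟨i + 2, by omega⟩ := h.sol.ez ⟨i + 2, by omega⟩
    rw [← ez']
    exact (h.rr hi).sub b2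

/-- The right slot first. -/
theorem dt_r (h : Pre T R a S z ql qr zF) {i n : ℕ} (hi : i + 1 < R) (hn : a (i + 1) = n)
    (h8 : n < 8) {x : Inst} (hx : hitO x n (E.vL R a S (i + 2)) (E.vR a S i)
      (T (E.vL R a S (i + 2)) ⟨n, (E.vL R a S (i + 2)).s, some (E.vR a S i).s⟩)
      (T (E.vR a S i) ⟨n, (E.vR a S i).s, some (E.vL R a S (i + 2)).s⟩)
      (capR (T ⟨n, (E.vR a S i).s, some (E.vL R a S (i + 2)).s⟩ (E.vR a S i))
        (T ⟨n, (E.vL R a S (i + 2)).s, some (E.vR a S i).s⟩ (E.vL R a S (i + 2)))) = true) :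
    Dt x (qr (i + 1)) (ql (i + 1)) := by
  obtain ⟨e1, e2, e3, b1, b2, b3⟩ := hitO_of hx
  have v1 : E.vL R a S (i + 1) = ⟨n, (E.vR a S i).s, some (E.vL R a S (i + 2)).s⟩ := by
    rw [Pre.vL_inner hi, hn, min_eq_left h8.le]
    rfl
  have v2 : E.vR a S (i + 1) = ⟨n, (E.vL R a S (i + 2)).s, some (E.vR a S i).s⟩ := by
    rw [Pre.vR_inner, hn, min_eq_left h8.le]
    rfl
  rw [← v1, ← v2] at b3
  rw [← v2] at b1
  rw [← v1] at b2
  refine fitR h hi ?_ e2 ?_ ?_ ?_ ?_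
  · rw [e1, hn]
    unfold HasA
    rw [if_neg (by omega)]
  · rw [e3]
    have : nlF R S (⟨i + 1, by omega⟩ : Fin (R + 1)) =
      some ((⟨i, by omega⟩ : Fin (R + 1)), S i) := nlF_iff.2 ⟨rfl, rfl⟩
    rw [this]
    rfl
  · exact (InR.capR (h.rr (by omega : i < R)) (h.rl hi)).sub b3
  · exact (h.rr hi).sub b1
  · intro j s e
    obtain ⟨f1, f2⟩ := nlF_iff.1 e
    have hj : j = (⟨i, by omega⟩ : Fin (R + 1)) := by
      apply Fin.ext
      have : (j : ℕ) + 1 = i + 1 := f1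
      show (j : ℕ) = i
      omega
    rw [hj]
    have ez' : z i = zF ⟨i, by omega⟩ := h.sol.ez ⟨i, by omega⟩
    rw [← ez']
    exact (h.rl (by omega : i < R)).sub b2

theorem cv_of {f : List Inst → Vt → Vt → E.B2.Rg → E.B2.Rg → E.B2.Rg → Bool} (h : Pre T R a S z ql qr zF)
    {i n : ℕ} (hi : i + 1 < R) (hn : a (i + 1) = n) (h8 : n < 8) (hc : cvI T L n f = true) :
    f L (E.vR a S i) (E.vL R a S (i + 2))
      (T (E.vR a S i) ⟨n, (E.vR a S i).s, some (E.vL R a S (i + 2)).s⟩)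
      (T (E.vL R a S (i + 2)) ⟨n, (E.vL R a S (i + 2)).s, some (E.vR a S i).s⟩)
      (capR (T ⟨n, (E.vR a S i).s, some (E.vL R a S (i + 2)).s⟩ (E.vR a S i))
        (T ⟨n, (E.vL R a S (i + 2)).s, some (E.vR a S i).s⟩ (E.vL R a S (i + 2)))) = true := by
  have k1 := h.ok_r (by omega : i < R)
  have k2 : (E.vL R a S (i + 2)).ok = true := h.ok_l hi
  have k3 := h.adm_l hi
  unfold cvI at hc
  rw [List.all_eq_true] at hc
  have h1 := hc _ (mem_ty2 k1)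
  rw [List.all_eq_true] at h1
  have h2 := h1 _ (mem_ty2 k2)
  unfold cvP at h2
  have v1 : E.vL R a S (i + 1) = ⟨n, (E.vR a S i).s, some (E.vL R a S (i + 2)).s⟩ := by
    rw [Pre.vL_inner hi, hn, min_eq_left h8.le]
    rfl
  rw [v1] at k3
  rw [k1, k2, k3] at h2
  simpa using h2

theorem ntV_l {i : ℕ} (hi : i < R) : ntV (E.vR a S i) = ntG R a i := by
  unfold ntV E.vR ntG
  dsimp only
  rw [min_assoc, show min 8 6 = 6 from rfl]
  congr 1
  by_cases h0 : i = 0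
  · rw [if_pos h0, decide_eq_true (Or.inl h0)]
    rfl
  · rw [if_neg h0, decide_eq_false (by omega)]
    rfl

theorem ntV_r {i : ℕ} (hi : 0 < i) : ntV (E.vL R a S i) = ntG R a i := by
  unfold ntV E.vL ntG
  dsimp only
  rw [min_assoc, show min 8 6 = 6 from rfl]
  congr 1
  by_cases h0 : i = R
  · rw [if_pos h0, decide_eq_true (Or.inr h0)]
    rfl
  · rw [if_neg h0, decide_eq_false (by omega)]
    rfl

theorem flV_eq {i : ℕ} (hi : i + 1 < R) (h3 : a (i + 1) = 3) :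
    flO R a S (i + 1) = flV (E.vR a S i) (E.vL R a S (i + 2)) := by
  unfold flO flV
  rw [if_neg (by omega), if_neg (by omega), if_pos h3, ntV_l (show i < R by omega),
    ntV_r (show 0 < i + 2 by omega)]
  have e1 : (E.vR a S i).s = S i := rfl
  have e2 : (E.vL R a S (i + 2)).s = S (i + 1) := rfl
  rw [e1, e2, show i + 1 - 1 = i by omega]
  cases S i <;> cases S (i + 1) <;> rfl

end

end Pool.Agent.S5.Fld
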