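import Pool.Agent.S5.Fld.BO3
import Pool.Agent.S5.E.VX.SyF

/-!
# Nodes with three and four half twists: the fields `o3`, `o4`, `z3`, `z4`
-/

set_option autoImplicit false

namespace Pool.Agent.S5.Fld

open Real Pool.Agent.S3.NI Pool.Agent.S5.E.B2 Pool.Agent.S5.E Pool.Agent.S5.E.VX

/-! ### Logarithms -/

theorem exp_six : (6.58 : ℝ) ≤ exp (6 / 10 * π) := by
  have h1 : (6.58 : ℝ) ≤ exp (6 / 10 * 3.1415) := by
    refine le_trans ?_ (Real.sum_le_exp_of_nonneg (show (0 : ℝ) ≤ 6 / 10 * 3.1415 by norm_num) 14)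
    norm_num [Finset.sum_range_succ, Nat.factorial]
  refine h1.trans (exp_le_exp.2 ?_)
  have := pi_gt_d4
  linarith

theorem log_near {x y : ℝ} (hx : 0 < x) (hy : 0 < y) (h : 50 * x ^ 2 ≤ 329 * y ^ 2) :
    Real.log x - Real.log y ≤ 3 / 10 * π := by
  have h1 : Real.log (x ^ 2) ≤ Real.log (exp (6 / 10 * π) * y ^ 2) := by
    apply Real.log_le_log (by positivity)
    have := exp_six
    have hy2 : 0 < y ^ 2 := by positivity
    nlinarith
  rw [Real.log_mul (exp_pos _).ne' (by positivity), Real.log_exp, Real.log_pow, Real.log_pow] at h1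
  push_cast at h1
  linarith

/-- The argument is in `[0, 0.7 π)`. -/
theorem arg_near {w : ℂ} (h0 : 0 < w.im) (h : 100 * (-w.re) ≤ 72 * w.im) :
    0 ≤ w.arg ∧ w.arg < 7 / 10 * π := by
  have hpi := pi_pos
  refine ⟨Complex.arg_nonneg_iff.2 h0.le, ?_⟩
  by_contra hc
  push Not at hc
  have hle := Complex.arg_le_pi w
  have hw : 0 < ‖w‖ := norm_pos_iff.2 (fun h => by rw [h] at h0; simp at h0)
  have e1 : ‖w‖ * sin w.arg = w.im := Complex.norm_mul_sin_arg w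
  have e2 : ‖w‖ * cos w.arg = w.re := Complex.norm_mul_cos_arg w
  have hs : 0 ≤ sin (w.arg - 7 / 10 * π) :=
    sin_nonneg_of_nonneg_of_le_pi (by linarith) (by linarith)
  have c5 : cos (7 / 10 * π) = -sin (π / 5) := by
    rw [show 7 / 10 * π = π / 5 + π / 2 by ring, cos_add_pi_div_two]
  have s5 : sin (7 / 10 * π) = cos (π / 5) := by
    rw [show 7 / 10 * π = π / 5 + π / 2 by ring, sin_add_pi_div_two]
  rw [sin_sub, c5, s5] at hs
  have hc5 : cos (π / 5) = (1 + √5) / 4 := Real.cos_pi_div_five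
  have h5 : √5 < (2.2361 : ℝ) := by
    rw [Real.sqrt_lt' (by norm_num)]
    norm_num
  have h5' : 0 ≤ √5 := Real.sqrt_nonneg 5
  have hs5 : 0 < sin (π / 5) := sin_pos_of_pos_of_lt_pi (by linarith) (by linarith)
  have hc5p : 0 < cos (π / 5) := by rw [hc5]; positivity
  have h2 := sin_sq_add_cos_sq (π / 5)
  have h3 : 72 * cos (π / 5) < 100 * sin (π / 5) := by
    have h4 : (72 * cos (π / 5)) ^ 2 < (100 * sin (π / 5)) ^ 2 := by
      have h6 : cos (π / 5) ^ 2 < (0.6546 : ℝ) := by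
        rw [hc5]
        have h7 : √5 ^ 2 = 5 := Real.sq_sqrt (by norm_num)
        nlinarith
      nlinarith
    exact lt_of_pow_lt_pow_left₀ 2 (by positivity) h4
  -- multiply by the norm
  have k1 : 0 ≤ w.im * -sin (π / 5) - w.re * cos (π / 5) := by
    rw [← e1, ← e2]
    have := mul_nonneg hw.le hs
    nlinarith
  nlinarith

/-- The bound of `(log w₁ - log w₂) / (2 π i)`. -/
theorem zz_bd {w₁ w₂ : ℂ} (h1 : 0 < w₁.im) (h2 : 0 < w₂.im)
    (a1 : 100 * (-w₁.re) ≤ 72 * w₁.im) (a2 : 100 * (-w₂.re) ≤ 72 * w₂.im)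
    (n1 : 50 * ‖w₁‖ ^ 2 ≤ 329 * ‖w₂‖ ^ 2) (n2 : 50 * ‖w₂‖ ^ 2 ≤ 329 * ‖w₁‖ ^ 2) :
    |((Complex.log w₁ - Complex.log w₂) / (2 * π * Complex.I)).im| ≤ 3 / 20 ∧
    |((Complex.log w₁ - Complex.log w₂) / (2 * π * Complex.I)).re| < 7 / 20 := by
  have hpi := pi_pos
  set u : ℂ := (Complex.log w₁ - Complex.log w₂) / (2 * π * Complex.I) with hu
  have hm : 2 * π * Complex.I * u = Complex.log w₁ - Complex.log w₂ := by
    rw [hu, mul_div_cancel₀ _ Complex.two_pi_I_ne_zero]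
  have p1 : 0 < ‖w₁‖ := norm_pos_iff.2 (fun h => by rw [h] at h1; simp at h1)
  have p2 : 0 < ‖w₂‖ := norm_pos_iff.2 (fun h => by rw [h] at h2; simp at h2)
  have e1 := congrArg Complex.re hm
  have e2 := congrArg Complex.im hm
  rw [G.two_pi_I_mul_re, Complex.sub_re, Complex.log_re, Complex.log_re] at e1
  rw [G.two_pi_I_mul_im, Complex.sub_im, Complex.log_im, Complex.log_im] at e2
  have l1 := log_near p1 p2 n1
  have l2 := log_near p2 p1 n2
  obtain ⟨b1, b2⟩ := arg_near h1 a1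
  obtain ⟨b3, b4⟩ := arg_near h2 a2
  constructor
  · rw [abs_le]
    constructor
    · by_contra hc
      push Not at hc
      nlinarith
    · by_contra hc
      push Not at hc
      nlinarith
  · rw [abs_lt]
    constructor
    · by_contra hc
      push Not at hc
      nlinarith
    · by_contra hc
      push Not at hc
      nlinarith

theorem QA_eq (w : ℂ) : QA w.re w.im = ‖Complex.sinh w‖ ^ 2 := (norm_sinh_sq' w).symm

/-- The position of `sinh w`. -/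
theorem za_pos {w : ℂ} {Q : ℝ} (h : ZA w.re w.im Q) : 0 < (Complex.sinh w).im ∧
    100 * (-(Complex.sinh w).re) ≤ 72 * (Complex.sinh w).im := by
  rw [G.sinh_re, G.sinh_im]
  constructor
  · exact mul_pos (cosh_pos _) (sin_pos_of_pos_of_lt_pi h.y0 (by linarith [h.y1, pi_pos]))
  · have := h.r
    linarith

/-! ### Nodes with three half twists -/

section

variable {T : Vt → Vt → E.B2.Rg} {R : ℕ} {a : ℕ → ℕ} {S : ℕ → Bool} {z ql qr : ℕ → ℂ}
  {zF : Fin (R + 1) → ℂ} {L : List Inst}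

/-- A list of proved instances. -/
def Rn (acc : Md → Md → N → N → N → N → N → N → Bool) (L : List Inst) : Prop :=
  ∀ x ∈ L, ∃ w n, chkW w n acc x = true

theorem g3_inner (h : Pre T R a S z ql qr zF) (hL : Rn acc3 L) (hc : cvI T L 3 hit3 = true) {i : ℕ}
    (hi : i + 1 < R) (h3 : a (i + 1) = 3) :
    G3 (qB' (flO R a S) ql qr (i + 1)).re (qB' (flO R a S) ql qr (i + 1)).im
      (qO' (flO R a S) ql qr (i + 1)).re (qO' (flO R a S) ql qr (i + 1)).im := by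
  have hv := cv_of h hi h3 (by norm_num) hc
  have hf := flV_eq (S := S) hi h3
  unfold hit3 at hv
  unfold qB' qO'
  rw [hf]
  rcases hb : flV (E.vR a S i) (E.vL R a S (i + 2)) with _ | _
  · rw [hb, cond_false, List.any_eq_true] at hv
    obtain ⟨x, hx, hv⟩ := hv
    obtain ⟨w, n, hr⟩ := hL x hx
    obtain ⟨a', R', I', ρ₁, φ₁, ρ₂, φ₂, k1, k2, k3, k4, k5⟩ := dt_l h hi h3 (by norm_num) hv
    simpa using run3 hr k1 k2 k3 k4 k5
  · rw [hb, cond_true, List.any_eq_true] at hv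
    obtain ⟨x, hx, hv⟩ := hv
    obtain ⟨w, n, hr⟩ := hL x hx
    obtain ⟨a', R', I', ρ₁, φ₁, ρ₂, φ₂, k1, k2, k3, k4, k5⟩ := dt_r h hi h3 (by norm_num) hv
    simpa using run3 hr k1 k2 k3 k4 k5

theorem ge_of (hL : Rn acc3e L) {x : Inst} (hx : x ∈ L) {q q' : ℂ} (hd : Dt x q q') :
    G3e q.re q.im := by
  obtain ⟨w, n, hr⟩ := hL x hx
  obtain ⟨a', R', I', ρ₁, φ₁, ρ₂, φ₂, k1, k2, k3, k4, k5⟩ := hd
  exact run3e hr k1 k2 k3 k4 k5

theorem cvE_of (hc : cvE T L = true) {J : Vt} (hJ : J.ok = true) : ∃ x ∈ L, x.a = 3 ∧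
    x.s₁ = J.s ∧ x.s₂ = none ∧ Sb (T J ⟨3, J.s, none⟩) x.r₁ = true ∧
      Sb (T ⟨3, J.s, none⟩ J) x.own = true := by
  unfold cvE at hc
  rw [List.all_eq_true] at hc
  have h1 := hc J (mem_ty2 hJ)
  rw [hJ, Bool.not_true, Bool.false_or, List.any_eq_true] at h1
  obtain ⟨x, hx, h2⟩ := h1
  simp only [Bool.and_eq_true, Nat.beq_eq, beq_iff_eq] at h2
  obtain ⟨⟨k1, k2, k3⟩, k4, k5⟩ := h2
  exact ⟨x, hx, k1, k2, k3, k4, k5⟩

theorem ge_left (h : Pre T R a S z ql qr zF) (hL : Rn acc3e L) (hc : cvE T L = true)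
    (h3 : a 0 = 3) : G3e (qr 0).re (qr 0).im := by
  have hR : 0 < R := h.sol.crt.hR
  obtain ⟨x, hx, e1, e2, e3, b1, b2⟩ := cvE_of hc (h.ok_l hR)
  have v : E.vR a S 0 = ⟨3, (E.vL R a S (0 + 1)).s, none⟩ := by
    unfold E.vR
    rw [h3]
    rfl
  rw [← v] at b1 b2
  have hn : nlF R S (⟨0, by omega⟩ : Fin (R + 1)) = none := nlF_none.2 rfl
  refine ge_of hL hx (fitR h hR ?_ e2 ?_ ?_ ?_ ?_)
  · rw [e1, h3]
    unfold HasA
    rw [if_neg (by omega)]
  · rw [e3, hn]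
    rfl
  · exact (h.rl hR).sub b2
  · exact (h.rr hR).sub b1
  · rw [hn]
    intro j s e
    simp at e

theorem ge_right (h : Pre T R a S z ql qr zF) (hL : Rn acc3e L) (hc : cvE T L = true) {i : ℕ}
    (hi : i + 1 = R) (h3 : a (i + 1) = 3) : G3e (ql (i + 1)).re (ql (i + 1)).im := by
  have hR : i < R := by omega
  obtain ⟨x, hx, e1, e2, e3, b1, b2⟩ := cvE_of hc (h.ok_r hR)
  have v : E.vL R a S (i + 1) = ⟨3, (E.vR a S i).s, none⟩ := by
    unfold E.vL
    rw [h3, if_pos hi]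
    rfl
  rw [← v] at b1 b2
  have hn : nrF R S (⟨i + 1, by omega⟩ : Fin (R + 1)) = none := nrF_none.2 hi
  refine ge_of hL hx (fitL h hR ?_ e2 ?_ ?_ ?_ ?_)
  · rw [e1, h3]
    unfold HasA
    rw [if_neg (by omega)]
  · rw [e3, hn]
    rfl
  · exact (h.rr hR).sub b2
  · exact (h.rl hR).sub b1
  · rw [hn]
    intro j s e
    simp at e

/-- The cases of a node with three half twists. -/
theorem three_cases (h : Pre T R a S z ql qr zF) {i : ℕ} (hi : i ≤ R) :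
    (i = 0 ∧ qB' (flO R a S) ql qr i = 0 ∧ qO' (flO R a S) ql qr i = qr 0) ∨
    (∃ j, j + 1 = R ∧ i = j + 1 ∧ qB' (flO R a S) ql qr i = 0 ∧
      qO' (flO R a S) ql qr i = ql (j + 1)) ∨ (∃ j, j + 1 < R ∧ i = j + 1) := by
  rcases Nat.eq_zero_or_pos i with h0 | h0
  · left
    refine ⟨h0, ?_, ?_⟩
    · unfold qB'
      rw [h0, flO_zero]
      simpa using h.sol.crt.l0
    · unfold qO'
      rw [h0, flO_zero]
      simp
  · right
    obtain ⟨j, rfl⟩ : ∃ j, i = j + 1 := ⟨i - 1, by omega⟩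
    rcases Nat.lt_or_ge (j + 1) R with h1 | h1
    · exact Or.inr ⟨j, h1, rfl⟩
    · left
      have e : j + 1 = R := by omega
      have hf := flO_last (m := R) (by omega) a S
      refine ⟨j, e, rfl, ?_, ?_⟩
      · unfold qB'
        rw [e, hf]
        simpa using h.sol.crt.rR
      · unfold qO'
        rw [e, hf]
        simp

theorem o3_end {q : ℂ} (h0 : 0 < q.re) (h1 : q.im < π / 2) (h : G3e q.re q.im) : G.O3 0 q := by
  have hpi := pi_pos
  have hb := h.b0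
  refine ⟨Or.inl rfl, h0, hb, h1.le, ?_, ?_, Or.inr (Or.inl rfl), ?_, ?_⟩
  · rw [Complex.zero_im]
    linarith
  · rw [Complex.zero_im]
    linarith
  · rw [Complex.zero_im]
    linarith
  · rw [Complex.zero_re]
    linarith

theorem o3_inner {p r : ℂ} (h0 : 0 < p.re) (h1 : 0 < r.re) (h2 : r.im < π / 2)
    (h : G3 p.re p.im r.re r.im) : G.O3 p r := by
  obtain ⟨⟨n, b0, s1, c1, c2, c3, c4⟩, -⟩ := h
  refine ⟨Or.inr ⟨h0, ?_⟩, h1, b0, h2.le, s1.le, c1, ?_, c3.le, c4.le⟩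
  · rcases n with n | ⟨n1, n2, n3, n4⟩
    · exact Or.inl n
    · exact Or.inr ⟨n1.le, n2.le, n3.le, n4.le⟩
  · rcases c2 with c | ⟨k1, k2, k3⟩
    · exact Or.inl c.le
    · right
      right
      refine ⟨k1.le, k2.le, ?_⟩
      rcases k3 with k | ⟨k, k'⟩
      · exact Or.inl k.le
      · exact Or.inr ⟨k.le, k'.le⟩

/-- The slots of an inner node. -/
theorem inner_re (h : Pre T R a S z ql qr zF) (fl : ℕ → Bool) {j : ℕ} (hj : j + 1 < R) :
    (0 < (qB' fl ql qr (j + 1)).re ∧ 0 < (qO' fl ql qr (j + 1)).re) ∧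
      (qO' fl ql qr (j + 1)).im < π / 2 := by
  have e1 := h.sol.crt.lre j (by omega)
  have e2 := h.sol.crt.rre (j + 1) hj
  have e3 := (h.sol.crt.lim j (by omega)).2
  have e4 := (h.sol.crt.rim (j + 1) hj).2
  unfold qB' qO'
  split_ifs
  · exact ⟨⟨e2, e1⟩, e3⟩
  · exact ⟨⟨e1, e2⟩, e4⟩

/-- **The field `o3`.** -/
theorem o3_all (h : Pre T R a S z ql qr zF) {Le : List Inst} (hL : Rn acc3 L)
    (hc : cvI T L 3 hit3 = true) (hLe : Rn acc3e Le) (hce : cvE T Le = true) {i : ℕ} (hi : i ≤ R)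
    (h3 : a i = 3) : G.O3 (qB' (flO R a S) ql qr i) (qO' (flO R a S) ql qr i) := by
  rcases three_cases h hi with ⟨h0, e1, e2⟩ | ⟨j, hj, hi', e1, e2⟩ | ⟨j, hj, hi'⟩
  · rw [e1, e2]
    have hR : 0 < R := h.sol.crt.hR
    exact o3_end (h.sol.crt.rre 0 hR) (h.sol.crt.rim 0 hR).2 (ge_left h hLe hce (by rw [← h0, h3]))
  · rw [e1, e2]
    exact o3_end (h.sol.crt.lre j (by omega)) (h.sol.crt.lim j (by omega)).2
      (ge_right h hLe hce hj (by rw [← hi', h3]))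
  · subst hi'
    obtain ⟨⟨k1, k2⟩, k3⟩ := inner_re h (flO R a S) hj
    exact o3_inner k1 k2 k3 (g3_inner h hL hc hj h3)

/-- The equation of a node. -/
theorem eq_parts (h : Pre T R a S z ql qr zF) (fl : ℕ → Bool) {i : ℕ} (hi : i ≤ R) :
    (a i : ℝ) * (z i).re = π - (qB' fl ql qr i).im - (qO' fl ql qr i).im ∧
    (a i : ℝ) * (z i).im = (qB' fl ql qr i).re + (qO' fl ql qr i).re := by
  have e := h.sol.crt.eq i hi
  have e1 := congrArg Complex.re e
  have e2 := congrArg Complex.im e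
  have hn : ((a i : ℕ) : ℂ) = (((a i : ℕ) : ℝ) : ℂ) := by push_cast; rfl
  rw [hn] at e1 e2
  rw [Complex.re_ofReal_mul] at e1
  rw [Complex.im_ofReal_mul] at e2
  simp only [Complex.add_re, Complex.add_im, Complex.ofReal_re, Complex.ofReal_im, Complex.mul_re,
    Complex.mul_im, Complex.I_re, Complex.I_im] at e1 e2
  unfold qB' qO'
  split_ifs
  · constructor <;> linarith
  · constructor <;> linarith

theorem z3_of {p r z : ℂ} (h0 : 0 < r.re) (h1 : 0 < r.im) (h2 : r.im < π / 2)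
    (e1 : 3 * z.re = π - p.im - r.im) (e2 : 3 * z.im = p.re + r.re)
    (h : ZA ((2 * p.re - r.re) / 3) ((π + 2 * p.im - r.im) / 3) (QA r.re r.im)) :
    |(G.zz3 p r z).im| ≤ 3 / 20 ∧ |(G.zz3 p r z).re| < 7 / 20 := by
  have hpi := pi_pos
  have f1 : (p + Complex.I * z).re = (2 * p.re - r.re) / 3 := by
    rw [G.addI_re]
    linarith
  have f2 : (p + Complex.I * z).im = (π + 2 * p.im - r.im) / 3 := by
    rw [G.addI_im]
    linarith
  rw [← f1, ← f2] at h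
  obtain ⟨k1, k2⟩ := za_pos h
  have s1 : 0 < (Complex.sinh r).im := by
    rw [G.sinh_im]
    exact mul_pos (cosh_pos _) (sin_pos_of_pos_of_lt_pi h1 (by linarith))
  have s2 : 100 * (-(Complex.sinh r).re) ≤ 72 * (Complex.sinh r).im := by
    have : 0 ≤ (Complex.sinh r).re := by
      rw [G.sinh_re]
      exact mul_nonneg (sinh_nonneg_iff.2 h0.le) (cos_nonneg_of_neg_pi_div_two_le_of_le
        (by linarith) h2.le)
    linarith
  have hc := h.c
  rw [QA_eq, QA_eq] at hc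
  unfold G.zz3 G.lA
  exact zz_bd s1 k1 s2 k2 hc.2 hc.1

/-- The bounds of the own variable of a node with three half twists. -/
theorem z3_bd (h : Pre T R a S z ql qr zF) {Le : List Inst} (hL : Rn acc3 L)
    (hc : cvI T L 3 hit3 = true) (hLe : Rn acc3e Le) (hce : cvE T Le = true) {i : ℕ} (hi : i ≤ R)
    (h3 : a i = 3) :
    |(G.zz3 (qB' (flO R a S) ql qr i) (qO' (flO R a S) ql qr i) (z i)).im| ≤ 3 / 20 ∧
    |(G.zz3 (qB' (flO R a S) ql qr i) (qO' (flO R a S) ql qr i) (z i)).re| < 7 / 20 := by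
  obtain ⟨m1, m2⟩ := eq_parts h (flO R a S) hi
  rw [h3] at m1 m2
  push_cast at m1 m2
  rcases three_cases h hi with ⟨h0, e1, e2⟩ | ⟨j, hj, hi', e1, e2⟩ | ⟨j, hj, hi'⟩
  · rw [e1, e2] at m1 m2 ⊢
    have hR : 0 < R := h.sol.crt.hR
    have g := ge_left h hLe hce (by rw [← h0, h3])
    refine z3_of (h.sol.crt.rre 0 hR) g.b0 (h.sol.crt.rim 0 hR).2 m1 m2 ?_
    have := g.z
    rw [Complex.zero_re, Complex.zero_im]
    convert this using 2 <;> ring
  · rw [e1, e2] at m1 m2 ⊢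
    have g := ge_right h hLe hce hj (by rw [← hi', h3])
    refine z3_of (h.sol.crt.lre j (by omega)) g.b0 (h.sol.crt.lim j (by omega)).2 m1 m2 ?_
    have := g.z
    rw [Complex.zero_re, Complex.zero_im]
    convert this using 2 <;> ring
  · subst hi'
    obtain ⟨⟨k1, k2⟩, k3⟩ := inner_re h (flO R a S) hj
    have g := g3_inner h hL hc hj h3
    exact z3_of k2 g.l.b0 k3 m1 m2 g.z

/-- **The field `z3`.** -/
theorem z3_all (h : Pre T R a S z ql qr zF) {Le : List Inst} (hL : Rn acc3 L)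
    (hc : cvI T L 3 hit3 = true) (hLe : Rn acc3e Le) (hce : cvE T Le = true) {i : ℕ} (hi : i ≤ R)
    (h3 : a i = 3) :
    |(G.zz3 (qB' (flO R a S) ql qr i) (qO' (flO R a S) ql qr i) (z i)).im| ≤ 3 / 20 ∧
    |(G.zz3 (qB' (flO R a S) ql qr i) (qO' (flO R a S) ql qr i) (z i)).re| < z1O R a S i := by
  obtain ⟨k1, k2⟩ := z3_bd h hL hc hLe hce hi h3
  exact ⟨k1, lt_of_lt_of_le k2 (z1O_bd R a S i).1⟩

/-! ### Nodes with four half twists -/

theorem g4_inner (h : Pre T R a S z ql qr zF) (hL : Rn acc4 L) (hc : cvI T L 4 hit4 = true) {i : ℕ}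
    (hi : i + 1 < R) (h4 : a (i + 1) = 4) :
    G4 (ql (i + 1)).re (ql (i + 1)).im (qr (i + 1)).re (qr (i + 1)).im := by
  have hv := cv_of h hi h4 (by norm_num) hc
  unfold hit4 at hv
  rw [List.any_eq_true] at hv
  obtain ⟨x, hx, hv⟩ := hv
  obtain ⟨w, n, hr⟩ := hL x hx
  rw [Bool.or_eq_true] at hv
  rcases hv with hv | hv
  · obtain ⟨a', R', I', ρ₁, φ₁, ρ₂, φ₂, k1, k2, k3, k4, k5⟩ := dt_l h hi h4 (by norm_num) hv
    exact run4 hr k1 k2 k3 k4 k5
  · obtain ⟨a', R', I', ρ₁, φ₁, ρ₂, φ₂, k1, k2, k3, k4, k5⟩ := dt_r h hi h4 (by norm_num) hv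
    exact (run4 hr k1 k2 k3 k4 k5).swap

/-- **The field `o4`.** -/
theorem o4_all (h : Pre T R a S z ql qr zF) (hL : Rn acc4 L) (hc : cvI T L 4 hit4 = true) {i : ℕ}
    (h0 : 0 < i) (hi : i < R) (h4 : a i = 4) : G.O4 (ql i) (qr i) := by
  obtain ⟨j, rfl⟩ : ∃ j, i = j + 1 := ⟨i - 1, by omega⟩
  obtain ⟨s0, l, l', -, -⟩ := g4_inner h hL hc hi h4
  exact ⟨h.sol.crt.lre j (by omega), h.sol.crt.rre (j + 1) hi, s0, l.e, l'.e, l.n, l'.n⟩

theorem z4_of {p r z : ℂ} (e1 : 4 * z.re = π - p.im - r.im) (e2 : 4 * z.im = p.re + r.re)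
    (h : G4 p.re p.im r.re r.im) :
    |(G.zz4 p r z).im| ≤ 3 / 20 ∧ |(G.zz4 p r z).re| < 7 / 20 := by
  have f1 : (p + Complex.I * z).re = (3 * p.re - r.re) / 4 := by
    rw [G.addI_re]
    linarith
  have f2 : (p + Complex.I * z).im = (π + 3 * p.im - r.im) / 4 := by
    rw [G.addI_im]
    linarith
  have f3 : (r + Complex.I * z).re = (3 * r.re - p.re) / 4 := by
    rw [G.addI_re]
    linarith
  have f4 : (r + Complex.I * z).im = (π + 3 * r.im - p.im) / 4 := by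
    rw [G.addI_im]
    linarith
  obtain ⟨-, -, -, hz, hz'⟩ := h
  rw [← f1, ← f2, ← f3, ← f4] at hz hz'
  obtain ⟨k1, k2⟩ := za_pos hz
  obtain ⟨k3, k4⟩ := za_pos hz'
  have hc := hz.c
  rw [QA_eq, QA_eq] at hc
  unfold G.zz4 G.lA
  exact zz_bd k3 k1 k4 k2 hc.2 hc.1

/-- The bounds of the own variable of an inner node with four half twists. -/
theorem z4_bd (h : Pre T R a S z ql qr zF) (hL : Rn acc4 L) (hc : cvI T L 4 hit4 = true) {i : ℕ}
    (h0 : 0 < i) (hi : i < R) (h4 : a i = 4) :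
    |(G.zz4 (qB' (flO R a S) ql qr i) (qO' (flO R a S) ql qr i) (z i)).im| ≤ 3 / 20 ∧
    |(G.zz4 (qB' (flO R a S) ql qr i) (qO' (flO R a S) ql qr i) (z i)).re| < 7 / 20 := by
  obtain ⟨j, rfl⟩ : ∃ j, i = j + 1 := ⟨i - 1, by omega⟩
  obtain ⟨m1, m2⟩ := eq_parts h (flO R a S) hi.le
  rw [h4] at m1 m2
  push_cast at m1 m2
  have hf : flO R a S (j + 1) = false := by
    unfold flO
    rw [if_neg (by omega), if_neg (by omega), if_neg (by omega)]
  have e1 : qB' (flO R a S) ql qr (j + 1) = ql (j + 1) := by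
    unfold qB'
    rw [hf]
    simp
  have e2 : qO' (flO R a S) ql qr (j + 1) = qr (j + 1) := by
    unfold qO'
    rw [hf]
    simp
  rw [e1, e2]
  rw [e1, e2] at m1 m2
  exact z4_of m1 m2 (g4_inner h hL hc hi h4)

/-- **The field `z4`.** -/
theorem z4_all (h : Pre T R a S z ql qr zF) (hL : Rn acc4 L) (hc : cvI T L 4 hit4 = true) {i : ℕ}
    (h0 : 0 < i) (hi : i < R) (h4 : a i = 4) :
    |(G.zz4 (qB' (flO R a S) ql qr i) (qO' (flO R a S) ql qr i) (z i)).im| ≤ 3 / 20 ∧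
    |(G.zz4 (qB' (flO R a S) ql qr i) (qO' (flO R a S) ql qr i) (z i)).re| < z1O R a S i := by
  obtain ⟨k1, k2⟩ := z4_bd h hL hc h0 hi h4
  exact ⟨k1, lt_of_lt_of_le k2 (z1O_bd R a S i).1⟩

end

end Pool.Agent.S5.Fld
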