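import Pool.Agent.S5.Fld.BO2

/-!
# Nodes with three and four half twists: the instances
-/

set_option autoImplicit false

namespace Pool.Agent.S5.Fld

open Pool.Agent.S5.E Pool.Agent.S5.E.VX

def x3_0 : Inst := ⟨3, true, some true, ⟨603, 1000, 0, 713, 0⟩, ⟨603, 1000, 0, 713, 0⟩, ⟨745, 901, 341, 624, 0⟩, ⟨0, 0, 0, 0, 0⟩⟩

def x3_1 : Inst := ⟨3, true, some false, ⟨616, 1000, 0, 594, 0⟩, ⟨606, 1000, 0, 774, 0⟩, ⟨736, 900, 240, 457, 0⟩, ⟨0, 0, 0, 0, 0⟩⟩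

def x3_2 : Inst := ⟨3, true, some false, ⟨748, 947, 441, 730, 0⟩, ⟨672, 1000, 0, 432, 0⟩, ⟨762, 898, 279, 475, 0⟩, ⟨0, 0, 0, 0, 0⟩⟩

def x3_3 : Inst := ⟨3, true, some false, ⟨748, 947, 441, 730, 0⟩, ⟨751, 933, 338, 565, 0⟩, ⟨771, 878, 279, 418, 0⟩, ⟨0, 0, 0, 0, 0⟩⟩

def x3_4 : Inst := ⟨3, true, some false, ⟨748, 947, 441, 730, 0⟩, ⟨606, 642, 684, 774, 0⟩, ⟨744, 823, 279, 388, 0⟩, ⟨0, 0, 0, 0, 0⟩⟩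

def x3_5 : Inst := ⟨3, true, some false, ⟨748, 947, 441, 730, 0⟩, ⟨829, 939, 495, 727, 0⟩, ⟨780, 872, 279, 379, 0⟩, ⟨0, 0, 0, 0, 0⟩⟩

def x3_6 : Inst := ⟨3, false, some false, ⟨671, 1000, 0, 682, 0⟩, ⟨619, 1000, 0, 850, 0⟩, ⟨772, 898, 175, 353, 0⟩, ⟨0, 0, 0, 0, 0⟩⟩

def x3_7 : Inst := ⟨3, false, some false, ⟨619, 642, 760, 850, 0⟩, ⟨619, 642, 760, 850, 0⟩, ⟨768, 822, 164, 277, 0⟩, ⟨0, 0, 0, 0, 0⟩⟩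

def x4_0 : Inst := ⟨4, true, some true, ⟨630, 754, 157, 459, 0⟩, ⟨630, 1000, 0, 568, 0⟩, ⟨772, 858, 205, 320, 0⟩, ⟨0, 0, 0, 0, 0⟩⟩

def x4_1 : Inst := ⟨4, true, some true, ⟨760, 1000, 0, 690, 0⟩, ⟨630, 1000, 0, 459, 0⟩, ⟨780, 881, 198, 324, 0⟩, ⟨0, 0, 0, 0, 0⟩⟩

def x4_2 : Inst := ⟨4, true, some true, ⟨760, 935, 258, 690, 0⟩, ⟨760, 935, 381, 690, 0⟩, ⟨780, 869, 226, 356, 0⟩, ⟨0, 0, 0, 0, 0⟩⟩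

def x4_3 : Inst := ⟨4, true, some false, ⟨643, 1000, 0, 706, 0⟩, ⟨829, 1000, 0, 144, 0⟩, ⟨815, 881, 179, 270, 0⟩, ⟨0, 0, 0, 0, 0⟩⟩

def x4_4 : Inst := ⟨4, true, some false, ⟨643, 1000, 0, 706, 0⟩, ⟨673, 878, 110, 451, 0⟩, ⟨802, 873, 157, 260, 0⟩, ⟨0, 0, 0, 0, 0⟩⟩

def x4_5 : Inst := ⟨4, true, some false, ⟨643, 1000, 0, 706, 0⟩, ⟨630, 652, 823, 874, 0⟩, ⟨796, 849, 138, 196, 0⟩, ⟨0, 0, 0, 0, 0⟩⟩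

def x4_6 : Inst := ⟨4, true, some false, ⟨893, 1000, 0, 62, 0⟩, ⟨763, 956, 369, 689, 0⟩, ⟨828, 877, 141, 215, 0⟩, ⟨0, 0, 0, 0, 0⟩⟩

def x4_7 : Inst := ⟨4, true, some false, ⟨643, 941, 30, 706, 0⟩, ⟨763, 956, 369, 689, 0⟩, ⟨813, 876, 141, 228, 0⟩, ⟨0, 0, 0, 0, 0⟩⟩

def x4_8 : Inst := ⟨4, false, some false, ⟨642, 656, 861, 922, 0⟩, ⟨642, 1000, 0, 922, 0⟩, ⟨825, 860, 82, 150, 0⟩, ⟨0, 0, 0, 0, 0⟩⟩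

def x4_9 : Inst := ⟨4, false, some false, ⟨762, 1000, 0, 260, 0⟩, ⟨762, 1000, 0, 260, 0⟩, ⟨829, 882, 110, 207, 0⟩, ⟨0, 0, 0, 0, 0⟩⟩

def x4_10 : Inst := ⟨4, false, some false, ⟨674, 964, 222, 658, 0⟩, ⟨674, 1000, 0, 658, 0⟩, ⟨826, 881, 96, 190, 0⟩, ⟨0, 0, 0, 0, 0⟩⟩

def xe_0 : Inst := ⟨3, true, none, ⟨710, 894, 470, 738, 0⟩, ⟨0, 0, 0, 0, 0⟩, ⟨591, 660, 451, 577, 0⟩, ⟨0, 0, 0, 0, 0⟩⟩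

def xe_1 : Inst := ⟨3, true, none, ⟨577, 1000, 0, 612, 0⟩, ⟨0, 0, 0, 0, 0⟩, ⟨577, 711, 361, 538, 0⟩, ⟨0, 0, 0, 0, 0⟩⟩

def xe_2 : Inst := ⟨3, false, none, ⟨573, 1000, 0, 854, 0⟩, ⟨0, 0, 0, 0, 0⟩, ⟨648, 729, 159, 381, 0⟩, ⟨0, 0, 0, 0, 0⟩⟩

def Lx3 : List Inst := [x3_0, x3_1, x3_2, x3_3, x3_4, x3_5, x3_6, x3_7]

def Lx4 : List Inst := [x4_0, x4_1, x4_2, x4_3, x4_4, x4_5, x4_6, x4_7, x4_8, x4_9, x4_10]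

def Lxe : List Inst := [xe_0, xe_1, xe_2]

end Pool.Agent.S5.Fld
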