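import Pool.Agent.S5.E.T.Fin

/-!
# Mixed chains: the fields `harg` and `tab` of block E
-/

set_option autoImplicit false

namespace Pool.Agent.S5.Fld

open Complex
open Pool.Agent.S5.E

/-- `OpenB.harg`. -/
theorem b_harg : ∀ (R : ℕ) (a : ℕ → ℕ) (S : ℕ → Bool), AdmS R a S → ∀ z,
    Zr true (aF R a) (nlF R S) (nrF R S) (E.gC (aF R a) (nlF R S) (nrF R S)) 1 z →
      ∀ i, aF R a i = 2 → -(cos (z i)).im < (cos (z i)).re :=
  fun _ _ _ h z hz i hi => arg_adm h z hz i hi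

/-- `OpenB.tab`. -/
theorem b_tab : ∀ (R : ℕ) (a : ℕ → ℕ) (S : ℕ → Bool), AdmS R a S → ∀ z,
    Zr true (aF R a) (nlF R S) (nrF R S) (E.gC (aF R a) (nlF R S) (nrF R S)) 1 z →
      E.Tab Tfin (nF R a) (nlF R S) (nrF R S) z :=
  fun _ _ _ h z hz => tab_adm h z hz

end Pool.Agent.S5.Fld
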