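import Pool.Agent.S5.I.YXF
import Pool.Agent.S5.Ctx
import Pool.Agent.S5.E.T.PackT

/-!
# The imaginary parts of the critical points of the edges

`yC T = true`: by the regions of the table `T` the imaginary part of the critical point of every edge is
at most `3 / 20` in absolute value, except for the edges between two special `2`'s through their `A` slots.
-/

set_option autoImplicit false

namespace Pool.Agent.S5.YX

open Pool.Agent.S3.NI Pool.Agent.S5.E.B2

/-- The bounds of the imaginary part. -/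
def yim (S : Bool) (r q : E.B2.Rg) (e0 e1 : ℤ) : Bool :=
  Nat.ble 1 r.k0 && (Nat.ble 1 q.k0 && (Nat.ble r.t1 1000 && (Nat.ble q.t1 1000 &&
    (ckE1 S r q e1 && ckE0 S r q e0))))

theorem yim_sound {S : Bool} {r q : E.B2.Rg} {e0 e1 : ℤ} (h : yim S r q e0 e1 = true) {κ c y : ℂ}
    (hκ : E.B2.InR r κ.re (-κ.im)) (hc : E.B2.InR q c.re (-c.im)) (y0 : 0 < y.re)
    (y1 : y.re < 1 / 2) (ht : Complex.tan (Real.pi * y) ^ 2 = 1 / κ ^ 2 + 1 / (G.kp S c) ^ 2 - 1) :
    (e0 : ℝ) / 1000 ≤ y.im ∧ y.im ≤ (e1 : ℝ) / 1000 := by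
  unfold yim at h
  simp only [Bool.and_eq_true] at h
  obtain ⟨r0, q0, r1, q1, he1, he0⟩ := h
  have r0 : 1 ≤ r.k0 := Nat.le_of_ble_eq_true r0
  have q0 : 1 ≤ q.k0 := Nat.le_of_ble_eq_true q0
  have r1 : r.t1 ≤ 1000 := Nat.le_of_ble_eq_true r1
  have q1 : q.t1 ≤ 1000 := Nat.le_of_ble_eq_true q1
  have hκ0 := re_pos hκ r0
  have hc0 := re_pos hc q0
  have tt := tr01 hκ r0 r1
  have uu := tr01 hc q0 q1
  set X : ℝ := 1 / (κ.re ^ 2 + κ.im ^ 2)
  set t : ℝ := -κ.im / κ.re
  set Z : ℝ := 1 / (c.re ^ 2 + c.im ^ 2)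
  set u : ℝ := -c.im / c.re
  have hX : 0 ≤ X := by positivity
  have hZ : 0 ≤ Z := by positivity
  set s : ℂ := 1 / κ ^ 2 + 1 / (G.kp S c) ^ 2 with hs
  have hd : Sdat s y := ⟨y0, y1, ht⟩
  have sre : s.re = X * rc t + Z * rc u := by
    rw [hs, inv_sq_parts hκ0, kp_inv_sq S hc0]
    rfl
  have sim : s.im = X * rs t + sgb S * (Z * rs u) := by
    rw [hs, inv_sq_parts hκ0, kp_inv_sq S hc0]
    rfl
  have rst : 0 ≤ rs t := by unfold rs; have := tt.1; positivity
  have rsu : 0 ≤ rs u := by unfold rs; have := uu.1; positivity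
  -- the mirrored data
  have cre : (starRingEnd ℂ s).re = Z * rc u + X * rc t := by
    rw [Complex.conj_re, sre]
    ring
  have cim : S = false → (starRingEnd ℂ s).im = Z * rs u + sgb false * (X * rs t) := by
    intro hS
    rw [Complex.conj_im, sim, hS]
    show -(X * rs t + (if false = true then (1 : ℝ) else -1) * (Z * rs u)) =
      Z * rs u + (if false = true then (1 : ℝ) else -1) * (X * rs t)
    rw [if_neg (by decide)]
    ring
  have imt : S = true → 0 ≤ y.im := by
    intro hS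
    have h1 : 0 ≤ s.im := by
      rw [sim, hS]
      show 0 ≤ X * rs t + (if true = true then (1 : ℝ) else -1) * (Z * rs u)
      rw [if_pos rfl, one_mul]
      positivity
    obtain ⟨_, _, k3, k4⟩ := tan_parts hd.y0 hd.y1 hd.ht
    have hch := Real.cosh_pos (2 * Real.pi * y.im)
    have h2 : 0 ≤ Real.sinh (2 * Real.pi * y.im) := by
      by_contra hcc
      push Not at hcc
      nlinarith [mul_nonneg h1 hch.le, mul_neg_of_pos_of_neg k3 hcc]
    have h3 := Real.sinh_nonneg_iff.1 h2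
    have hpi := Real.pi_pos
    by_contra hcc
    push Not at hcc
    nlinarith
  have up : ∀ {n : ℕ}, bbf (f2 (EN n).lo) S r q = true → y.im ≤ (n : ℝ) / 1000 :=
    fun {n} hb => im_le_of_Q2 hd (Cl_main (bbf_sound (f2_snd (EN_lo n)) hb hκ hc r0 q0 r1 q1)
      sre sim tt uu)
  have lo : ∀ {n : ℕ}, bbf (f4 (EN n).hi) S r q = true → (n : ℝ) / 1000 ≤ y.im :=
    fun {n} hb => le_im_of_Q4 hd (Cl_main (bbf_sound (f4_snd (EN_hi n)) hb hκ hc r0 q0 r1 q1)
      sre sim tt uu)
  have up' : ∀ {n : ℕ}, S = false → bbf (f2 (EN n).lo) false q r = true → -y.im ≤ (n : ℝ) / 1000 :=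
    fun {n} hS hb => im_le_of_Q2 hd.conj (Cl_main (bbf_sound (f2_snd (EN_lo n)) hb hc hκ q0 r0 q1 r1)
      cre (cim hS) uu tt)
  have lo' : ∀ {n : ℕ}, S = false → bbf (f4 (EN n).hi) false q r = true → (n : ℝ) / 1000 ≤ -y.im :=
    fun {n} hS hb => le_im_of_Q4 hd.conj (Cl_main (bbf_sound (f4_snd (EN_hi n)) hb hc hκ q0 r0 q1 r1)
      cre (cim hS) uu tt)
  exact ⟨ckE0_sound he0 imt (fun n => lo) (fun n => up'), ckE1_sound he1 (fun n => up) (fun n => lo')⟩

end Pool.Agent.S5.YX

namespace Pool.Agent.S5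

open Complex Pool.Agent.S5.YX
open Pool.Agent.S5.E (Vt vL vR types)
open Pool.Agent.S5.E.B2 (InR)
open Pool.Agent.S5.G (kp Sd sy)
open scoped ComplexConjugate

/-- A special `2` seen from its `A` slot. -/
def isx (J : Vt) : Bool := Nat.beq J.a 2 && ((!J.s) && (J.o == some true))

/-- The check of an edge. -/
def yE (T : Vt → Vt → E.B2.Rg) (J I : Vt) : Bool :=
  !(J.ok && I.ok) || ((isx J && isx I) || yim J.s (T J I) (T I J) (-150) 150)

/-- The check of all edges (in one of the two directions). -/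
def yC (T : Vt → Vt → E.B2.Rg) (s : Bool) : Bool :=
  (types s).all fun J => (types s).all fun I => !(Nat.ble J.ix I.ix) || yE T J I

theorem yC_mem {T : Vt → Vt → E.B2.Rg} {s : Bool} (h : yC T s = true) {J I : Vt} (hJ : J.ok = true)
    (hI : I.ok = true) (sJ : J.s = s) (sI : I.s = s) (hx : ¬(isx J = true ∧ isx I = true))
    (hl : J.ix ≤ I.ix) : yim s (T J I) (T I J) (-150) 150 = true := by
  unfold yC at h
  rw [List.all_eq_true] at h
  have h1 := h J (by have := E.mem_types hJ; rwa [sJ] at this)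
  rw [List.all_eq_true] at h1
  have h2 := h1 I (by have := E.mem_types hI; rwa [sI] at this)
  rw [Bool.or_eq_true] at h2
  rcases h2 with h2 | h2
  · exfalso
    rw [Nat.ble_eq_true_of_le hl] at h2
    exact absurd h2 (by simp)
  · unfold yE at h2
    rw [Bool.or_eq_true] at h2
    rcases h2 with h2 | h2
    · exfalso
      rw [hJ, hI] at h2
      exact absurd h2 (by simp)
    · rw [Bool.or_eq_true, Bool.and_eq_true] at h2
      rcases h2 with h2 | h2
      · exact absurd h2 hx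
      · rwa [sJ] at h2

variable {T : Vt → Vt → E.B2.Rg} {R : ℕ} {a : ℕ → ℕ} {S : ℕ → Bool} {r : ℕ → ℤ}
  {z ql qr : ℕ → ℂ} {zF : Fin (R + 1) → ℂ} {K : Cn R}

theorem abs_im_kp (s : Bool) (y : ℂ) : |(kp s y).im| = |y.im| := by
  cases s
  · rw [G.kp_false, conj_im, abs_neg]
  · rw [G.kp_true]

/-- **The imaginary part of the critical point of an edge**, except for the edges between the `A` slots
of two special `2`'s. -/
theorem y_edge (hA : yC T false = true) (hS : yC T true = true) (h : Pre T R a S z ql qr zF)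
    (hg : HG R a S (flO R a S) z ql qr r K) {i : ℕ} (hi : i < R)
    (hx : ¬(isx (vR a S i) = true ∧ isx (vL R a S (i + 1)) = true)) :
    |(sy (qr i) (z i)).im| ≤ 3 / 20 := by
  have hC : yC T (S i) = true := by
    cases hs : S i
    · exact hA
    · exact hS
  have sJ : (vR a S i).s = S i := rfl
  have sI : (vL R a S (i + 1)).s = S i := rfl
  have e1 : (((-150 : ℤ) : ℝ)) / 1000 = -(3 / 20) := by norm_num
  have e2 : (((150 : ℤ) : ℝ)) / 1000 = 3 / 20 := by norm_num
  rcases le_total (vR a S i).ix (vL R a S (i + 1)).ix with hl | hl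
  · have h1 := yC_mem hC (h.ok_r hi) (h.ok_l hi) sJ sI hx hl
    have d := hg.sdr i hi
    obtain ⟨b0, b1⟩ := yim_sound h1 (h.rl hi) (h.rr hi) d.slot.sy_re.1 d.re_lt
      (by rw [d.tan_eq, d.tan_sq])
    rw [e1] at b0
    rw [e2] at b1
    exact abs_le.2 ⟨b0, b1⟩
  · have h1 := yC_mem hC (h.ok_l hi) (h.ok_r hi) sI sJ (fun hh => hx ⟨hh.2, hh.1⟩) hl
    have d := hg.sdl i hi
    obtain ⟨b0, b1⟩ := yim_sound h1 (h.rr hi) (h.rl hi) d.slot.sy_re.1 d.re_lt
      (by rw [d.tan_eq, d.tan_sq])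
    rw [e1] at b0
    rw [e2] at b1
    have h2 := abs_le.2 ⟨b0, b1⟩
    rwa [hg.sy_next i hi, abs_im_kp] at h2

/-- The exceptional edges: two inner `2`'s. -/
theorem isx_R {i : ℕ} (h : isx (vR a S i) = true) : 0 < i ∧ a i = 2 := by
  unfold isx E.vR at h
  simp only [Bool.and_eq_true, Nat.beq_eq] at h
  obtain ⟨h1, -, h3⟩ := h
  constructor
  · by_contra hc
    rw [if_pos (by omega)] at h3
    exact absurd h3 (by simp)
  · omega

theorem isx_L {i : ℕ} (h : isx (vL R a S (i + 1)) = true) : i + 1 ≠ R ∧ a (i + 1) = 2 := by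
  unfold isx E.vL at h
  simp only [Bool.and_eq_true, Nat.beq_eq] at h
  obtain ⟨h1, -, h3⟩ := h
  constructor
  · intro hc
    rw [if_pos hc] at h3
    exact absurd h3 (by simp)
  · omega

/-- **The imaginary parts of the critical points of all edges**, given the bound for the right slots of
the inner nodes with two half twists. -/
theorem y_all (hA : yC T false = true) (hS : yC T true = true) (h : Pre T R a S z ql qr zF)
    (hg : HG R a S (flO R a S) z ql qr r K)
    (h2 : ∀ i, i + 1 < R → a (i + 1) = 2 → |(sy (qr (i + 1)) (z (i + 1))).im| ≤ 3 / 20) :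
    ∀ i, i < R → |(sy (qr i) (z i)).im| ≤ 3 / 20 := by
  intro i hi
  by_cases hx : isx (vR a S i) = true ∧ isx (vL R a S (i + 1)) = true
  · obtain ⟨h3, h4⟩ := isx_R hx.1
    obtain ⟨j, rfl⟩ : ∃ j, i = j + 1 := ⟨i - 1, by omega⟩
    exact h2 j hi h4
  · exact y_edge hA hS h hg hi hx

end Pool.Agent.S5
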