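import Pool.Agent.S5.K.GenE
import Pool.Agent.S5.I.FlA

/-!
# Nodes with two half twists: the statement of the node from the certificates and the flats
-/

set_option autoImplicit false

namespace Pool.Agent.S5

open Complex


theorem VClH.swap {n : Nt} {sa sb : Slt} (h : VClH n sa sb) : VClH n sb sa where
  U := by
    intro a b wa wb pa pb fa fb ia ib
    rw [Ecl_symm]
    rcases h.U b a wb wa pb pa fb fa ib ia with k | ⟨k1, k2, k3, k4⟩
    · left
      linarith
    · exact Or.inr ⟨k2, k1, k4, k3⟩
  Ta := by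
    intro a b wa wb pb h1 h2 h3 h4 h5
    have := h.Tb b a wb wa pb h1 h2 h4 h3 (by rwa [add_comm])
    rw [Ecl_symm]
    linarith
  Tb := by
    intro a b wa wb pb h1 h2 h3 h4 h5
    have := h.Ta b a wb wa pb h1 h2 h4 h3 (by rwa [add_comm])
    rw [Ecl_symm]
    linarith
  quad := by
    obtain ⟨c, hc, ρ, hρ, k⟩ := h.quad
    refine ⟨c, hc, ρ, hρ, fun s t hs ht es et => ?_⟩
    rw [Ecl_symm]
    have := k t s ht hs et es
    linarith

namespace K

/-- **The statement of an inner node with two half twists.** -/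
theorem GoN.vclH {n : Nt} {sa sb : Slt} (h : GoN n sa sb) (hf : FlatH n sa sb) :
    VClH n sa sb where
  U := by
    intro a b wa wb pa pb fa fb ia ib
    by_cases hc : Pc.isF pa ∧ Pc.isF pb
    · exact hf.U a b wa wb pa pb hc.1 hc.2 ia ib
    · exact Or.inl (h.U a b wa wb pa pb fa fb ia ib hc)
  Ta := h.Ta
  Tb := h.Tb
  quad := hf.quad

/-- **The statement of an end with two half twists.** -/
theorem GoE.vclH {n : Nt} {sa sb : Slt} (h : GoE n sb) (hf : FlatH n sa sb) (ha : sa.ex = false)
    (hya : sa.ys = 1 / 2) : VClH n sa sb where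
  U := by
    intro a b wa wb pa pb fa fb ia ib
    have ia' : pa = .F ∧ a = 1 / 2 ∧ wa = 0 := by
      have := ia
      unfold Slt.In at this
      rwa [if_neg (by rw [ha]; simp)] at this
    by_cases hc : Pc.isF pb
    · exact hf.U a b wa wb pa pb (Or.inl ia'.1) hc ia ib
    · left
      have r := h.U b wb pb fb ib hc
      have e : sa.e n pa a wa = 0 := by
        unfold Slt.e
        rw [if_neg (by rw [ha]; simp)]
      rw [e, ia'.2.1, hya]
      linarith
  Ta := by
    intro a b wa wb pb h1
    rw [ha] at h1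
    exact absurd h1 (by simp)
  Tb := by
    intro a b wa wb pa h1 h2 h3 h4 h5
    have ia' : pa = .F ∧ a = 1 / 2 ∧ wa = 0 := by
      unfold Slt.In at h3
      rwa [if_neg (by rw [ha]; simp)] at h3
    have := h.T b wb h4
    have e : sa.e n pa a wa = 0 := by
      unfold Slt.e
      rw [if_neg (by rw [ha]; simp)]
    rw [e, ia'.2.1, hya]
    linarith
  quad := hf.quad

end K

end Pool.Agent.S5
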