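import Pool.Agent.S5.I.YB3
import Pool.Agent.S5.Ctx
import Pool.Agent.S5.E.T.PackT

/-!
# Rectangles for the critical points of closed nodes: tables

`Yd`: rectangles and certificates of the closed types. `ybK T d J = true`: all rectangles of the type
`J` are correct for the regions of the table `T`.
-/

set_option autoImplicit false

namespace Pool.Agent.S5.YB

open Complex Pool.Agent.S5.F Pool.Agent.S5.K
open Pool.Agent.S5.E (Vt types)
open Pool.Agent.S5.E.B2 (InR)
open Pool.Agent.S5.G (kp Sd sy)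

/-- A rectangle. -/
structure Rc where
  wl : ℕ
  wh : ℕ
  el : ℕ
  eh : ℕ

/-- The point `y = 1 / 2 - p + i h` is in the rectangle. -/
structure InRc (c : Rc) (y : ℂ) : Prop where
  wl : (c.wl : ℝ) ≤ 4096 * tw (1 / 2 - y.re)
  wh : 4096 * tw (1 / 2 - y.re) ≤ c.wh
  el : (c.el : ℝ) ≤ 4096 * ex y.im
  eh : 4096 * ex y.im ≤ c.eh

/-- A rectangle packed into a number. -/
def rcW (w : ℕ) : Rc :=
  ⟨Nat.land w 16383, Nat.land (Nat.shiftRight w 14) 16383, Nat.land (Nat.shiftRight w 28) 16383,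
    Nat.land (Nat.shiftRight w 42) 16383⟩

/-- Rectangles and certificates of the types `2AA`, `2AS`, `2SA`. -/
structure Yd where
  rAA : ℕ
  rAS : ℕ
  rSA : ℕ
  cAA : List ℕ
  cAS : List ℕ
  cSA : List ℕ

/-- The rectangle of the slot of `J` (closed) towards `I`. -/
def Yd.rc (d : Yd) (J I : Vt) : Rc :=
  rcW (Nat.shiftRight (bif J.s then d.rSA else bif J.o == some true then d.rAS else d.rAA)
    (Nat.mul 56 I.ix))

def Yd.cd (d : Yd) (J I : Vt) : ℕ :=
  (bif J.s then d.cSA else bif J.o == some true then d.cAS else d.cAA).getD I.ix 0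

/-- The check of an edge. -/
noncomputable def ybE (T : Vt → Vt → E.B2.Rg) (d : Yd) (J I : Vt) : Bool :=
  (fun (r q : E.B2.Rg) (c : Rc) (z : ℕ) =>
    ybC J.s r.k0 r.k1 r.t0 r.t1 q.k0 q.k1 q.t0 q.t1 c.wl c.wh c.el c.eh z) (T J I) (T I J) (d.rc J I)
      (d.cd J I)

/-- The check of all neighbours. -/
noncomputable def ybK (T : Vt → Vt → E.B2.Rg) (d : Yd) (J : Vt) : Bool :=
  (types J.s).all fun I => !I.ok || ybE T d J I

/-- All checks. -/
structure YbOK (T : Vt → Vt → E.B2.Rg) (d : Yd) : Prop where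
  aa : ybK T d ⟨2, false, some false⟩ = true
  as : ybK T d ⟨2, false, some true⟩ = true
  sa : ybK T d ⟨2, true, some false⟩ = true

theorem YbOK.edge {T : Vt → Vt → E.B2.Rg} {d : Yd} (h : YbOK T d) {J I : Vt} (hJ : J.ok = true)
    (h2 : J.a = 2) (ho : J.o ≠ none) (hI : I.ok = true) (hs : I.s = J.s) : ybE T d J I = true := by
  have key : ybK T d J = true := by
    obtain ⟨a, s, o⟩ := J
    obtain rfl : a = 2 := h2
    rcases o with _ | _ | _
    · exact absurd rfl ho
    · cases s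
      · exact h.aa
      · exact h.sa
    · cases s
      · exact h.as
      · exfalso
        revert hJ
        decide
  unfold ybK at key
  rw [List.all_eq_true] at key
  have h1 := key I (by have := E.mem_types hI; rwa [hs] at this)
  rw [Bool.or_eq_true] at h1
  rcases h1 with h1 | h1
  · exfalso
    rw [hI] at h1
    exact absurd h1 (by simp)
  · exact h1

/-- A region as a condition of the slot. -/
theorem pol_of {r : E.B2.Rg} {c : ℂ} (S : Bool) (h : InR r c.re (-c.im)) (h0 : 0 < c.re) :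
    Pol S r.k0 r.k1 r.t0 r.t1 (kp S c) := by
  cases S
  · rw [G.kp_false]
    refine ⟨?_, ?_, ?_, ?_, ?_⟩
    · rw [conj_re]; exact h0
    · rw [conj_re, conj_im]; exact h.lo
    · rw [conj_re, conj_im]; exact h.hi
    · rw [conj_re, conj_im, if_neg (by decide)]; exact h.a0
    · rw [conj_re, conj_im, if_neg (by decide)]; exact h.a1
  · rw [G.kp_true]
    refine ⟨h0, ?_, ?_, ?_, ?_⟩
    · have := h.lo
      rwa [neg_sq] at this
    · have := h.hi
      rwa [neg_sq] at this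
    · rw [if_pos rfl]; exact h.a0
    · rw [if_pos rfl]; exact h.a1

theorem pol_own {r : E.B2.Rg} {c : ℂ} (h : InR r c.re (-c.im)) (h0 : 0 < c.re) :
    Pol true r.k0 r.k1 r.t0 r.t1 c := by
  have := pol_of true h h0
  rwa [G.kp_true] at this

/-- The relation of a slot. -/
theorem Sd_rel {s : Bool} {c q z : ℂ} (h : Sd s c q z) :
    (1 / (cos z) ^ 2 + 1 / (kp s c) ^ 2) * (1 + exp (-(2 * Real.pi * I * sy q z))) ^ 2 =
      4 * exp (-(2 * Real.pi * I * sy q z)) := by
  have h1 := h.tan_eq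
  have h2 := h.tan_sq
  rw [← h1] at h2
  have hc : cos (Real.pi * sy q z) ≠ 0 := by
    intro h0
    have hy0 := h.slot.sy_re.1
    have hy1 := h.re_lt
    rw [Complex.cos_eq_zero_iff] at h0
    obtain ⟨k, hk⟩ := h0
    have hpi := Real.pi_pos
    have h3 := congrArg re hk
    have e1 : ((Real.pi : ℂ) * sy q z).re = Real.pi * (sy q z).re := by
      rw [mul_re, ofReal_re, ofReal_im, zero_mul, sub_zero]
    have e2 : ((2 * (k : ℂ) + 1) * Real.pi / 2).re = (2 * k + 1) * Real.pi / 2 := by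
      have : ((2 * (k : ℂ) + 1) * Real.pi / 2) = (((2 * k + 1) * Real.pi / 2 : ℝ) : ℂ) := by
        push_cast
        ring
      rw [this, ofReal_re]
    rw [e1, e2] at h3
    have h4 : 2 * (sy q z).re = 2 * k + 1 := by
      have h5 : Real.pi * (2 * (sy q z).re) = Real.pi * (2 * k + 1) := by linarith
      exact mul_left_cancel₀ hpi.ne' h5
    have h6 : (0 : ℝ) < 2 * k + 1 := by linarith
    have h7 : (2 * k + 1 : ℝ) < 1 := by linarith
    have h8 : (0 : ℤ) < 2 * k + 1 := by exact_mod_cast h6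
    have h9 : (2 * k + 1 : ℤ) < 1 := by exact_mod_cast h7
    omega
  have hs : 1 / (cos z) ^ 2 + 1 / (kp s c) ^ 2 = 1 / cos (Real.pi * sy q z) ^ 2 := by
    have h3 : 1 / (cos z) ^ 2 + 1 / (kp s c) ^ 2 = 1 + tan (Real.pi * sy q z) ^ 2 := by
      rw [h2]
      ring
    rw [h3, tan_eq_sin_div_cos, div_pow]
    have h4 := sin_sq_add_cos_sq (Real.pi * sy q z)
    field_simp
    linear_combination h4
  rw [hs]
  have e2 : (1 + exp (-(2 * Real.pi * I * sy q z))) ^ 2 =
      4 * exp (-(2 * Real.pi * I * sy q z)) * Complex.cos (Real.pi * sy q z) ^ 2 := cos_rel _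
  rw [e2]
  field_simp

end Pool.Agent.S5.YB

namespace Pool.Agent.S5

open Complex Pool.Agent.S5.YB Pool.Agent.S5.K
open Pool.Agent.S5.E (Vt vL vR types)
open Pool.Agent.S5.E.B2 (InR)
open Pool.Agent.S5.G (kp Sd sy)

variable {T : Vt → Vt → E.B2.Rg} {R : ℕ} {a : ℕ → ℕ} {S : ℕ → Bool} {r : ℕ → ℤ}
  {z ql qr : ℕ → ℂ} {zF : Fin (R + 1) → ℂ} {K : Cn R} {d : Yd}

theorem vR_o {i : ℕ} (h : 0 < i) : (vR a S i).o ≠ none := by
  unfold E.vR
  rw [if_neg (by omega)]
  simp

theorem vL_o {i : ℕ} (h : i + 1 < R) : (vL R a S (i + 1)).o ≠ none := by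
  unfold E.vL
  rw [if_neg (by omega)]
  simp

/-- **The rectangle of the right slot of a closed node.** -/
theorem Pre.yb_r (hd : YbOK T d) (h : Pre T R a S z ql qr zF) (hg : HG R a S (flO R a S) z ql qr r K)
    {i : ℕ} (h0 : 0 < i) (hi : i < R) (h2 : a i = 2) :
    InRc (d.rc (vR a S i) (vL R a S (i + 1))) (sy (qr i) (z i)) := by
  have he : ybE T d (vR a S i) (vL R a S (i + 1)) = true :=
    hd.edge (h.ok_r hi) (by unfold E.vR; simp [h2]) (vR_o h0) (h.ok_l hi) rfl
  have ds := hg.sdr i hi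
  have c0 : 0 < (cos (z i)).re := (hg.crt.cosz i hi.le).1
  have c1 : 0 < (cos (z (i + 1))).re := (hg.crt.cosz (i + 1) hi).1
  obtain ⟨b1, b2, b3, b4⟩ := ybC_ok he ds.slot.sy_re.1 ds.re_lt (pol_own (h.rl hi) c0)
    (pol_of (S i) (h.rr hi) c1) (Sd_rel ds)
  exact ⟨b1, b2, b3, b4⟩

/-- **The rectangle of the left slot of a closed node.** -/
theorem Pre.yb_l (hd : YbOK T d) (h : Pre T R a S z ql qr zF) (hg : HG R a S (flO R a S) z ql qr r K)
    {i : ℕ} (hi : i + 1 < R) (h2 : a (i + 1) = 2) :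
    InRc (d.rc (vL R a S (i + 1)) (vR a S i)) (sy (ql (i + 1)) (z (i + 1))) := by
  have he : ybE T d (vL R a S (i + 1)) (vR a S i) = true :=
    hd.edge (h.ok_l (by omega)) (by unfold E.vL; simp [h2]) (vL_o hi) (h.ok_r (by omega)) rfl
  have ds := hg.sdl i (by omega)
  have c0 : 0 < (cos (z i)).re := (hg.crt.cosz i (by omega)).1
  have c1 : 0 < (cos (z (i + 1))).re := (hg.crt.cosz (i + 1) hi.le).1
  obtain ⟨b1, b2, b3, b4⟩ := ybC_ok he ds.slot.sy_re.1 ds.re_lt (pol_own (h.rr (by omega)) c1)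
    (pol_of (S i) (h.rl (by omega)) c0) (Sd_rel ds)
  exact ⟨b1, b2, b3, b4⟩

/-- The right neighbour. -/
theorem Pre.pol_r (h : Pre T R a S z ql qr zF) (hg : HG R a S (flO R a S) z ql qr r K) {i : ℕ}
    (hi : i < R) : Pol (S i) (T (vL R a S (i + 1)) (vR a S i)).k0 (T (vL R a S (i + 1)) (vR a S i)).k1
      (T (vL R a S (i + 1)) (vR a S i)).t0 (T (vL R a S (i + 1)) (vR a S i)).t1
      (kp (S i) (cos (z (i + 1)))) :=
  pol_of (S i) (h.rr hi) (hg.crt.cosz (i + 1) hi).1

/-- The left neighbour. -/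
theorem Pre.pol_l (h : Pre T R a S z ql qr zF) (hg : HG R a S (flO R a S) z ql qr r K) {i : ℕ}
    (hi : i < R) : Pol (S i) (T (vR a S i) (vL R a S (i + 1))).k0 (T (vR a S i) (vL R a S (i + 1))).k1
      (T (vR a S i) (vL R a S (i + 1))).t0 (T (vR a S i) (vL R a S (i + 1))).t1
      (kp (S i) (cos (z i))) :=
  pol_of (S i) (h.rl hi) (hg.crt.cosz i hi.le).1

/-- The node itself, seen from its right slot. -/
theorem Pre.own_r (h : Pre T R a S z ql qr zF) (hg : HG R a S (flO R a S) z ql qr r K) {i : ℕ}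
    (hi : i < R) : Pol true (T (vR a S i) (vL R a S (i + 1))).k0 (T (vR a S i) (vL R a S (i + 1))).k1
      (T (vR a S i) (vL R a S (i + 1))).t0 (T (vR a S i) (vL R a S (i + 1))).t1 (cos (z i)) :=
  pol_own (h.rl hi) (hg.crt.cosz i hi.le).1

/-- The node itself, seen from its left slot. -/
theorem Pre.own_l (h : Pre T R a S z ql qr zF) (hg : HG R a S (flO R a S) z ql qr r K) {i : ℕ}
    (hi : i < R) : Pol true (T (vL R a S (i + 1)) (vR a S i)).k0 (T (vL R a S (i + 1)) (vR a S i)).k1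
      (T (vL R a S (i + 1)) (vR a S i)).t0 (T (vL R a S (i + 1)) (vR a S i)).t1
      (cos (z (i + 1))) :=
  pol_own (h.rr hi) (hg.crt.cosz (i + 1) hi).1

end Pool.Agent.S5
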