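import Pool.Agent.S5.Fld.YB9
import Pool.Agent.S5.I.F16
import Pool.Agent.S5.I.FlB

/-!
# Flats of closed nodes: the constants next to the ends, the certificates
-/

set_option autoImplicit false

namespace Pool.Agent.S5.F

open Pool.Agent.S5.E (Vt adm types mem_types)

/-- The types of a node between an `A` edge and an `S` edge. -/
def vA : Vt := ⟨2, false, some true⟩
def vS : Vt := ⟨2, true, some false⟩

/-- The check of a pair of neighbours. -/
def ckG (fi : Dt → Bool) (I K : Vt) (z : ℕ) : Bool :=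
  !(I.ok && (K.ok && adm vA I K)) || (clOK (clOf d9 vA I vS K) &&
    certG fi (prOf E.Tfin vA I vS K) 60 (clOf d9 vA I vS K) z)

theorem ckG_sound {fi : Dt → Bool} {Q : ℝ → ℝ → ℝ → ℝ → Prop}
    (hf : ∀ (d : Dt) (p h q g : ℝ), fi d = true → DtOK d p h q g → Pos p q → Q p h q g)
    {I K : Vt} {z : ℕ} (h : ckG fi I K z = true) (hI : I.ok = true) (hK : K.ok = true)
    (ha : adm vA I K = true) {ya yb : ℂ} (N : Nh E.Tfin d9 vA I vS K ya yb) :
    Q (1 / 2 - ya.re) ya.im (1 / 2 - yb.re) yb.im := by
  unfold ckG at h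
  rw [hI, hK, ha] at h
  simp only [Bool.and_self, Bool.not_true, Bool.false_or, Bool.and_eq_true] at h
  obtain ⟨bl, br, k, H, -⟩ := N.hyp
  exact certG_sound hf h.2 (N.mem h.1) N.pos H

set_option maxRecDepth 100000 in
theorem k4_all : ((types false).all fun I => ckG fe4 I ⟨4, true, none⟩
    (bif Nat.beq I.a 2 && I.o == some true then 0x12bd780c06c05e0301780b9809 else 4)) = true := by
  decide +kernel

set_option maxRecDepth 100000 in
theorem k3_all : ((types false).all fun I => ckG fe3 I ⟨3, true, none⟩ 4) = true := by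
  decide +kernel

/-- The constant next to the end with four half twists. -/
theorem eb4 {I : Vt} (hI : I.ok = true) (hs : I.s = false) (ha : adm vA I ⟨4, true, none⟩ = true)
    {ya yb : ℂ} (N : Nh E.Tfin d9 vA I vS ⟨4, true, none⟩ ya yb) :
    EB 2 (4 / 25) (1 / 2 - ya.re) ya.im (1 / 2 - yb.re) yb.im := by
  have hm := mem_types hI
  rw [hs] at hm
  exact ckG_sound (fun d p h q g h1 h2 h3 => fe4_sound h1 h2 h3) ((List.all_eq_true.1 k4_all) I hm)
    hI (by decide) ha N

/-- The constant next to the end with three half twists. -/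
theorem eb3 {I : Vt} (hI : I.ok = true) (hs : I.s = false) (ha : adm vA I ⟨3, true, none⟩ = true)
    {ya yb : ℂ} (N : Nh E.Tfin d9 vA I vS ⟨3, true, none⟩ ya yb) :
    EB 1 (1 / 20) (1 / 2 - ya.re) ya.im (1 / 2 - yb.re) yb.im := by
  have hm := mem_types hI
  rw [hs] at hm
  exact ckG_sound (fun d p h q g h1 h2 h3 => fe3_sound h1 h2 h3) ((List.all_eq_true.1 k3_all) I hm)
    hI (by decide) ha N

end Pool.Agent.S5.F
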