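import Pool.Agent.S5.Fld.YD9

/-!
# Rectangles for the critical points of closed nodes: the check for the final table
-/

set_option autoImplicit false

namespace Pool.Agent.S5

open Pool.Agent.S5.YB

set_option maxRecDepth 100000 in
theorem d9_aa : ybK E.Tfin d9 ⟨2, false, some false⟩ = true := by decide +kernel

set_option maxRecDepth 100000 in
theorem d9_as : ybK E.Tfin d9 ⟨2, false, some true⟩ = true := by decide +kernel

set_option maxRecDepth 100000 in
theorem d9_sa : ybK E.Tfin d9 ⟨2, true, some false⟩ = true := by decide +kernel

/-- The rectangles `d9` hold for the final table. -/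
theorem d9_ok : YbOK E.Tfin d9 := ⟨d9_aa, d9_as, d9_sa⟩

end Pool.Agent.S5
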