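import Pool.Agent.S5.Fld.Flat2
import Pool.Agent.S5.Fld.FlK
import Pool.Agent.S5.I.FC5
import Pool.Agent.S5.I.FD19
import Pool.Agent.S5.I.F20

/-!
# Flats of inner nodes with two half twists: all pairs of neighbours
-/

set_option autoImplicit false

namespace Pool.Agent.S5.F

open Complex Set Pool.Agent.S5.C2 Pool.Agent.S3
open Pool.Agent.S5.E (Vt vL vR adm)

/-- The pair for which the node itself is used. -/
def X2 (IA IB : Vt) : Prop := IA = ⟨2, false, none⟩ ∧ IB = ⟨3, true, none⟩

/-- The neighbours next to an end with three half twists (`S` edge). -/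
theorem adm_3S {I : Vt} (hk : I.ok = true) (hs : I.s = false)
    (h : adm ⟨2, false, some true⟩ I ⟨3, true, none⟩ = true) :
    I = ⟨2, false, some true⟩ ∨ I = ⟨2, false, none⟩ := by
  obtain ⟨a, s, o⟩ := I
  have hs' : s = false := hs
  subst hs'
  unfold Vt.ok at hk
  simp only [Bool.and_eq_true, Nat.ble_eq] at hk
  obtain ⟨h1, h2, -⟩ := hk
  revert h
  interval_cases a <;> rcases o with _ | _ | _ <;> decide

/-- **All pairs of neighbours.** -/
theorem chk2 : Chk (fun JA IA JB IB => CF E.Tfin d9 JA IA JB IB ∨ X2 IA IB) where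
  AA := by
    have key : ∀ I I' : Vt, I'.s = false →
        C92 ⟨2, false, some false⟩ I ⟨2, false, some false⟩ I' →
        CF E.Tfin d9 ⟨2, false, some false⟩ I ⟨2, false, some false⟩ I' := by
      intro I I' hs hc ya yb N
      refine ⟨fun _ => hc.full N, fun h => hc.a3 N h, fun h => hc.b3 N h, fun h => ?_, fun h => ?_⟩
      · rw [h] at hs
        exact absurd hs (by decide)
      · rw [h] at hs
        exact absurd hs (by decide)
    intro I I' hk hk' hs hs'
    rcases C92_AA hk hk' hs hs' with h | h
    · exact Or.inl (Or.inl (key I I' hs' h))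
    · exact Or.inr (Or.inl (key I' I hs h))
  AS := by
    intro I I' hk hk' hs hs' ha
    by_cases h3 : I' = ⟨3, true, none⟩
    · subst h3
      rcases adm_3S hk hs ha with h | h
      · subst h
        left
        intro ya yb N
        refine ⟨fun h => absurd rfl h, fun h => absurd h (by decide), fun h => absurd h (by decide),
          fun h => absurd h (by decide), fun _ => ⟨by decide, C21.flat c21_2AS N, eb3 hk hs ha N⟩⟩
      · exact Or.inr ⟨h, rfl⟩
    · left
      have hc := C92_AS hk hk' hs hs' ha h3
      intro ya yb N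
      refine ⟨fun _ => hc.full N, fun h => hc.a3 N h, fun h => hc.b3 N h, fun h => ?_,
        fun h => absurd h h3⟩
      subst h
      exact eb4 hk hs ha N

variable {R : ℕ} {a : ℕ → ℕ} {S : ℕ → Bool} {r : ℕ → ℤ} {z ql qr : ℕ → ℂ} {zF : Fin (R + 1) → ℂ}

/-- **The flats of an inner node with two half twists.** -/
theorem flat_i2 (h : Ctx E.Tfin R a S r z ql qr zF) {i : ℕ} (hi : i + 1 < R) (ha : a (i + 1) = 2) :
    FlatH (ntG R a (i + 1)) (slL R a S z ql (i + 1)) (slR R a S z qr (i + 1)) := by
  have ad : adm ⟨2, false, some true⟩ ⟨2, false, none⟩ ⟨3, true, none⟩ = true := by decide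
  refine flat_i2_of d9_ok chk2 h hi ha ?_ ?_
  · rintro ⟨e1, e2⟩ N
    have f := fl21_23d h hi ha e1 e2
    have j1 : vL R a S (i + 1) = vA := by
      rw [Pre.vL_inner hi, ha]
      have g1 : S i = false := congrArg Vt.s e1
      have g2 : S (i + 1) = true := congrArg Vt.s e2
      rw [g1, g2]
      rfl
    have j2 : vR a S (i + 1) = vS := by
      rw [Pre.vR_inner, ha]
      have g1 : S i = false := congrArg Vt.s e1
      have g2 : S (i + 1) = true := congrArg Vt.s e2
      rw [g1, g2]
      rfl
    rw [e1, e2, j1, j2] at N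
    rw [e1, e2]
    exact ⟨fun h => absurd rfl h, fun h => absurd h (by decide), fun h => absurd h (by decide),
      fun h => absurd h (by decide), fun _ => ⟨by decide, f, eb3 (by decide) rfl ad N⟩⟩
  · rintro ⟨e2, e1⟩ N
    have f := fl21_32d h hi ha e1 e2
    have j1 : vR a S (i + 1) = vA := by
      rw [Pre.vR_inner, ha]
      have g1 : S i = true := congrArg Vt.s e1
      have g2 : S (i + 1) = false := congrArg Vt.s e2
      rw [g1, g2]
      rfl
    have j2 : vL R a S (i + 1) = vS := by
      rw [Pre.vL_inner hi, ha]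
      have g1 : S i = true := congrArg Vt.s e1
      have g2 : S (i + 1) = false := congrArg Vt.s e2
      rw [g1, g2]
      rfl
    rw [e1, e2, j1, j2] at N
    rw [e1, e2]
    exact ⟨fun h => absurd rfl h, fun h => absurd h (by decide), fun h => absurd h (by decide),
      fun h => absurd h (by decide), fun _ => ⟨by decide, f, eb3 (by decide) rfl ad N⟩⟩

end Pool.Agent.S5.F
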