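import Pool.Agent.S5.I.FlA
import Pool.Agent.S5.I.QuadE
import Pool.Agent.S5.I.Y3T
import Pool.Agent.S5.I.Y3D
import Pool.Agent.S5.Fld.YBT
import Pool.Agent.S5.E.T.TabF

/-!
# The flats of an end with two half twists
-/

set_option autoImplicit false

namespace Pool.Agent.S5.Fe2

open MeasureTheory Filter Topology Set Complex Pool.Agent.S5.C2 Pool.Agent.S5.F
  Pool.Agent.H63.VC3 Pool.Agent.S3
open Pool.Agent.S5.G (kp Sd sy)
open Pool.Agent.S5.E (Vt vL vR)

/-! ### The defect -/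

theorem conc {s : ℝ} (hs : 0 ≤ s) : 3 * Lq s (1 / 3) < 2 * Lq s (1 / 2) + Lq s (1 / 4) := by
  rw [Lq_eq, Lq_eq, Lq_eq, Sn_third, Sn_half, Sn_quarter]
  have k : (4 * (3 / 4 + s)) ^ 3 < (4 * (1 + s)) ^ 2 * (4 * (1 / 2 + s)) := by
    have e : (4 * (1 + s)) ^ 2 * (4 * (1 / 2 + s)) - (4 * (3 / 4 + s)) ^ 3 =
        5 + 20 * s + 16 * s ^ 2 := by ring
    have : 0 < 5 + 20 * s + 16 * s ^ 2 := by positivity
    linarith
  have h := Real.log_lt_log (by positivity) k
  rw [Real.log_mul (by positivity) (by positivity), Real.log_pow, Real.log_pow] at h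
  push_cast at h
  linarith

theorem Lq_mono' {s t t' : ℝ} (hs : 0 ≤ s) (h0 : 0 < Sn t) (h : Sn t ≤ Sn t') : Lq s t ≤ Lq s t' :=
  Lq_mono_t hs (by linarith) h

/-- **The defect on `[0, 3 / 4]`.** -/
theorem Dq34 {s p0 p : ℝ} (hs : 0 ≤ s) (h0 : 0 < p0) (h1 : p0 ≤ 1 / 3) (hp : 0 ≤ p)
    (hp' : p ≤ 3 / 4) (hne : p ≠ p0) : 0 < Dq s p0 p := by
  rcases le_total p (1 / 2) with h | h
  · exact Y3.Dq_pos hs h0 (by linarith) hp h hne
  · have hSp : 0 < Sn p0 := Sn_pos h0 (by linarith)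
    have hD : 0 < Dq s p0 (1 / 2) :=
      Y3.Dq_pos hs h0 (by linarith) (by norm_num) le_rfl (by intro h9; linarith)
    have pos : ∀ b, 1 / 2 ≤ b → b ≤ 1 - p0 → 0 ≤ ∫ t in (1 / 2 : ℝ)..b, (Lq s t - Lq s p0) := by
      intro b hb hb'
      apply intervalIntegral.integral_nonneg hb
      intro t ht
      have := Lq_mono' (s := s) (t := p0) (t' := t) hs hSp
        (Sn_ge h0.le (by linarith [ht.1]) (by linarith [ht.2]))
      linarith
    rcases le_total p (1 - p0) with hc | hc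
    · have e := Dq_sub hs p0 (1 / 2) p
      have := pos p h hc
      linarith
    · -- the two halves
      have e1 := Dq_sub hs p0 (1 / 2) (1 - p0)
      have e2 : Dq s (1 - p0) (1 / 2) = -Dq s p0 (1 / 2) := by
        have := Y3.Dq_refl s p0 (1 / 2)
        rw [show (1 : ℝ) - 1 / 2 = 1 / 2 by norm_num] at this
        exact this
      have e3 : Dq s (1 - p0) (1 / 2) = -∫ t in (1 / 2 : ℝ)..(1 - p0), (Lq s t - Lq s p0) := by
        rw [← intervalIntegral.integral_symm]
        unfold Dq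
        rw [Lq_one_sub]
      -- the end
      have e4 := Dq_sub hs p0 (1 - p0) p
      have e5 : (p - (1 - p0)) * (Lq s (1 / 4) - Lq s p0) ≤
          ∫ t in (1 - p0)..p, (Lq s t - Lq s p0) := by
        have k : ∫ _t in (1 - p0)..p, (Lq s (1 / 4) - Lq s p0) ≤
            ∫ t in (1 - p0)..p, (Lq s t - Lq s p0) := by
          apply intervalIntegral.integral_mono_on hc (by simp) ((Lq_int hs _ _).sub (by simp))
          intro t ht
          have := Lq_mono' (s := s) (t := 1 / 4) (t' := t) hs (Sn_pos (by norm_num) (by norm_num))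
            (Sn_ge (by norm_num) (by linarith [ht.1]) (by linarith [ht.2]))
          linarith
        rw [intervalIntegral.integral_const, smul_eq_mul] at k
        exact k
      -- the trapezoid
      have hq : 1 / 4 ≤ p0 := by linarith
      have s4 : (1 : ℝ) / 2 ≤ Sn p0 := by
        rw [← Sn_quarter]
        exact Sn_mono (by norm_num) hq (by linarith)
      have k6 : (1 / 2 - p0) * ((Lq s p0 + Lq s (1 / 2)) / 2) ≤ ∫ t in p0..(1 / 2), Lq s t := by
        apply Y3.trapG hs h0 (by linarith) (by norm_num)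
        · nlinarith
        · rw [Sn_half]
          linarith
      have k7 : Dq s p0 (1 / 2) = (∫ t in p0..(1 / 2), Lq s t) - (1 / 2 - p0) * Lq s p0 := by
        unfold Dq
        rw [intervalIntegral.integral_sub (Lq_int hs _ _) (by simp),
          intervalIntegral.integral_const, smul_eq_mul]
      have m1 : Lq s (1 / 4) ≤ Lq s p0 := Lq_mono' hs (Sn_pos (by norm_num) (by norm_num))
        (Sn_mono (by norm_num) hq (by linarith))
      have m2 : Lq s p0 ≤ Lq s (1 / 3) := Lq_mono' hs hSp (Sn_mono h0.le h1 (by norm_num))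
      have m3 : Lq s (1 / 3) ≤ Lq s (1 / 2) := Lq_mono' hs (Sn_pos (by norm_num) (by norm_num))
        (Sn_mono (by norm_num) (by norm_num) (by norm_num))
      have m4 := conc hs
      have n1 : 1 / 6 * (Lq s (1 / 2) - Lq s (1 / 3)) ≤ (1 / 2 - p0) * (Lq s (1 / 2) - Lq s p0) :=
        mul_le_mul (by linarith) (by linarith) (by linarith) (by linarith)
      have n2 : (p - (1 - p0)) * (Lq s p0 - Lq s (1 / 4)) ≤
          1 / 12 * (Lq s (1 / 3) - Lq s (1 / 4)) :=
        mul_le_mul (by linarith) (by linarith) (by linarith) (by norm_num)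
      nlinarith

/-! ### The critical point -/

theorem cos_re_mk (A B : ℝ) : (cos ((A : ℂ) + (B : ℂ) * I)).re = Real.cos A * Real.cosh B := by
  rw [Complex.cos_add_mul_I, sub_re, ← ofReal_cos, ← ofReal_cosh, ← ofReal_sin, ← ofReal_sinh,
    ← ofReal_mul, ← ofReal_mul, re_ofReal_mul, I_re, mul_zero, ofReal_re, sub_zero]

/-- **The critical point of an end with two half twists.** -/
theorem p_le {c q z : ℂ} (hs : Sd false c q z) (he : 2 * z = Real.pi + I * q)
    (hN : c.re ^ 2 + (-c.im) ^ 2 ≤ 1) : 1 / 2 - (sy q z).re ≤ 1 / 3 := by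
  have hpi := Real.pi_pos
  by_contra hc
  rw [not_le] at hc
  have hy0 := hs.slot.sy_re.1
  obtain ⟨b, hb⟩ : ∃ b, b = kp false c := ⟨_, rfl⟩
  have hbr : b.re = c.re := by rw [hb]; simp
  have hbi : b.im = -c.im := by rw [hb]; simp
  have hx := hs.c0
  have hv := hs.c1
  have hvx := hs.c2
  have hb0 : b ≠ 0 := fun h => by
    rw [h] at hbr
    simp at hbr
    linarith
  have zi := hs.zi
  have hcz : cos z ≠ 0 := by
    intro h
    rw [Complex.cos_eq_zero_iff] at h
    obtain ⟨k, hk⟩ := h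
    have := congrArg im hk
    rw [show ((2 * (k : ℂ) + 1) * Real.pi / 2) = (((2 * k + 1) * Real.pi / 2 : ℝ) : ℂ) by
      push_cast; ring, ofReal_im] at this
    linarith
  have hsz : sin z ≠ 0 := by
    intro h
    rw [Complex.sin_eq_zero_iff] at h
    obtain ⟨k, hk⟩ := h
    have := congrArg im hk
    rw [show ((k : ℂ) * Real.pi) = ((k * Real.pi : ℝ) : ℂ) by push_cast; ring, ofReal_im] at this
    linarith
  -- the equation of the end
  have e1 : sinh q * I = -(2 * sin z * cos z) := by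
    rw [← Complex.sin_mul_I]
    have : q * I = 2 * z - Real.pi := by linear_combination -he
    rw [this, Complex.sin_sub_pi, Complex.sin_two_mul]
  have e2 : 2 * cos z ^ 2 = -(I * b) := by
    have h1 := hs.sn
    rw [← hb, tan_eq_sin_div_cos] at h1
    rw [h1] at e1
    field_simp at e1
    linear_combination e1
  -- the slot
  obtain ⟨C, hC⟩ : ∃ C, C = cos (Real.pi * sy q z) ^ 2 := ⟨_, rfl⟩
  have e3 : (1 / cos z ^ 2 + 1 / b ^ 2) * C = 1 := by
    have h1 := YB.Sd_rel hs
    rw [YB.cos_rel, ← hb, ← hC] at h1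
    have hE : exp (-(2 * Real.pi * I * sy q z)) ≠ 0 := exp_ne_zero _
    have h5 : (1 / cos z ^ 2 + 1 / b ^ 2) * C * (4 * exp (-(2 * Real.pi * I * sy q z))) =
        1 * (4 * exp (-(2 * Real.pi * I * sy q z))) := by linear_combination h1
    exact mul_right_cancel₀ (mul_ne_zero (by norm_num) hE) h5
  have e4 : (1 + 2 * I * b) * C = b ^ 2 := by
    have h1 : (b ^ 2 + cos z ^ 2) * C = cos z ^ 2 * b ^ 2 := by
      field_simp at e3
      linear_combination e3
    have h2 : b * ((1 + 2 * I * b) * C) = b * b ^ 2 := by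
      linear_combination 2 * I * h1 + (I * b ^ 2 - I * C) * e2 + (b * C - b ^ 3) * I_sq
    exact mul_left_cancel₀ hb0 h2
  -- real and imaginary parts
  obtain ⟨x, hx'⟩ : ∃ x, x = b.re := ⟨_, rfl⟩
  obtain ⟨v, hv'⟩ : ∃ v, v = b.im := ⟨_, rfl⟩
  have r1 : (1 - 2 * v) * C.re - 2 * x * C.im = x ^ 2 - v ^ 2 := by
    have h := congrArg re e4
    rw [sq] at h
    simp only [mul_re, mul_im, add_re, add_im, one_re, one_im, I_re, I_im, re_ofNat, im_ofNat] at h
    rw [← hx', ← hv'] at h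
    linarith
  have r2 : 2 * x * C.re + (1 - 2 * v) * C.im = 2 * x * v := by
    have h := congrArg im e4
    rw [sq] at h
    simp only [mul_re, mul_im, add_re, add_im, one_re, one_im, I_re, I_im, re_ofNat, im_ofNat] at h
    rw [← hx', ← hv'] at h
    linarith
  have hx0 : 0 < x := by rw [hx', hbr]; exact hx
  have hv0 : 0 < v := by rw [hv', hbi]; linarith
  have hvx' : v < x := by rw [hv', hx', hbi, hbr]; exact hvx
  have hN' : x ^ 2 + v ^ 2 ≤ 1 := by
    rw [hv', hx', hbi, hbr]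
    exact hN
  have hv34 : v < 3 / 4 := by
    by_contra h9
    rw [not_lt] at h9
    nlinarith
  have hCre : C.re * ((1 - 2 * v) ^ 2 + 4 * x ^ 2) =
      (1 - 2 * v) * (x ^ 2 - v ^ 2) + 4 * x ^ 2 * v := by
    linear_combination (1 - 2 * v) * r1 + 2 * x * r2
  -- the lower bound of the real part
  have hCC : C.re = (1 + Real.cos (2 * (Real.pi * (sy q z).re)) *
      Real.cosh (2 * (Real.pi * (sy q z).im))) / 2 := by
    have h1 : C = 1 / 2 + cos (2 * (Real.pi * sy q z)) / 2 := by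
      rw [hC, Complex.cos_sq]
    have h2 : (2 * (Real.pi * sy q z) : ℂ) = ((2 * (Real.pi * (sy q z).re) : ℝ) : ℂ) +
        ((2 * (Real.pi * (sy q z).im) : ℝ) : ℂ) * I := by
      have := re_add_im (sy q z)
      push_cast
      linear_combination -(2 * (Real.pi : ℂ)) * this
    have h3 : C.re = 1 / 2 + (cos (2 * (Real.pi * sy q z))).re / 2 := by
      rw [h1, add_re]
      simp
    rw [h3, h2, cos_re_mk]
    ring
  have c1 : 1 / 2 < Real.cos (2 * (Real.pi * (sy q z).re)) := by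
    rw [← Real.cos_pi_div_three]
    apply Real.cos_lt_cos_of_nonneg_of_le_pi (by positivity) (by linarith)
    nlinarith
  have c2 := Real.one_le_cosh (2 * (Real.pi * (sy q z).im))
  have c3 : 3 / 4 < C.re := by
    rw [hCC]
    nlinarith
  have hDp : 0 < (1 - 2 * v) ^ 2 + 4 * x ^ 2 := by positivity
  have c4 : 3 / 4 * ((1 - 2 * v) ^ 2 + 4 * x ^ 2) < C.re * ((1 - 2 * v) ^ 2 + 4 * x ^ 2) :=
    mul_lt_mul_of_pos_right c3 hDp
  rw [hCre] at c4
  have c5 : -(1 / 8) ≤ (1 - 2 * v) ^ 3 := by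
    have h1 : (-(1 / 2) : ℝ) ≤ 1 - 2 * v := by linarith
    nlinarith [sq_nonneg ((1 - 2 * v) - 1 / 4)]
  have c6 : 0 ≤ (x - v) * (x + v) * (1 - v) :=
    mul_nonneg (mul_nonneg (by linarith) (by linarith)) (by linarith)
  nlinarith

/-! ### The table -/

/-- The regions of the neighbours. -/
def tk : Bool := (E.types false).all fun I =>
  !I.ok || Nat.ble (E.Tfin I ⟨2, false, none⟩).k1 1000

theorem tk_ok : tk = true := by decide +kernel

theorem k1_le {I : Vt} (h : I.ok = true) (hs : I.s = false) :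
    (E.Tfin I ⟨2, false, none⟩).k1 ≤ 1000 := by
  have h1 := tk_ok
  unfold tk at h1
  rw [List.all_eq_true] at h1
  have h2 := h1 I (by rw [← hs]; exact E.mem_types h)
  rw [h] at h2
  simpa using h2

theorem nrm_le {I : Vt} (h : I.ok = true) (hs : I.s = false) {x y : ℝ}
    (hr : E.B2.InR (E.Tfin I ⟨2, false, none⟩) x y) : x ^ 2 + y ^ 2 ≤ 1 := by
  have h1 := hr.hi
  have h2 : ((E.Tfin I ⟨2, false, none⟩).k1 : ℝ) ≤ 1000 := by exact_mod_cast k1_le h hs
  have h3 : (0 : ℝ) ≤ ((E.Tfin I ⟨2, false, none⟩).k1 : ℝ) := Nat.cast_nonneg _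
  have h4 : (((E.Tfin I ⟨2, false, none⟩).k1 : ℝ) / 1000) ^ 2 ≤ 1 ^ 2 := by
    apply pow_le_pow_left₀ (by positivity)
    rw [div_le_one (by norm_num)]
    exact h2
  linarith

/-! ### The flats -/

theorem dT_e (S : Bool) (x : Nt) {pc : Pc} (hf : flt pc) : S5.dT S ⟨2, true⟩ x pc = 0 := by
  rcases hf with rfl | rfl | rfl <;> simp [S5.dT, d0, Pc.mir]

theorem hT_e (S : Bool) (x : Nt) {pc : Pc} (hf : flt pc) : hT S ⟨2, true⟩ x pc = 0 := by
  rcases hf with rfl | rfl | rfl <;> simp [hT, r0, Pc.mir]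

/-- **The flats of an end with two half twists.** -/
theorem flat_end {t s : Slt} (et : t.ex = false) (yt : t.ys = 1 / 2) (es : s.ex = true)
    (h1 : s.ys.re < 1 / 2) (h2 : 1 / 2 - s.ys.re ≤ 1 / 3) : FlatH ⟨2, true⟩ t s where
  U := by
    intro a b wa wb pa pb _ fb ha hb
    unfold Slt.In at ha
    rw [if_neg (by rw [et]; simp)] at ha
    obtain ⟨rfl, rfl, rfl⟩ := ha
    obtain ⟨b1, b2, b3, b4, b5, b6⟩ := In_pos es fb hb
    subst b1
    have e0 : t.e ⟨2, true⟩ .F (1 / 2) 0 = 0 := by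
      unfold Slt.e
      rw [if_neg (by rw [et]; simp)]
    have e1 : s.e ⟨2, true⟩ pb b 0 = 0 := by
      unfold Slt.e
      rw [if_pos es, slE_flt fb b2, dT_e _ _ fb, hT_e _ _ fb]
      ring
    have hr : ((1 / 2 : ℂ)).re = 1 / 2 := by simp
    have e2 : Ecl t.ys s.ys (1 / 2) b = -Dq (sQ s.ys.im) (1 / 2 - s.ys.re) (1 / 2 - b.re) := by
      rw [yt, Ecl_flat rfl b2]
      have hi : ((1 / 2 : ℂ)).im = 0 := by simp
      unfold SS
      rw [hr, hi, sub_self, Dq_self, zero_add, zero_add, zero_add]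
      ring
    rw [e0, e1, e2]
    rcases eq_or_ne (1 / 2 - b.re) (1 / 2 - s.ys.re) with h | h
    · right
      obtain ⟨k1, k2⟩ := crit_of es fb hb (by linarith) h
      exact ⟨yt.symm, k1, Or.inl rfl, k2⟩
    · left
      have := Dq34 (sQ_nonneg s.ys.im) (by linarith) h2 b3 b4 h
      linarith
  quad := quad_cl_left et yt (by linarith) h1

end Pool.Agent.S5.Fe2

namespace Pool.Agent.S5.Ctx

open Complex Pool.Agent.S5.Fe2
open Pool.Agent.S5.G (kp Sd sy)

variable {R : ℕ} {a : ℕ → ℕ} {S : ℕ → Bool} {r : ℕ → ℤ} {z ql qr : ℕ → ℂ}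
  {zF : Fin (R + 1) → ℂ}

/-- **The flats of END 2**, the left end. -/
theorem fl_e2l (h : Ctx E.Tfin R a S r z ql qr zF) (h0 : a 0 = 2) :
    FlatH (ntG R a 0) (slL R a S z ql 0) (slR R a S z qr 0) := by
  have hR : 0 < R := h.hg.crt.hR
  have hn : ntG R a 0 = ⟨2, true⟩ := by
    unfold ntG
    rw [h0]
    simp
  have hS : S 0 = false := by
    by_contra hc
    have := h.hg.crt.hfst (by simpa using hc)
    omega
  rw [hn, slR_mk hR]
  have hs := h.sdr hR
  rw [hS] at hs
  have hJ : E.vR a S 0 = ⟨2, false, none⟩ := by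
    unfold E.vR
    rw [h0, hS]
    rfl
  have hr := h.rr hR
  rw [hJ] at hr
  have hN := nrm_le (h.ok_l hR) (by unfold E.vL; exact hS) hr
  have he := h.hg.crt.eq 0 hR.le
  rw [h0, h.hg.crt.l0, zero_add] at he
  exact flat_end h.slL_0.1 h.slL_0.2 rfl hs.re_lt (p_le hs (by exact_mod_cast he) hN)

/-- **The flats of END 2**, the right end. -/
theorem fl_e2r (h : Ctx E.Tfin R a S r z ql qr zF) {i : ℕ} (hi : i + 1 = R)
    (h0 : a (i + 1) = 2) :
    FlatH (ntG R a (i + 1)) (slL R a S z ql (i + 1)) (slR R a S z qr (i + 1)) := by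
  have hR : i < R := by omega
  have hn : ntG R a (i + 1) = ⟨2, true⟩ := by
    unfold ntG
    rw [h0, hi]
    simp
  have hS : S i = false := by
    by_contra hc
    have := h.hg.crt.hlst i hi (by simpa using hc)
    omega
  rw [hn, slL_mk]
  have hs := h.sdl hR
  rw [hS] at hs
  have hJ : E.vL R a S (i + 1) = ⟨2, false, none⟩ := by
    unfold E.vL
    rw [h0, if_pos hi]
    simp [hS]
  have hr := h.rl hR
  rw [hJ] at hr
  have hN := nrm_le (h.ok_r hR) (by unfold E.vR; exact hS) hr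
  have he := h.hg.crt.eq (i + 1) hi.le
  have hq : qr (i + 1) = 0 := by rw [hi]; exact h.hg.crt.rR
  rw [h0, hq, add_zero] at he
  have hl := h.slR_R
  rw [← hi] at hl
  rw [← hi]
  exact (flat_end hl.1 hl.2 rfl hs.re_lt (p_le hs (by exact_mod_cast he) hN)).swap

end Pool.Agent.S5.Ctx
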