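import Pool.Agent.S5.I.F16
import Pool.Agent.S5.I.FlC

/-!
# Flats of inner nodes with two half twists: from the pairs of types to the node
-/

set_option autoImplicit false

namespace Pool.Agent.S5.F

open Complex Set Pool.Agent.S5.C2 Pool.Agent.S3
open Pool.Agent.S5.E (Vt vL vR adm)

/-- The bounds of the slots in terms of the types of the neighbours. -/
structure FlP (IA IB : Vt) (ya yb : ℂ) : Prop where
  full : IB ≠ ⟨3, true, none⟩ → ∃ c > 0, ∀ p ∈ Icc (0 : ℝ) (3 / 4), ∀ q ∈ Icc (0 : ℝ) (3 / 4),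
    c * ((p - (1 / 2 - ya.re)) ^ 2 + (q - (1 / 2 - yb.re)) ^ 2) ≤
      SS (sQ ya.im) (sQ yb.im) (sQ (ya.im + yb.im)) (1 / 2 - ya.re) (1 / 2 - yb.re) p q
  a3 : IA = ⟨3, false, none⟩ → X3 (sQ ya.im) (sQ (ya.im + yb.im)) (1 / 2 - ya.re)
    (1 / 2 - ya.re + (1 / 2 - yb.re))
  b3 : IB = ⟨3, false, none⟩ → X3 (sQ yb.im) (sQ (ya.im + yb.im)) (1 / 2 - yb.re)
    (1 / 2 - ya.re + (1 / 2 - yb.re))
  e4 : IB = ⟨4, true, none⟩ → EB 2 (4 / 25) (1 / 2 - ya.re) ya.im (1 / 2 - yb.re) yb.im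
  e3 : IB = ⟨3, true, none⟩ → IA ≠ ⟨3, false, none⟩ ∧
    Fl21 (1 / 2 - ya.re) ya.im (1 / 2 - yb.re) yb.im ∧
    EB 1 (1 / 20) (1 / 2 - ya.re) ya.im (1 / 2 - yb.re) yb.im

/-- The predicate on pairs of neighbours. -/
def CF (T : Vt → Vt → E.B2.Rg) (d : YB.Yd) (JA IA JB IB : Vt) : Prop :=
  ∀ ya yb : ℂ, Nh T d JA IA JB IB ya yb → FlP IA IB ya yb

variable {T : Vt → Vt → E.B2.Rg} {R : ℕ} {a : ℕ → ℕ} {S : ℕ → Bool} {r : ℕ → ℤ}
  {z ql qr : ℕ → ℂ} {zF : Fin (R + 1) → ℂ} {d : YB.Yd}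

theorem nt_l {i n : ℕ} (hi : i + 1 < R) (hn : n < 6) (h : ntG R a i = ⟨n, true⟩) :
    vR a S i = ⟨n, S i, none⟩ := by
  unfold ntG at h
  rw [Nt.mk.injEq] at h
  obtain ⟨h1, h2⟩ := h
  have h3 : i = 0 := by
    rcases of_decide_eq_true h2 with h3 | h3
    · exact h3
    · omega
  subst h3
  unfold vR
  rw [if_pos rfl, Vt.mk.injEq]
  exact ⟨by omega, rfl, rfl⟩

theorem nt_r {i n : ℕ} (hn : n < 6) (h : ntG R a (i + 2) = ⟨n, true⟩) :
    vL R a S (i + 2) = ⟨n, S (i + 1), none⟩ := by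
  unfold ntG at h
  rw [Nt.mk.injEq] at h
  obtain ⟨h1, h2⟩ := h
  have h3 : i + 2 = R := by
    rcases of_decide_eq_true h2 with h3 | h3
    · omega
    · exact h3
  unfold vL
  rw [if_pos h3, Vt.mk.injEq]
  exact ⟨by omega, rfl, rfl⟩

theorem nt_l' {i : ℕ} {s : Bool} (h : vR a S i = ⟨3, s, none⟩) :
    S i = s ∧ ntG R a i = ⟨3, true⟩ := by
  unfold vR at h
  rw [Vt.mk.injEq] at h
  obtain ⟨h1, h2, h3⟩ := h
  have h4 : i = 0 := by
    by_contra hc
    rw [if_neg hc] at h3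
    simp at h3
  refine ⟨h2, ?_⟩
  unfold ntG
  rw [Nt.mk.injEq]
  refine ⟨by omega, decide_eq_true (Or.inl h4)⟩

theorem nt_r' {i : ℕ} {s : Bool} (h : vL R a S (i + 2) = ⟨3, s, none⟩) :
    S (i + 1) = s ∧ ntG R a (i + 2) = ⟨3, true⟩ := by
  unfold vL at h
  rw [Vt.mk.injEq] at h
  obtain ⟨h1, h2, h3⟩ := h
  have h4 : i + 2 = R := by
    by_contra hc
    rw [if_neg hc] at h3
    simp at h3
  refine ⟨h2, ?_⟩
  unfold ntG
  rw [Nt.mk.injEq]
  refine ⟨by omega, decide_eq_true (Or.inr h4)⟩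

/-- The left edge is the first one. -/
theorem flat_l (h : Ctx T R a S r z ql qr zF) {i : ℕ} (hi : i + 1 < R) (hS : S i = false)
    (hp : Pos (1 / 2 - (slL R a S z ql (i + 1)).ys.re) (1 / 2 - (slR R a S z qr (i + 1)).ys.re))
    (P : FlP (vR a S i) (vL R a S (i + 2)) (slL R a S z ql (i + 1)).ys
      (slR R a S z qr (i + 1)).ys) :
    FlatH ⟨2, false⟩ (slL R a S z ql (i + 1)) (slR R a S z qr (i + 1)) := by
  have xl : (slL R a S z ql (i + 1)).ex = true := by
    show decide (0 < i + 1) = true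
    simp
  have xr : (slR R a S z qr (i + 1)).ex = true := by
    show decide (i + 1 < R) = true
    simp [hi]
  have SL : (slL R a S z ql (i + 1)).S = S i := rfl
  have SR : (slR R a S z qr (i + 1)).S = S (i + 1) := rfl
  have XL : (slL R a S z ql (i + 1)).x = ntG R a i := rfl
  have XR : (slR R a S z qr (i + 1)).x = ntG R a (i + 2) := rfl
  have D : FlD (slL R a S z ql (i + 1)) (slR R a S z qr (i + 1)) := by
    refine ⟨hp, ?_, ?_, ?_, ?_, ?_⟩
    · intro h1
      refine P.full (fun h2 => h1 ?_)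
      obtain ⟨g1, g2⟩ := nt_r' h2
      rw [SR, XR]
      exact ⟨g1, g2⟩
    · intro h1
      rw [XL] at h1
      exact P.a3 (by rw [nt_l (S := S) hi (by norm_num) h1, hS])
    · intro h0 h1
      rw [SR] at h0
      rw [XR] at h1
      exact P.b3 (by rw [nt_r (S := S) (by norm_num) h1, h0])
    · intro h0 h1
      rw [SR] at h0
      rw [XR] at h1
      exact P.e4 (by rw [nt_r (S := S) (by norm_num) h1, h0])
    · intro h0 h1
      rw [SR] at h0
      rw [XR] at h1
      obtain ⟨g1, g2⟩ := P.e3 (by rw [nt_r (S := S) (by norm_num) h1, h0])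
      refine ⟨fun h2 => g1 ?_, g2⟩
      rw [XL] at h2
      rw [nt_l (S := S) hi (by norm_num) h2, hS]
  exact D.flB.flat xl xr hS

/-- The right edge is the first one. -/
theorem flat_r (h : Ctx T R a S r z ql qr zF) {i : ℕ} (hi : i + 1 < R) (hS : S (i + 1) = false)
    (hp : Pos (1 / 2 - (slR R a S z qr (i + 1)).ys.re) (1 / 2 - (slL R a S z ql (i + 1)).ys.re))
    (P : FlP (vL R a S (i + 2)) (vR a S i) (slR R a S z qr (i + 1)).ys
      (slL R a S z ql (i + 1)).ys) :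
    FlatH ⟨2, false⟩ (slL R a S z ql (i + 1)) (slR R a S z qr (i + 1)) := by
  have xl : (slL R a S z ql (i + 1)).ex = true := by
    show decide (0 < i + 1) = true
    simp
  have xr : (slR R a S z qr (i + 1)).ex = true := by
    show decide (i + 1 < R) = true
    simp [hi]
  have SL : (slL R a S z ql (i + 1)).S = S i := rfl
  have SR : (slR R a S z qr (i + 1)).S = S (i + 1) := rfl
  have XL : (slL R a S z ql (i + 1)).x = ntG R a i := rfl
  have XR : (slR R a S z qr (i + 1)).x = ntG R a (i + 2) := rfl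
  have D : FlD (slR R a S z qr (i + 1)) (slL R a S z ql (i + 1)) := by
    refine ⟨hp, ?_, ?_, ?_, ?_, ?_⟩
    · intro h1
      refine P.full (fun h2 => h1 ?_)
      obtain ⟨g1, g2⟩ := nt_l' (R := R) h2
      rw [SL, XL]
      exact ⟨g1, g2⟩
    · intro h1
      rw [XR] at h1
      exact P.a3 (by rw [nt_r (S := S) (by norm_num) h1, hS])
    · intro h0 h1
      rw [SL] at h0
      rw [XL] at h1
      exact P.b3 (by rw [nt_l (S := S) hi (by norm_num) h1, h0])
    · intro h0 h1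
      rw [SL] at h0
      rw [XL] at h1
      exact P.e4 (by rw [nt_l (S := S) hi (by norm_num) h1, h0])
    · intro h0 h1
      rw [SL] at h0
      rw [XL] at h1
      obtain ⟨g1, g2⟩ := P.e3 (by rw [nt_l (S := S) hi (by norm_num) h1, h0])
      refine ⟨fun h2 => g1 ?_, g2⟩
      rw [XR] at h2
      rw [nt_r (S := S) (by norm_num) h2, hS]
  exact (D.flB.flat xr xl hS).swap

/-- **The flats of an inner node with two half twists**, from the pairs of types; `X` is the pair for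
which the node itself is used. -/
theorem flat_i2_of {X : Vt → Vt → Prop} (hd : YB.YbOK T d)
    (hC : Chk (fun JA IA JB IB => CF T d JA IA JB IB ∨ X IA IB)) (h : Ctx T R a S r z ql qr zF)
    {i : ℕ} (hi : i + 1 < R) (ha : a (i + 1) = 2)
    (hl : X (vR a S i) (vL R a S (i + 2)) →
      Nh T d (vL R a S (i + 1)) (vR a S i) (vR a S (i + 1)) (vL R a S (i + 2))
        (slL R a S z ql (i + 1)).ys (slR R a S z qr (i + 1)).ys →
      FlP (vR a S i) (vL R a S (i + 2)) (slL R a S z ql (i + 1)).ys (slR R a S z qr (i + 1)).ys)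
    (hr : X (vL R a S (i + 2)) (vR a S i) →
      Nh T d (vR a S (i + 1)) (vL R a S (i + 2)) (vL R a S (i + 1)) (vR a S i)
        (slR R a S z qr (i + 1)).ys (slL R a S z ql (i + 1)).ys →
      FlP (vL R a S (i + 2)) (vR a S i) (slR R a S z qr (i + 1)).ys (slL R a S z ql (i + 1)).ys) :
    FlatH (ntG R a (i + 1)) (slL R a S z ql (i + 1)) (slR R a S z qr (i + 1)) := by
  have hn : ntG R a (i + 1) = ⟨2, false⟩ := by
    unfold ntG
    rw [Nt.mk.injEq]
    exact ⟨by omega, decide_eq_false (by omega)⟩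
  rw [hn]
  rcases node_pair h hd hC hi ha with ⟨hS, hc, N⟩ | ⟨hS, hc, N⟩
  · refine flat_l h hi hS N.pos ?_
    rcases hc with hc | hc
    · exact hc _ _ N
    · exact hl hc N
  · refine flat_r h hi hS N.pos ?_
    rcases hc with hc | hc
    · exact hc _ _ N
    · exact hr hc N

end Pool.Agent.S5.F
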