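import Pool.Agent.S5.I.Lo4
import Pool.Agent.S5.E.T.TabF

/-!
# Low edges at inner nodes with four half twists: the final table
-/

set_option autoImplicit false

namespace Pool.Agent.S5.Fld

open Pool.Agent.S5.E (Vt Tfin)
open Pool.Agent.S5.YX (YR)

/-- The position of a type in the list `types`. -/
def ixx (J : Vt) : ℕ := 3 * (J.a - 2) + (match J.o with
  | none => 2
  | some true => 1
  | some false => 0)

/-- A list as a function. -/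
def lw (l : List YR) (J : Vt) : YR := l.getD (J.ix) ⟨0, 0, 0, 0, 0, 0, 0, 0⟩

/-- The rectangles of the slots of the type `⟨4, false, some false⟩`. -/
def y4aa : List YR := [
  ⟨235, 306, -74, -10, -275, 273, 914, 1425⟩,
  ⟨233, 278, -77, -33, 27, 259, 1198, 1484⟩,
  ⟨309, 334, -110, -87, -585, -458, 1585, 1788⟩,
  ⟨264, 306, -38, 5, -212, 108, 656, 1030⟩,
  ⟨258, 302, -55, -8, -192, 112, 813, 1224⟩,
  ⟨300, 325, -41, -16, -495, -325, 794, 1014⟩,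
  ⟨272, 302, -17, 17, -104, 104, 477, 782⟩,
  ⟨269, 303, -27, 9, -145, 97, 573, 885⟩,
  ⟨290, 313, -13, 11, -261, -114, 491, 689⟩,
  ⟨272, 299, -6, 25, -28, 153, 380, 642⟩,
  ⟨272, 300, -10, 20, -65, 138, 446, 689⟩,
  ⟨282, 304, -1, 23, -113, 36, 364, 553⟩,
  ⟨271, 297, 1, 30, 15, 206, 332, 571⟩,
  ⟨271, 299, -3, 27, -14, 195, 356, 602⟩,
  ⟨276, 299, 4, 29, -21, 137, 310, 505⟩,
  ⟨270, 295, 5, 33, 67, 244, 292, 515⟩,
  ⟨270, 296, 4, 31, 42, 225, 310, 533⟩,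
  ⟨273, 296, 7, 32, 47, 199, 286, 477⟩,
  ⟨263, 293, 8, 38, 93, 359, 268, 493⟩,
  ⟨262, 294, 6, 38, 69, 359, 268, 509⟩,
  ⟨263, 293, 10, 38, 84, 359, 268, 463⟩]

/-- The rectangles of the slots of the type `⟨4, false, some true⟩`. -/
def y4as : List YR := [
  ⟨228, 306, -70, 1, -279, 310, 1000, 1510⟩,
  ⟨222, 281, -78, -21, -35, 298, 1267, 1619⟩,
  ⟨304, 331, -105, -79, -597, -399, 1647, 1824⟩,
  ⟨261, 306, -31, 14, -203, 147, 756, 1119⟩,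
  ⟨253, 303, -49, 3, -201, 154, 905, 1311⟩,
  ⟨297, 325, -34, -7, -484, -269, 884, 1094⟩,
  ⟨269, 303, -9, 27, -97, 145, 573, 885⟩,
  ⟨267, 303, -18, 18, -136, 136, 689, 977⟩,
  ⟨288, 313, -6, 19, -247, -62, 596, 786⟩,
  ⟨271, 300, 3, 34, -17, 194, 491, 746⟩,
  ⟨270, 302, -2, 29, -61, 179, 547, 795⟩,
  ⟨281, 305, 6, 31, -109, 73, 483, 669⟩,
  ⟨269, 299, 9, 40, 15, 241, 433, 682⟩,
  ⟨270, 301, 6, 36, -14, 230, 461, 704⟩,
  ⟨276, 301, 12, 38, -19, 166, 429, 624⟩,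
  ⟨269, 296, 13, 42, 69, 273, 411, 634⟩,
  ⟨270, 297, 12, 40, 45, 254, 429, 652⟩,
  ⟨273, 297, 15, 41, 49, 228, 405, 596⟩,
  ⟨262, 295, 16, 48, 95, 385, 383, 612⟩,
  ⟨262, 296, 15, 48, 71, 385, 383, 628⟩,
  ⟨263, 295, 18, 48, 86, 385, 383, 582⟩]

/-- The rectangles of the slots of the type `⟨4, true, some false⟩`. -/
def y4sa : List YR := [
  ⟨285, 341, 53, 109, -255, 335, -920, -272⟩,
  ⟨0, 0, 0, 0, 0, 0, 0, 0⟩,
  ⟨0, 0, 0, 0, 0, 0, 0, 0⟩,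
  ⟨288, 330, 36, 79, -237, 180, -470, -15⟩,
  ⟨291, 333, 49, 93, -184, 199, -695, -205⟩,
  ⟨325, 351, 45, 70, -554, -337, -539, -258⟩,
  ⟨287, 317, 26, 59, -126, 126, -169, 169⟩,
  ⟨289, 323, 32, 68, -161, 136, -299, 58⟩,
  ⟨305, 327, 24, 48, -309, -134, -90, 134⟩,
  ⟨282, 309, 20, 50, -42, 159, -4, 278⟩,
  ⟨285, 314, 24, 54, -92, 156, -71, 214⟩,
  ⟨291, 312, 18, 41, -140, 17, 90, 286⟩,
  ⟨277, 303, 16, 45, -1, 205, 94, 346⟩,
  ⟨280, 307, 18, 48, -31, 197, 51, 318⟩,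
  ⟨282, 304, 15, 39, -42, 122, 162, 364⟩,
  ⟨274, 299, 15, 43, 60, 246, 150, 378⟩,
  ⟨276, 301, 16, 44, 29, 231, 120, 358⟩,
  ⟨277, 299, 14, 39, 38, 196, 196, 394⟩,
  ⟨265, 297, 13, 44, 71, 368, 176, 420⟩,
  ⟨265, 299, 13, 46, 44, 368, 154, 420⟩,
  ⟨265, 297, 13, 42, 53, 368, 218, 420⟩]

/-- The rectangles of the slots of the type `⟨4, true, some true⟩`. -/
def y4ss : List YR := [
  ⟨292, 349, 58, 112, -269, 363, -756, -134⟩,
  ⟨0, 0, 0, 0, 0, 0, 0, 0⟩,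
  ⟨0, 0, 0, 0, 0, 0, 0, 0⟩,
  ⟨292, 337, 42, 87, -253, 230, -362, 122⟩,
  ⟨296, 341, 54, 101, -202, 247, -589, -68⟩,
  ⟨330, 356, 48, 76, -590, -286, -432, -129⟩,
  ⟨289, 323, 32, 68, -136, 161, -58, 299⟩,
  ⟨292, 329, 39, 76, -176, 176, -188, 188⟩,
  ⟨308, 332, 30, 55, -326, -98, 28, 261⟩,
  ⟨284, 312, 27, 58, -38, 196, 122, 409⟩,
  ⟨286, 318, 30, 63, -90, 198, 54, 352⟩,
  ⟨293, 317, 24, 48, -149, 52, 203, 404⟩,
  ⟨278, 308, 24, 55, -14, 242, 195, 474⟩,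
  ⟨280, 312, 25, 57, -54, 224, 144, 434⟩,
  ⟨283, 309, 21, 47, -68, 154, 267, 481⟩,
  ⟨275, 303, 23, 51, 49, 276, 259, 503⟩,
  ⟨276, 305, 24, 52, 31, 267, 237, 479⟩,
  ⟨278, 303, 21, 47, 20, 224, 312, 521⟩,
  ⟨265, 300, 21, 54, 71, 400, 291, 543⟩,
  ⟨265, 301, 21, 55, 44, 400, 269, 543⟩,
  ⟨265, 299, 21, 52, 53, 400, 332, 543⟩]

/-- The thresholds. -/
def u4 (s o : Bool) : ℤ := bif s then (bif o then -155366 else -168903) else (bif o then -125150 else -126740)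

/-- The thresholds. -/
def v4 (s o : Bool) : ℤ := bif s then (bif o then -325547 else -338662) else (bif o then -331607 else -332739)

theorem t4aa : ck4 Tfin (u4 false false) (v4 false false) false false (lw y4aa) = true := by decide +kernel

theorem t4as : ck4 Tfin (u4 false true) (v4 false true) false true (lw y4as) = true := by decide +kernel

theorem t4sa : ck4 Tfin (u4 true false) (v4 true false) true false (lw y4sa) = true := by decide +kernel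

theorem t4ss : ck4 Tfin (u4 true true) (v4 true true) true true (lw y4ss) = true := by decide +kernel

theorem ck4F : Ck4 Tfin u4 v4 := by
  constructor
  · intro s o
    cases s <;> cases o
    · exact ⟨_, t4aa⟩
    · exact ⟨_, t4as⟩
    · exact ⟨_, t4sa⟩
    · exact ⟨_, t4ss⟩
  · intro s o
    cases s <;> cases o <;> decide

end Pool.Agent.S5.Fld
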