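import Pool.Agent.S5.K.LoE
import Pool.Agent.S5.E.T.TabF

/-!
# Ends with two half twists: low edges, the final table
-/

set_option autoImplicit false

namespace Pool.Agent.S5.Fld

theorem loETF : K.loET E.Tfin = true := by decide +kernel

end Pool.Agent.S5.Fld
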