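import Pool.Agent.S5.Ctx
import Pool.Agent.S5.E.T.N4F

/-!
# Mixed chains: the regions at the inner vertices with four half twists
-/

set_option autoImplicit false

namespace Pool.Agent.S5.Fld

open Complex
open Pool.Agent.S5.E (vL vR)
open Pool.Agent.S5.E.B2 (InR)

/-- The regions at an inner vertex with four half twists: the vertex, its left and its right
neighbour. -/
theorem tab4 {R : ℕ} {a : ℕ → ℕ} {S : ℕ → Bool} {z ql qr : ℕ → ℂ} {zF : Fin (R + 1) → ℂ}
    (h : Pre E.Tfin R a S z ql qr zF) {i : ℕ} (hi : i + 1 < R) (h4 : a (i + 1) = 4) :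
    InR (E.M4 (vR a S i) (vL R a S (i + 1)) (vL R a S (i + 2))) (cos (z (i + 1))).re
        (-(cos (z (i + 1))).im) ∧
      InR (E.N4 (vR a S i) (vL R a S (i + 1)) (vL R a S (i + 2))) (cos (z i)).re
        (-(cos (z i)).im) ∧
      InR (E.N4 (vL R a S (i + 2)) (vR a S (i + 1)) (vR a S i)) (cos (z (i + 2))).re
        (-(cos (z (i + 2))).im) := by
  have b := E.tab4_adm h.adm zF h.sol.zr hi h4
  have e0 : z i = zF ⟨i, by omega⟩ := h.sol.ez ⟨i, by omega⟩
  have e1 : z (i + 1) = zF ⟨i + 1, by omega⟩ := h.sol.ez ⟨i + 1, by omega⟩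
  have e2 : z (i + 2) = zF ⟨i + 2, by omega⟩ := h.sol.ez ⟨i + 2, by omega⟩
  rw [e0, e1, e2]
  exact b

end Pool.Agent.S5.Fld
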