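import Pool.Agent.S5.Ctx
import Pool.Agent.S5.E.T.W9

/-!
# Mixed chains: the regions of the neighbours of the inner vertices with two half twists

`K.TabW E.Tfin E.W9` of `S5/K/Gen.lean`.
-/

set_option autoImplicit false

namespace Pool.Agent.S5.Fld

open Complex
open Pool.Agent.S5.E (vL vR)
open Pool.Agent.S5.E.B2 (InR)

theorem tabW9 (R : ℕ) (a : ℕ → ℕ) (S : ℕ → Bool) (z ql qr : ℕ → ℂ) (zF : Fin (R + 1) → ℂ)
    (h : Pre E.Tfin R a S z ql qr zF) (i : ℕ) (hi : i + 1 < R) (h2 : a (i + 1) = 2) :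
    InR (E.W9 (vR a S i) (vL R a S (i + 1)) (vL R a S (i + 2))) (cos (z i)).re (-(cos (z i)).im) ∧
      InR (E.W9 (vL R a S (i + 2)) (vR a S (i + 1)) (vR a S i)) (cos (z (i + 2))).re
        (-(cos (z (i + 2))).im) := by
  have b := (E.tabW9_adm h.adm zF h.sol.zr).chain hi h2
  have e1 : z i = zF ⟨i, by omega⟩ := h.sol.ez ⟨i, by omega⟩
  have e2 : z (i + 2) = zF ⟨i + 2, by omega⟩ := h.sol.ez ⟨i + 2, by omega⟩
  rw [e1, e2]
  exact b

end Pool.Agent.S5.Fld
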