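import Pool.Agent.S5.Ctx
import Pool.Agent.S5.E.T.X4

/-!
# Mixed chains: the special vertices next to some vertices with four half twists
-/

set_option autoImplicit false

namespace Pool.Agent.S5.Fld

open Complex
open Pool.Agent.S5.E (vL vR)
open Pool.Agent.S5.E.B2 (InR)

variable {R : ℕ} {a : ℕ → ℕ} {S : ℕ → Bool} {z ql qr : ℕ → ℂ} {zF : Fin (R + 1) → ℂ}

/-- `2 A 4 S 2`: the region of the vertex on the right is one of the list. -/
theorem x4_r (h : Pre E.Tfin R a S z ql qr zF) {i : ℕ} (hi : i + 1 < R) (h4 : a (i + 1) = 4)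
    (hs : S i = false) (hs' : S (i + 1) = true) (h2 : a i = 2) (h2' : a (i + 2) = 2) :
    ∃ r ∈ E.XL (vR a S i), InR r (cos (z (i + 2))).re (-(cos (z (i + 2))).im) := by
  have e2 : z (i + 2) = zF ⟨i + 2, by omega⟩ := h.sol.ez ⟨i + 2, by omega⟩
  rw [e2]
  exact E.x4_adm_r h.adm zF h.sol.zr hi h4 hs hs' h2 h2'

/-- `2 S 4 A 2`: the region of the vertex on the left is one of the list. -/
theorem x4_l (h : Pre E.Tfin R a S z ql qr zF) {i : ℕ} (hi : i + 1 < R) (h4 : a (i + 1) = 4)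
    (hs : S (i + 1) = false) (hs' : S i = true) (h2 : a (i + 2) = 2) (h2' : a i = 2) :
    ∃ r ∈ E.XL (vL R a S (i + 2)), InR r (cos (z i)).re (-(cos (z i)).im) := by
  have e0 : z i = zF ⟨i, by omega⟩ := h.sol.ez ⟨i, by omega⟩
  rw [e0]
  exact E.x4_adm_l h.adm zF h.sol.zr hi h4 hs hs' h2 h2'

end Pool.Agent.S5.Fld
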