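import Pool.Agent.S5.Fld.BY
import Pool.Agent.S5.E.T.TabF

/-!
# The imaginary parts of the critical points of the edges: the check for the final table
-/

set_option autoImplicit false

namespace Pool.Agent.S5

set_option maxRecDepth 100000 in
theorem y9A : yC E.Tfin false = true := by decide +kernel

set_option maxRecDepth 100000 in
theorem y9S : yC E.Tfin true = true := by decide +kernel

variable {R : ℕ} {a : ℕ → ℕ} {S : ℕ → Bool} {r : ℕ → ℤ} {z ql qr : ℕ → ℂ} {zF : Fin (R + 1) → ℂ}
  {K : Cn R}

/-- **The imaginary parts of the critical points of all edges** for the final table, given the bound for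
the right slots of the inner nodes with two half twists. -/
theorem y9_all (h : Pre E.Tfin R a S z ql qr zF) (hg : HG R a S (flO R a S) z ql qr r K)
    (h2 : ∀ i, i + 1 < R → a (i + 1) = 2 → |(G.sy (qr (i + 1)) (z (i + 1))).im| ≤ 3 / 20) :
    ∀ i, i < R → |(G.sy (qr i) (z i)).im| ≤ 3 / 20 :=
  y_all y9A y9S h hg h2

end Pool.Agent.S5
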