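import Pool.Agent.S5.Fld.YC9
import Pool.Agent.S5.Fld.W9

/-!
# The imaginary parts of the critical points of the edges

The edges between the `A` slots of two special `2`'s, by the regions of `S5/E/T/QF.lean`, and the field
`y` of `OpenB`.
-/

set_option autoImplicit false

namespace Pool.Agent.S5.E

open Complex
open Pool.Agent.S5.E.B2

variable {R : ℕ} {a : ℕ → ℕ} {S : ℕ → Bool}

theorem tabQ_adm (h : AdmS R a S) (z : Fin (R + 1) → ℂ)
    (hz : Zr true (aF R a) (nlF R S) (nrF R S) (gC (aF R a) (nlF R S) (nrF R S)) 1 z) :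
    TabQ QF (nF R a) (nlF R S) (nrF R S) z ∧ TabZ ZF (nF R a) (nlF R S) (nrF R S) z := by
  have hC := ch_of_adm h.toAdm
  obtain ⟨h1, -, h3⟩ := hz.tab_pair hC (hz.in3 hC fun _ hi => aF_cases hi) (chT_of_adm h)
  exact ⟨h1, h3⟩

/-- A special pair in a chain. -/
theorem pr_chain {j : ℕ} (hj : j + 2 < R) (h1 : a (j + 1) = 2) (h2 : a (j + 2) = 2)
    (s0 : S j = true) (s1 : S (j + 1) = false) (s2 : S (j + 2) = true) :
    Pr (nF R a) (nlF R S) (nrF R S) ⟨j + 1, by omega⟩ ⟨j + 2, by omega⟩ ⟨j, by omega⟩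
      ⟨j + 3, by omega⟩ (nlF R S ⟨j, by omega⟩) := by
  have e0 : nrF R S ⟨j, by omega⟩ = some (⟨j + 1, by omega⟩, true) := by
    rw [nrF_iff]; exact ⟨rfl, s0.symm⟩
  have e1 : nlF R S ⟨j + 1, by omega⟩ = some (⟨j, by omega⟩, true) := by
    rw [nlF_iff]; exact ⟨rfl, s0.symm⟩
  have e2 : nrF R S ⟨j + 1, by omega⟩ = some (⟨j + 2, by omega⟩, false) := by
    rw [nrF_iff]; exact ⟨rfl, s1.symm⟩
  have e3 : nlF R S ⟨j + 2, by omega⟩ = some (⟨j + 1, by omega⟩, false) := by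
    rw [nlF_iff]; exact ⟨rfl, s1.symm⟩
  have e4 : nrF R S ⟨j + 2, by omega⟩ = some (⟨j + 3, by omega⟩, true) := by
    rw [nrF_iff]; exact ⟨rfl, s2.symm⟩
  exact
    { hi := by unfold nF; rw [h1]; rfl
      hj := by unfold nF; rw [h2]; rfl
      ai := Or.inr ⟨e1, e2⟩
      aj := Or.inl ⟨e3, e4⟩
      ak := Or.inr ⟨rfl, e0⟩ }

end Pool.Agent.S5.E

namespace Pool.Agent.S5

open Complex Pool.Agent.S5.YX
open Pool.Agent.S5.E (Vt vL vR types)
open Pool.Agent.S5.E.B2 (InR)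
open Pool.Agent.S5.G (kp Sd sy)

/-- The check of the special pairs. -/
def yQ (Q Z : Vt → E.B2.Rg) : Bool :=
  (types true).all fun J => !J.ok || yim false (Q J) (Z J) (-150) 150

set_option maxRecDepth 100000 in
theorem yQ9 : yQ E.QF E.ZF = true := by decide +kernel

variable {R : ℕ} {a : ℕ → ℕ} {S : ℕ → Bool} {r : ℕ → ℤ} {z ql qr : ℕ → ℂ} {zF : Fin (R + 1) → ℂ}
  {K : Cn R}

/-- The special pairs. -/
theorem y_pair (h : Pre E.Tfin R a S z ql qr zF) (hg : HG R a S (flO R a S) z ql qr r K) {j : ℕ}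
    (hj : j + 2 < R) (h1 : a (j + 1) = 2) (h2 : a (j + 2) = 2) (s0 : S j = true)
    (s1 : S (j + 1) = false) (s2 : S (j + 2) = true) :
    |(sy (qr (j + 1)) (z (j + 1))).im| ≤ 3 / 20 := by
  obtain ⟨hQ, hZ⟩ := E.tabQ_adm h.adm zF h.sol.zr
  have hp := E.pr_chain hj h1 h2 s0 s1 s2
  have eK : (⟨E.nF R a ⟨j, by omega⟩, true, E.kd (E.nlF R S ⟨j, by omega⟩)⟩ : Vt) = vR a S j := by
    have := E.vR_eq (R := R) (a := a) (S := S) (i := ⟨j, by omega⟩)
    rw [← this, s0]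
  have b1 := hQ _ _ _ _ _ hp
  have b2 := hZ _ _ _ _ _ hp
  rw [eK] at b1 b2
  have z1 : z (j + 1) = zF ⟨j + 1, by omega⟩ := h.sol.ez ⟨j + 1, by omega⟩
  have z2 : z (j + 2) = zF ⟨j + 2, by omega⟩ := h.sol.ez ⟨j + 2, by omega⟩
  rw [← z1] at b1
  rw [← z2] at b2
  have hok : (vR a S j).ok = true := h.ok_r (by omega)
  have hc := yQ9
  unfold yQ at hc
  rw [List.all_eq_true] at hc
  have hc := hc (vR a S j) (by
    have := E.mem_types hok
    rwa [show (vR a S j).s = true from s0] at this)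
  rw [hok] at hc
  simp only [Bool.not_true, Bool.false_or] at hc
  have d := hg.sdr (j + 1) (by omega)
  have e1 : (((-150 : ℤ) : ℝ)) / 1000 = -(3 / 20) := by norm_num
  have e2 : (((150 : ℤ) : ℝ)) / 1000 = 3 / 20 := by norm_num
  obtain ⟨c0, c1⟩ := yim_sound hc b1 b2 d.slot.sy_re.1 d.re_lt (by
    rw [d.tan_eq, d.tan_sq, s1])
  rw [e1] at c0
  rw [e2] at c1
  exact abs_le.2 ⟨c0, c1⟩

/-- **The imaginary parts of the critical points of all edges.** -/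
theorem y9_edge (h : Pre E.Tfin R a S z ql qr zF) (hg : HG R a S (flO R a S) z ql qr r K) {i : ℕ}
    (hi : i < R) : |(sy (qr i) (z i)).im| ≤ 3 / 20 := by
  by_cases hx : isx (vR a S i) = true ∧ isx (vL R a S (i + 1)) = true
  · obtain ⟨h3, h4⟩ := isx_R hx.1
    obtain ⟨h5, h6⟩ := isx_L hx.2
    obtain ⟨j, rfl⟩ : ∃ j, i = j + 1 := ⟨i - 1, by omega⟩
    obtain ⟨x1, x2⟩ := hx
    unfold isx E.vR at x1
    unfold isx E.vL at x2
    simp only [Bool.and_eq_true] at x1 x2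
    obtain ⟨-, x3, x4⟩ := x1
    obtain ⟨-, -, x5⟩ := x2
    rw [if_neg (by omega)] at x4
    rw [if_neg (by omega)] at x5
    refine y_pair h hg (by omega) h4 h6 ?_ ?_ ?_
    · simpa using x4
    · simpa using x3
    · simpa using x5
  · exact y_edge y9A y9S h hg hi hx

end Pool.Agent.S5

namespace Pool.Agent.S5.Fld

open Complex
open Pool.Agent.S5.G (sy)

/-- **The field `y` of `OpenB`.** -/
theorem b_y (R : ℕ) (a : ℕ → ℕ) (S : ℕ → Bool) (r : ℕ → ℤ) (z ql qr : ℕ → ℂ)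
    (zF : Fin (R + 1) → ℂ) (h : Pre E.Tfin R a S z ql qr zF)
    (hg : HG R a S (flO R a S) z ql qr r (KO R a S r z ql qr)) :
    ∀ i, i < R → |(sy (qr i) (z i)).im| ≤ 3 / 20 :=
  fun _ hi => y9_edge h hg hi

end Pool.Agent.S5.Fld
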