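import Pool.Agent.S5.Fld.C2g
import Pool.Agent.S5.Fld.FlE2
import Pool.Agent.S5.K.Z.G9

/-!
# The ends with two half twists: the fields `e2l`, `e2r`
-/

set_option autoImplicit false

namespace Pool.Agent.S5.Fld

/-- **The field `e2l`.** -/
theorem e2l (R : ℕ) (a : ℕ → ℕ) (S : ℕ → Bool) (r : ℕ → ℤ) (z ql qr : ℕ → ℂ)
    (zF : Fin (R + 1) → ℂ) (hx : Ctx E.Tfin R a S r z ql qr zF) (ha : a 0 = 2) :
    VClH (ntG R a 0) (slL R a S z ql 0) (slR R a S z qr 0) :=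
  (K.goE9_zero hx.toPre hx.hg ha).vclH (hx.fl_e2l ha) hx.slL_0.1 hx.slL_0.2

/-- **The field `e2r`.** -/
theorem e2r (R : ℕ) (a : ℕ → ℕ) (S : ℕ → Bool) (r : ℕ → ℤ) (z ql qr : ℕ → ℂ)
    (zF : Fin (R + 1) → ℂ) (hx : Ctx E.Tfin R a S r z ql qr zF) (i : ℕ) (hi : i + 1 = R)
    (ha : a (i + 1) = 2) :
    VClH (ntG R a (i + 1)) (slL R a S z ql (i + 1)) (slR R a S z qr (i + 1)) :=
  ((K.goE9_last hx.toPre hx.hg hi ha).vclH (hx.fl_e2r hi ha).swap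
    (by rw [hi]; exact hx.slR_R.1) (by rw [hi]; exact hx.slR_R.2)).swap

end Pool.Agent.S5.Fld
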