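import Pool.Agent.S5.Z.Sp

/-!
# The fields `e3l`, `e3r` of `OpenN`: ends with three half twists

For every table `T` whose regions are contained in the constants of the classes (`Z3.okT T = true`, all
neighbours except `2SA`); the neighbour `2SA` is treated by its other neighbour: the table `V` of the
vertices `2AS` by both neighbours (`Z3.HV T V`), and the region of the chain `(3, 2, 2)` (`Z3.H322 T`).
-/

set_option autoImplicit false

namespace Pool.Agent.S5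

open Pool.Agent.S5.E (Vt)

namespace Fld

/-- The field `e3l`. -/
theorem e3l {T V : Vt → Vt → E.B2.Rg} (hT : Pool.Agent.S5.Z3.okT T = true)
    (hV : Pool.Agent.S5.Z3.sbR (V Pool.Agent.S5.Z3.vAS (Pool.Agent.S5.Z3.meV true))
      750 893 472 699 = true)
    (hTV : Pool.Agent.S5.Z3.HV T V) (h322 : Pool.Agent.S5.Z3.H322 T) :
    ∀ (R : ℕ) (a : ℕ → ℕ) (S : ℕ → Bool) (r : ℕ → ℤ) (z ql qr : ℕ → ℂ)
      (zF : Fin (R + 1) → ℂ), Ctx T R a S r z ql qr zF → a 0 = 3 → Z3 R a S z ql qr 0 :=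
  fun _ _ _ _ _ _ _ _ h h3 => Z3.e3l_all hT hV hTV h322 h h3

/-- The field `e3r`. -/
theorem e3r {T V : Vt → Vt → E.B2.Rg} (hT : Pool.Agent.S5.Z3.okT T = true)
    (hV : Pool.Agent.S5.Z3.sbR (V Pool.Agent.S5.Z3.vAS (Pool.Agent.S5.Z3.meV true))
      750 893 472 699 = true)
    (hTV : Pool.Agent.S5.Z3.HV T V) :
    ∀ (R : ℕ) (a : ℕ → ℕ) (S : ℕ → Bool) (r : ℕ → ℤ) (z ql qr : ℕ → ℂ)
      (zF : Fin (R + 1) → ℂ), Ctx T R a S r z ql qr zF →
        ∀ i, i + 1 = R → a (i + 1) = 3 → Z3 R a S z ql qr (i + 1) :=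
  fun _ _ _ _ _ _ _ _ h _ hi h3 => Z3.e3r_all hT hV hTV h hi h3

end Fld

end Pool.Agent.S5
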