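import Pool.Agent.S5.Fld.e3
import Pool.Agent.S5.E.T.WFin
import Pool.Agent.S5.Z.C322c

/-!
# The ends with three half twists: the final table
-/

set_option autoImplicit false

namespace Pool.Agent.S5

open Pool.Agent.S5.E (Vt)

namespace Fld

theorem okT_fin : Z3.okT E.Tfin = true := by decide +kernel

theorem vS_fin : Z3.sbR (E.V9S Z3.vAS (Z3.meV true)) 750 893 472 699 = true := by decide +kernel

theorem hv_fin : Z3.HV E.Tfin E.V9S :=
  fun _ _ _ _ _ _ zF h => (E.tabV_adm h.adm zF h.sol.zr).1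

theorem h322_fin : Z3.H322 E.Tfin := by
  intro R a S r z ql qr zF h hR a0 a1 a2 s0 s1
  subst hR
  exact (C322.Pos.tv h.sol.crt h.sol.ez (E.tabV_adm h.adm zF h.sol.zr).1 a0 a1 a2 s0 s1).inr'

end Fld

namespace Ctx

variable {R : ℕ} {a : ℕ → ℕ} {S : ℕ → Bool} {r : ℕ → ℤ} {z ql qr : ℕ → ℂ} {zF : Fin (R + 1) → ℂ}

/-- The field `e3l`. -/
theorem f_e3l (h : Ctx E.Tfin R a S r z ql qr zF) (h0 : a 0 = 3) : Z3 R a S z ql qr 0 :=
  Fld.e3l Fld.okT_fin Fld.vS_fin Fld.hv_fin Fld.h322_fin R a S r z ql qr zF h h0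

/-- The field `e3r`. -/
theorem f_e3r (h : Ctx E.Tfin R a S r z ql qr zF) {i : ℕ} (hi : i + 1 = R) (h0 : a (i + 1) = 3) :
    Z3 R a S z ql qr (i + 1) :=
  Fld.e3r Fld.okT_fin Fld.vS_fin Fld.hv_fin R a S r z ql qr zF h i hi h0

end Ctx

end Pool.Agent.S5
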