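import Pool.Agent.S5.I.E4m
import Pool.Agent.S5.E.E4.C4
import Pool.Agent.S5.I.TsK
import Pool.Agent.S5.LastD

/-!
# The ends with four half twists: the fields `e4l`, `e4r`
-/

set_option autoImplicit false

namespace Pool.Agent.S5

open Complex
open Pool.Agent.H63.VC3 (hh)
open Pool.Agent.S3 (he he_eq_hh)
open Pool.Agent.S5.E (Vt kd vL vR)
open Pool.Agent.S5.E.B2 (InR)
open Pool.Agent.S5.G (kp Sd sy)
open Pool.Agent.S5.E.E4 (H4)

/-- The boxes of the rows (the type of the neighbour, its region). -/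
def sub4 (a : ℕ) (s : Bool) (o : Option Bool) (g : E.B2.Rg) : Bool :=
  match a, s, o with
  | 2, false, none => E.E4.sub g 621 626 929 939
  | 2, false, some false => E.E4.sub g 749 941 373 619
  | 2, false, some true => E.E4.sub g 880 946 582 677
  | 3, false, none => E.E4.sub g 661 679 307 331
  | 3, false, some false => E.E4.sub g 778 877 225 351
  | 3, false, some true => E.E4.sub g 783 871 323 473
  | 4, false, none => E.E4.sub g 757 772 123 140
  | 4, false, some false => E.E4.sub g 826 878 115 199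
  | 4, false, some true => E.E4.sub g 807 871 180 266
  | 5, false, none => E.E4.sub g 825 846 57 81
  | 5, false, some false => E.E4.sub g 861 903 64 125
  | 5, false, some true => E.E4.sub g 842 892 99 152
  | 6, false, none => E.E4.sub g 869 892 26 50
  | 6, false, some false => E.E4.sub g 884 924 36 84
  | 6, false, some true => E.E4.sub g 869 917 53 103
  | 7, false, none => E.E4.sub g 899 920 14 36
  | 7, false, some false => E.E4.sub g 907 942 17 57
  | 7, false, some true => E.E4.sub g 897 935 23 66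
  | 8, false, none => E.E4.sub g 920 1000 0 27
  | 8, false, some false => E.E4.sub g 924 1000 0 42
  | 8, false, some true => E.E4.sub g 913 1000 0 50
  | 2, true, some false => E.E4.sub g 739 908 420 704
  | 3, true, none => E.E4.sub g 629 653 362 397
  | 3, true, some false => E.E4.sub g 760 869 243 395
  | 3, true, some true => E.E4.sub g 769 868 372 548
  | 4, true, none => E.E4.sub g 734 750 145 163
  | 4, true, some false => E.E4.sub g 813 864 137 223
  | 4, true, some true => E.E4.sub g 790 860 203 298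
  | 5, true, none => E.E4.sub g 811 833 66 93
  | 5, true, some false => E.E4.sub g 853 893 73 139
  | 5, true, some true => E.E4.sub g 830 888 110 176
  | 6, true, none => E.E4.sub g 850 880 24 58
  | 6, true, some false => E.E4.sub g 875 920 37 94
  | 6, true, some true => E.E4.sub g 859 910 57 113
  | 7, true, none => E.E4.sub g 893 913 15 39
  | 7, true, some false => E.E4.sub g 903 936 23 62
  | 7, true, some true => E.E4.sub g 884 927 29 80
  | 8, true, none => E.E4.sub g 905 1000 0 29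
  | 8, true, some false => E.E4.sub g 913 1000 0 50
  | 8, true, some true => E.E4.sub g 901 1000 0 61
  | _, _, _ => false

/-- The types of the neighbour. -/
def all4 : List Vt :=
  [⟨2, false, none⟩, ⟨2, false, some false⟩, ⟨2, false, some true⟩, ⟨3, false, none⟩, ⟨3, false, some false⟩, ⟨3, false, some true⟩, ⟨4, false, none⟩, ⟨4, false, some false⟩, ⟨4, false, some true⟩, ⟨5, false, none⟩, ⟨5, false, some false⟩, ⟨5, false, some true⟩, ⟨6, false, none⟩, ⟨6, false, some false⟩, ⟨6, false, some true⟩, ⟨7, false, none⟩, ⟨7, false, some false⟩, ⟨7, false, some true⟩, ⟨8, false, none⟩, ⟨8, false, some false⟩, ⟨8, false, some true⟩, ⟨2, true, some false⟩, ⟨3, true, none⟩, ⟨3, true, some false⟩, ⟨3, true, some true⟩, ⟨4, true, none⟩, ⟨4, true, some false⟩, ⟨4, true, some true⟩, ⟨5, true, none⟩, ⟨5, true, some false⟩, ⟨5, true, some true⟩, ⟨6, true, none⟩, ⟨6, true, some false⟩, ⟨6, true, some true⟩, ⟨7, true, none⟩, ⟨7, true, some false⟩, ⟨7,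 true, some true⟩, ⟨8, true, none⟩, ⟨8, true, some false⟩, ⟨8, true, some true⟩]

theorem mem_all4 {J : Vt} (hJ : J.ok = true) : J ∈ all4 := by
  obtain ⟨a, s, o⟩ := J
  unfold Vt.ok at hJ
  simp only [Bool.and_eq_true] at hJ
  have h1 := Nat.le_of_ble_eq_true hJ.1
  have h2 := Nat.le_of_ble_eq_true hJ.2.1
  have h3 := hJ.2.2
  clear hJ
  interval_cases a <;> rcases s with _ | _ <;> rcases o with _ | _ | _ <;>
    first | exact absurd h3 (by decide) | decide

/-- The check of a type of the neighbour. -/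
def chk4 (T : Vt → Vt → E.B2.Rg) (J : Vt) : Bool :=
  sub4 J.a J.s J.o (T J ⟨4, J.s, none⟩) &&
    (Nat.ble 600 (T ⟨4, J.s, none⟩ J).k0 && Nat.ble (T ⟨4, J.s, none⟩ J).t1 300)

/-- The check of a table. -/
def tab4 (T : Vt → Vt → E.B2.Rg) : Bool := all4.all (chk4 T)

theorem rws_all {J : Vt} (hJ : J.ok = true) {c q z : ℂ} (hH : H4 J.s c q z) {g : E.B2.Rg}
    (hg : sub4 J.a J.s J.o g = true) (h : InR g c.re (-c.im)) :
    Tb.Rws J.s ⟨min J.a 6, J.o.isNone⟩ (sy q z) (z / Real.pi) := by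
  have hm := mem_all4 hJ
  simp only [all4, List.mem_cons, List.not_mem_nil, or_false] at hm
  rcases hm with rfl | rfl | rfl | rfl | rfl | rfl | rfl | rfl | rfl | rfl | rfl | rfl | rfl | rfl | rfl | rfl | rfl | rfl | rfl | rfl | rfl | rfl | rfl | rfl | rfl | rfl | rfl | rfl | rfl | rfl | rfl | rfl | rfl | rfl | rfl | rfl | rfl | rfl | rfl | rfl
  · exact Tb.m_2A0 hH hg h
  · exact Tb.m_2AA hH hg h
  · exact Tb.m_2AS hH hg h
  · exact Tb.m_3A0 hH hg h
  · exact Tb.m_3AA hH hg h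
  · exact Tb.m_3AS hH hg h
  · exact Tb.m_4A0 hH hg h
  · exact Tb.m_4AA hH hg h
  · exact Tb.m_4AS hH hg h
  · exact Tb.m_5A0 hH hg h
  · exact Tb.m_5AA hH hg h
  · exact Tb.m_5AS hH hg h
  · exact Tb.m_6A0 hH hg h
  · exact Tb.m_6AA hH hg h
  · exact Tb.m_6AS hH hg h
  · exact Tb.m_7A0 hH hg h
  · exact Tb.m_7AA hH hg h
  · exact Tb.m_7AS hH hg h
  · exact Tb.m_8A0 hH hg h
  · exact Tb.m_8AA hH hg h
  · exact Tb.m_8AS hH hg h
  · exact Tb.m_2SA hH hg h
  · exact Tb.m_3S0 hH hg h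
  · exact Tb.m_3SA hH hg h
  · exact Tb.m_3SS hH hg h
  · exact Tb.m_4S0 hH hg h
  · exact Tb.m_4SA hH hg h
  · exact Tb.m_4SS hH hg h
  · exact Tb.m_5S0 hH hg h
  · exact Tb.m_5SA hH hg h
  · exact Tb.m_5SS hH hg h
  · exact Tb.m_6S0 hH hg h
  · exact Tb.m_6SA hH hg h
  · exact Tb.m_6SS hH hg h
  · exact Tb.m_7S0 hH hg h
  · exact Tb.m_7SA hH hg h
  · exact Tb.m_7SS hH hg h
  · exact Tb.m_8S0 hH hg h
  · exact Tb.m_8SA hH hg h
  · exact Tb.m_8SS hH hg h

theorem d0_F (S : Bool) (x : Nt) : d0 S ⟨4, true⟩ x .F = 0 ∧ d0 S x ⟨4, true⟩ .F = 0 ∧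
    r0 S ⟨4, true⟩ x .F = 0 ∧ r0 S x ⟨4, true⟩ .F = 0 := by
  refine ⟨?_, ?_, rfl, rfl⟩
  · simp [d0]
  · simp [d0]

theorem lv4 {q z : ℂ} (hf : G.SF q z) (hp : 0 < (sy q z - z / Real.pi).re)
    (he4 : 4 * z = Real.pi + I * q) :
    2 * Real.pi * I * (1 - 4 * (z / Real.pi)) + lv (sy q z) (z / Real.pi) = 0 := by
  have y1 := hf.sl.ymv
  have y2 := hf.sl.yv
  have e : lv (sy q z) (z / Real.pi) = -2 * q := by
    unfold lv
    rw [← he_eq_hh hp (by linarith [y1.2]), ← he_eq_hh y2.1 y2.2, hf.e1, hf.e2]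
    ring
  rw [e]
  have e2 : (Real.pi : ℂ) * I * (z / Real.pi) = I * z := G.v_mul z
  linear_combination -8 * e2 - 2 * I * he4 - 2 * q * I_sq

/-- **The slot of an end with four half twists.** -/
theorem vs4 {J : Vt} (hJ : J.ok = true) {c q z : ℂ} (hH : H4 J.s c q z) (hf : G.SF q z)
    (hp : 0 < (sy q z - z / Real.pi).re) {g : E.B2.Rg}
    (hg : sub4 J.a J.s J.o g = true) (h : InR g c.re (-c.im)) (z1 : ℝ) :
    VS ⟨4, true⟩ (3 / 10) (z / Real.pi) ⟨true, J.s, ⟨min J.a 6, J.o.isNone⟩, z1, sy q z,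
      2 * (log (kp J.s c) - log (cos z))⟩ := by
  have hpi := Real.pi_pos
  obtain ⟨w1, w2⟩ := rws_all hJ hH hg h
  have hi : 0 < (z / Real.pi).im := by
    rw [show z / (Real.pi : ℂ) = ((1 / Real.pi : ℝ) : ℂ) * z by push_cast; ring, im_ofReal_mul]
    have := hH.sd.zi
    positivity
  exact Tb.VS4 Tb.tab_ok hi hH.lam.symm (lv4 hf hp hH.eq) w1 w2 (d0_F _ _)

namespace Ctx

variable {T : Vt → Vt → E.B2.Rg} {R : ℕ} {a : ℕ → ℕ} {S : ℕ → Bool} {r : ℕ → ℤ}
  {z ql qr : ℕ → ℂ} {zF : Fin (R + 1) → ℂ}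

theorem e4l (hT : tab4 T = true) (h : Ctx T R a S r z ql qr zF) (h0 : a 0 = 4) :
    VSR R a S z qr 0 := by
  have hR : 0 < R := h.hg.crt.hR
  have hJ := h.toPre.ok_r hR
  have hJ' : (vL R a S 1).ok = true := h.toPre.ok_l hR
  have hr := h.toPre.rr hR
  have hl := h.toPre.rl hR
  have e : vR a S 0 = ⟨4, S 0, none⟩ := by
    unfold E.vR
    rw [h0, if_pos rfl]
    rfl
  have es : (vL R a S 1).s = S 0 := rfl
  have hc := List.all_eq_true.1 hT _ (mem_all4 hJ')
  unfold chk4 at hc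
  rw [Bool.and_eq_true, Bool.and_eq_true, es, ← e] at hc
  obtain ⟨c1, c2, c3⟩ := hc
  have hH := h.h4r h0 hl (Nat.le_of_ble_eq_true c2) (Nat.le_of_ble_eq_true c3)
  obtain ⟨f1, f2, -⟩ := h.hg.frame 0 (Nat.zero_le _)
  have key := vs4 hJ' hH f2 (h.hg.bx.vr 0 hR (Or.inr ⟨h0, rfl⟩)).2 c1 hr (z1O R a S 1)
  unfold VSR
  rw [Ctx.slR_mk hR]
  have e1 : ntG R a 0 = ⟨4, true⟩ := by
    unfold ntG
    rw [h0]
    rfl
  have e2 : x1O a 0 = 3 / 10 := if_pos h0
  have e3 : ntG R a (0 + 1) = ⟨min (vL R a S 1).a 6, (vL R a S 1).o.isNone⟩ := by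
    unfold ntG E.vL
    congr 1
    · show min (a 1) 6 = min (min (a 1) 8) 6
      omega
    · by_cases hc : 1 = R
      · rw [if_pos hc]
        exact decide_eq_true (Or.inr hc)
      · rw [if_neg hc]
        exact decide_eq_false (by omega)
  rw [e1, e2, e3]
  exact key

theorem e4r (hT : tab4 T = true) (h : Ctx T R a S r z ql qr zF) {i : ℕ} (hi : i + 1 = R)
    (h0 : a (i + 1) = 4) : VSL R a S z ql (i + 1) := by
  have hR : i < R := by omega
  have hJ' : (vR a S i).ok = true := h.toPre.ok_r hR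
  have hr := h.toPre.rr hR
  have hl := h.toPre.rl hR
  have e : vL R a S (i + 1) = ⟨4, S i, none⟩ := by
    unfold E.vL
    rw [h0, if_pos hi]
    rfl
  have es : (vR a S i).s = S i := rfl
  have hc := List.all_eq_true.1 hT _ (mem_all4 hJ')
  unfold chk4 at hc
  rw [Bool.and_eq_true, Bool.and_eq_true, es, ← e] at hc
  obtain ⟨c1, c2, c3⟩ := hc
  have hH := h.h4l hi h0 hr (Nat.le_of_ble_eq_true c2) (Nat.le_of_ble_eq_true c3)
  obtain ⟨f1, f2, -⟩ := h.hg.frame (i + 1) (by omega)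
  have key := vs4 hJ' hH f1 (h.hg.bx.vl i (by omega) (Or.inr ⟨h0, hi⟩)).2 c1 hl (z1O R a S i)
  unfold VSL
  rw [Ctx.slL_mk]
  have e1 : ntG R a (i + 1) = ⟨4, true⟩ := by
    unfold ntG
    rw [h0, decide_eq_true (Or.inr hi)]
    rfl
  have e2 : x1O a (i + 1) = 3 / 10 := if_pos h0
  have e3 : ntG R a i = ⟨min (vR a S i).a 6, (vR a S i).o.isNone⟩ := by
    unfold ntG E.vR
    congr 1
    · show min (a i) 6 = min (min (a i) 8) 6
      omega
    · by_cases hc : i = 0
      · rw [if_pos hc]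
        exact decide_eq_true (Or.inl hc)
      · rw [if_neg hc]
        exact decide_eq_false (by omega)
  rw [e1, e2, e3]
  exact key

end Ctx

end Pool.Agent.S5
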