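import Pool.Agent.S5.Fld.e4
import Pool.Agent.S5.E.T.TabF

/-!
# The ends with four half twists: the final table
-/

set_option autoImplicit false

namespace Pool.Agent.S5

theorem tab4_fin : tab4 E.Tfin = true := by decide +kernel

namespace Ctx

variable {R : ℕ} {a : ℕ → ℕ} {S : ℕ → Bool} {r : ℕ → ℤ} {z ql qr : ℕ → ℂ} {zF : Fin (R + 1) → ℂ}

/-- The field `e4l`. -/
theorem f_e4l (h : Ctx E.Tfin R a S r z ql qr zF) (h0 : a 0 = 4) : VSR R a S z qr 0 :=
  e4l tab4_fin h h0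

/-- The field `e4r`. -/
theorem f_e4r (h : Ctx E.Tfin R a S r z ql qr zF) {i : ℕ} (hi : i + 1 = R) (h0 : a (i + 1) = 4) :
    VSL R a S z ql (i + 1) := e4r tab4_fin h hi h0

end Ctx

end Pool.Agent.S5
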