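import Pool.Agent.S5.Fld.C2g
import Pool.Agent.S5.Fld.Fl2
import Pool.Agent.S5.K.Z.G9

/-!
# The inner nodes with two half twists: the field `i2`
-/

set_option autoImplicit false

namespace Pool.Agent.S5.Fld

/-- **The field `i2`.** -/
theorem i2 (R : ℕ) (a : ℕ → ℕ) (S : ℕ → Bool) (r : ℕ → ℤ) (z ql qr : ℕ → ℂ)
    (zF : Fin (R + 1) → ℂ) (hx : Ctx E.Tfin R a S r z ql qr zF) (i : ℕ) (hi : i + 1 < R)
    (ha : a (i + 1) = 2) :
    VClH (ntG R a (i + 1)) (slL R a S z ql (i + 1)) (slR R a S z qr (i + 1)) :=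
  (K.goN9 hx.toPre hx.hg hi ha).vclH (F.flat_i2 hx hi ha)

end Pool.Agent.S5.Fld
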