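import Pool.Agent.S5.LastD
import Pool.Agent.S5.K3.CvR
import Pool.Agent.S5.K3.CvF
import Pool.Agent.S5.K3.SpQ

/-!
# Inner nodes with three half twists: the field `i3`
-/

set_option autoImplicit false

namespace Pool.Agent.S5.Fld

/-- The field `i3`. -/
theorem i3 : ∀ (R : ℕ) (a : ℕ → ℕ) (S : ℕ → Bool) (r : ℕ → ℤ) (z ql qr : ℕ → ℂ)
    (zF : Fin (R + 1) → ℂ), Ctx E.Tfin R a S r z ql qr zF →
      ∀ i, i + 1 < R → a (i + 1) = 3 → Z3 R a S z ql qr (i + 1) :=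
  fun _ _ _ _ _ _ _ _ h _ hi h3 => K3.i3_all K3.flS_fin K3.gAll_ok K3.fAll_ok K3.spQ_fin
    K3.tab33_fin K3.covR_fin K3.covF_fin h hi h3

end Pool.Agent.S5.Fld
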