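import Pool.Agent.S5.Z4.Ex4
import Pool.Agent.S5.Z4.CvC
import Pool.Agent.S5.Fld.Lo4

/-!
# Inner nodes with four half twists: the field `i4`
-/

set_option autoImplicit false

namespace Pool.Agent.S5.Z4

open Complex
open Pool.Agent.S5.E (Vt vL vR)

theorem ix_le_two {J : Vt} (h : J.ok = true) (hx : J.ix ≤ 2) : J.a = 2 := by
  obtain ⟨a, s, o⟩ := J
  unfold E.Vt.ok at h
  simp only [Bool.and_eq_true, Nat.ble_eq] at h
  obtain ⟨h1, h2, -⟩ := h
  dsimp only
  unfold E.Vt.ix at hx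
  interval_cases a <;> rcases o with _ | _ | _ <;> rcases s with _ | _ <;>
    first | rfl | exact absurd hx (by decide)

theorem ix_two {J : Vt} (h : J.ok = true) (hx : J.ix = 2) : J.a = 2 ∧ J.o = none := by
  obtain ⟨a, s, o⟩ := J
  unfold E.Vt.ok at h
  simp only [Bool.and_eq_true, Nat.ble_eq] at h
  obtain ⟨h1, h2, -⟩ := h
  dsimp only
  unfold E.Vt.ix at hx
  interval_cases a <;> rcases o with _ | _ | _ <;> rcases s with _ | _ <;>
    first | exact ⟨rfl, rfl⟩ | exact absurd hx (by decide)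

variable {R : ℕ} {a : ℕ → ℕ} {S : ℕ → Bool} {r : ℕ → ℤ} {z ql qr : ℕ → ℂ} {zF : Fin (R + 1) → ℂ}

theorem vR_a2 {i : ℕ} (h : (vR a S i).a = 2) : a i = 2 := by
  have h1 : min (a i) 8 = 2 := h
  omega

theorem vL_a2 {i : ℕ} (h : (vL R a S i).a = 2) : a i = 2 := by
  have h1 : min (a i) 8 = 2 := h
  omega

theorem vt_mk {J : Vt} {n : ℕ} {s : Bool} {o : Option Bool} (h1 : J.a = n) (h2 : J.s = s)
    (h3 : J.o = o) : J = ⟨n, s, o⟩ := by
  subst h1 h2 h3
  rfl

/-- Every inner node with four half twists is in a certificate. -/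
theorem hl_fin (h : Ctx E.Tfin R a S r z ql qr zF) {i : ℕ} (hi : i + 1 < R)
    (ha : a (i + 1) = 4) : Hl R a S z i := by
  have o1 := h.toPre.ok_r (i := i) (by omega)
  have o2 := h.toPre.ok_l (i := i + 1) hi
  rcases hs : S i with _ | _ <;> rcases ho : S (i + 1) with _ | _
  · rcases hX : xAA (vR a S i).ix (vL R a S (i + 2)).ix with _ | _
    · exact hl_of h hi ha hs ho cvAA allAA_ok allAA_ok ckAA ckAA hX
    · unfold xAA at hX
      simp only [Bool.and_eq_true] at hX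
      obtain ⟨h1, h2⟩ := hX
      obtain ⟨h3, h4⟩ := ix_two o1 (Nat.eq_of_beq_eq_true h1)
      obtain ⟨h5, h6⟩ := ix_two o2 (Nat.eq_of_beq_eq_true h2)
      exact ex4_AA h.toPre hi ha ho (vt_mk h3 hs h4) (vt_mk h5 ho h6)
  · rcases hX : xAS (vR a S i).ix (vL R a S (i + 2)).ix with _ | _
    · exact hl_of h hi ha hs ho cvAS allAS_ok (List.forall_mem_nil _) ckAS ckSA hX
    · unfold xAS at hX
      simp only [Bool.and_eq_true] at hX
      obtain ⟨h1, h2⟩ := hX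
      have h3 := ix_le_two o1 (Nat.le_of_ble_eq_true h1)
      have h5 := ix_le_two o2 (by rw [Nat.eq_of_beq_eq_true h2]; omega)
      exact ex4_AS h.toPre hi ha hs ho (vR_a2 h3) (vL_a2 h5)
  · rcases hX : xSA (vR a S i).ix (vL R a S (i + 2)).ix with _ | _
    · exact hl_of h hi ha hs ho cvSA (List.forall_mem_nil _) allAS_ok ckSA ckAS hX
    · unfold xSA at hX
      simp only [Bool.and_eq_true] at hX
      obtain ⟨h1, h2⟩ := hX
      have h3 := ix_le_two o1 (by rw [Nat.eq_of_beq_eq_true h1]; omega)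
      have h5 := ix_le_two o2 (Nat.le_of_ble_eq_true h2)
      exact ex4_SA h.toPre hi ha hs ho (vR_a2 h3) (vL_a2 h5)
  · exact hl_of h hi ha hs ho cvSS allSS_ok allSS_ok ckSS ckSS rfl

end Pool.Agent.S5.Z4

namespace Pool.Agent.S5.Fld

/-- **INNER 4.** -/
theorem i4 : ∀ (R : ℕ) (a : ℕ → ℕ) (S : ℕ → Bool) (r : ℕ → ℤ) (z ql qr : ℕ → ℂ)
    (zF : Fin (R + 1) → ℂ), Ctx E.Tfin R a S r z ql qr zF →
      ∀ i, i + 1 < R → a (i + 1) = 4 → Z4 R a S z ql qr (i + 1) :=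
  fun _ _ _ _ _ _ _ _ h _ hi ha => (Z4.hl_fin h hi ha).z4 ck4F h hi ha

end Pool.Agent.S5.Fld
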