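import Pool.Agent.S5.LastD
import Pool.Agent.S5.I.V5n
import Pool.Agent.S5.I.VKo
import Pool.Agent.S5.E.VX.VUg

/-!
# The slots of the nodes with five or more half twists: the fields `vr`, `vl`
-/

set_option autoImplicit false

namespace Pool.Agent.S5.Fld

open Complex
open Pool.Agent.S5.E (Tfin)

/-- The field `vr` of the statements about the nodes. -/
theorem n_vr : ∀ (R : ℕ) (a : ℕ → ℕ) (S : ℕ → Bool) (r : ℕ → ℤ) (z ql qr : ℕ → ℂ)
    (zF : Fin (R + 1) → ℂ), Ctx Tfin R a S r z ql qr zF →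
      ∀ i, i < R → 5 ≤ a i → VSR R a S z qr i := by
  intro R a S r z ql qr zF h i hi h5
  unfold VSR
  exact h.vr_of hi h5 (h.vu_r hi h5) VNC_holds

/-- The field `vl` of the statements about the nodes. -/
theorem n_vl : ∀ (R : ℕ) (a : ℕ → ℕ) (S : ℕ → Bool) (r : ℕ → ℤ) (z ql qr : ℕ → ℂ)
    (zF : Fin (R + 1) → ℂ), Ctx Tfin R a S r z ql qr zF →
      ∀ i, i < R → 5 ≤ a (i + 1) → VSL R a S z ql (i + 1) := by
  intro R a S r z ql qr zF h i hi h5
  unfold VSL
  exact h.vl_of hi h5 (h.vu_l hi h5) VNC_holds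

end Pool.Agent.S5.Fld
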